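import Pool.Agent.H10.RQ.Defs

/-!
# RQ Arith: polynomials, transitivity of covering, uncovered functions

`poly_le_pow`: `k` large: `k ≥ ` the sum of the coefficients + degree + 2; for `x = 0` the value is the
constant coefficient `≤ k`; `x = 1`: the sum of the coefficients `≤ k`; `x ≥ 2`:
`p(x) ≤ S x^d ≤ 2^S x^d ≤ x^(S+d)`.

`pow_add_mono`: `x^a + a ≤ x^b + b` for `1 ≤ a ≤ b` (`x = 0` and `x ≥ 1`).

`covered_trans`: if every `t' ∈ F` is covered by `𝒯` and `t` is covered by `F`, then `t` is covered by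
`𝒯`: take the union of the finite sets and a large constant (monotonicity of the three conditions in
`C`, `pow_add_mono`; composition: `(x^C + C)^C + C ≤ x^C' + C'` for all `x` by `poly_le_pow`).

`uncovered`: if the `t' ∈ F` are covered by `𝒯` and `t` is not, then for all `C, B` some `n ≥ B` has no
`t' ∈ F`, `m` in relation `C` with it. If `F` is empty take `n = B`. Otherwise suppose that all
`n ≥ B` are related to something with constant `C`; then for
`C' = C + B + 1 + ∑_{n < B} t n + t₀ 0` (`t₀ ∈ F` fixed) every `n` is related to something with constant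
`C'` (for `n < B` take `t₀, m = 0`), so `t` is covered by `F`, hence by `𝒯`.
-/

set_option autoImplicit false

namespace Pool.Agent.H10.RQ

private theorem Arith_mono {a b : ℕ} (x : ℕ) (hb : 1 ≤ b) (hab : a ≤ b) :
    x ^ a + a ≤ x ^ b + b := by
  rcases Nat.eq_zero_or_pos x with rfl | hx
  · rcases Nat.eq_zero_or_pos a with rfl | ha
    · have h0 : (0 : ℕ) ^ b = 0 := zero_pow (by omega)
      rw [h0, pow_zero]
      omega
    · rw [zero_pow (by omega), zero_pow (by omega)]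
      omega
  · have := Nat.pow_le_pow_right hx hab
    omega

theorem poly_le_pow (p : Polynomial ℕ) : ∃ k : ℕ, 1 ≤ k ∧ ∀ x : ℕ, p.eval x ≤ x ^ k + k := by
  set S := p.eval 1 with hS
  set d := p.natDegree with hd
  have hle : ∀ x : ℕ, 1 ≤ x → p.eval x ≤ S * x ^ d := by
    intro x hx
    rw [hS, Polynomial.eval_eq_sum_range, Polynomial.eval_eq_sum_range, Finset.sum_mul]
    refine Finset.sum_le_sum fun i hi => ?_
    rw [one_pow, mul_one]
    exact Nat.mul_le_mul_left _ (Nat.pow_le_pow_right hx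
      (Nat.lt_succ_iff.1 (Finset.mem_range.1 hi)))
  refine ⟨S + d + 2, by omega, fun x => ?_⟩
  rcases Nat.eq_zero_or_pos x with rfl | hx
  · have h0 : p.eval 0 ≤ S := by
      rw [hS, Polynomial.eval_eq_sum_range, Polynomial.eval_eq_sum_range]
      refine Finset.sum_le_sum fun i _ => ?_
      rw [one_pow]
      exact Nat.mul_le_mul_left _ (pow_le_one₀ (Nat.zero_le 0) (Nat.zero_le 1))
    exact (h0.trans (by omega : S ≤ S + d + 2)).trans (Nat.le_add_left _ _)
  · rcases Nat.eq_or_lt_of_le (Nat.succ_le_of_lt hx) with h1 | h1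
    · have h2 : x = 1 := by omega
      rw [h2]
      exact (by omega : S ≤ S + d + 2).trans (Nat.le_add_left _ _)
    · have h2 : S ≤ 2 ^ S := Nat.lt_two_pow_self.le
      have h3 : 2 ^ S ≤ x ^ S := Nat.pow_le_pow_left (by omega) S
      calc p.eval x ≤ S * x ^ d := hle x hx
        _ ≤ x ^ S * x ^ d := Nat.mul_le_mul_right _ (h2.trans h3)
        _ = x ^ (S + d) := (pow_add x S d).symm
        _ ≤ x ^ (S + d + 2) := Nat.pow_le_pow_right hx (by omega)
        _ ≤ _ := Nat.le_add_right _ _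

theorem pow_add_mono {a b : ℕ} (x : ℕ) (ha : 1 ≤ a) (hab : a ≤ b) : x ^ a + a ≤ x ^ b + b := by
  exact Arith_mono x (ha.trans hab) hab

theorem covered_trans {𝒯 : Set (ℕ → ℕ)} {F : Finset (ℕ → ℕ)} (hF : ∀ t' ∈ F, Covered 𝒯 t')
    {C : ℕ} {t : ℕ → ℕ} (h : CoveredBy F C t) : Covered 𝒯 t := by
  classical
  have hF' : ∀ t' : ℕ → ℕ, ∃ (G : Finset (ℕ → ℕ)) (c : ℕ), t' ∈ F →
      (∀ s ∈ G, s ∈ 𝒯) ∧ CoveredBy G c t' := by
    intro t'
    by_cases ht : t' ∈ F
    · obtain ⟨G, c, h1, h2⟩ := hF t' ht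
      exact ⟨G, c, fun _ => ⟨h1, h2⟩⟩
    · exact ⟨∅, 0, fun h => absurd h ht⟩
  choose G c hG using hF'
  set K := 1 + C + ∑ t' ∈ F, c t' with hK
  have hK1 : 1 ≤ K := by omega
  have hKC : C ≤ K := by omega
  have hKc : ∀ t' ∈ F, c t' ≤ K := by
    intro t' ht
    have : c t' ≤ ∑ t' ∈ F, c t' := Finset.single_le_sum (fun _ _ => Nat.zero_le _) ht
    omega
  obtain ⟨k, hk1, hk⟩ := poly_le_pow ((Polynomial.X ^ K + Polynomial.C K) ^ K + Polynomial.C K)
  have hk' : ∀ x : ℕ, (x ^ K + K) ^ K + K ≤ x ^ k + k := by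
    intro x
    have := hk x
    simpa using this
  refine ⟨F.biUnion G, k + K * K + K, ?_, ?_⟩
  · intro s hs
    obtain ⟨t', ht', hs'⟩ := Finset.mem_biUnion.1 hs
    exact (hG t' ht').1 s hs'
  · intro n
    obtain ⟨t', ht', m, a1, a2, a3⟩ := h n
    obtain ⟨s, hs, m', b1, b2, b3⟩ := (hG t' ht').2 m
    have hc := hKc t' ht'
    have fin : ∀ x y z : ℕ, y ≤ x ^ C + C ∨ y ≤ x ^ c t' + c t' →
        z ≤ y ^ C + C ∨ z ≤ y ^ c t' + c t' →
        z ≤ x ^ (k + K * K + K) + (k + K * K + K) := by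
      intro x y z hy hz
      have hy' : y ≤ x ^ K + K := by
        rcases hy with hy | hy
        · exact hy.trans (Arith_mono x hK1 hKC)
        · exact hy.trans (Arith_mono x hK1 hc)
      have hz' : z ≤ y ^ K + K := by
        rcases hz with hz | hz
        · exact hz.trans (Arith_mono y hK1 hKC)
        · exact hz.trans (Arith_mono y hK1 hc)
      calc z ≤ y ^ K + K := hz'
        _ ≤ (x ^ K + K) ^ K + K := Nat.add_le_add_right (Nat.pow_le_pow_left hy' K) K
        _ ≤ x ^ k + k := hk' x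
        _ ≤ _ := Arith_mono x (by omega) (by omega)
    refine ⟨s, Finset.mem_biUnion.2 ⟨t', ht', hs⟩, m', ?_, ?_, ?_⟩
    · have e1 : n ≤ K * m + K := a1.trans (Nat.add_le_add (Nat.mul_le_mul_right m hKC) hKC)
      have e2 : m ≤ K * m' + K := b1.trans (Nat.add_le_add (Nat.mul_le_mul_right m' hc) hc)
      have e3 : K * m ≤ K * (K * m' + K) := Nat.mul_le_mul_left K e2
      have e4 : K * (K * m' + K) + K = K * K * m' + (K * K + K) := by ring
      have e5 : K * K * m' ≤ (k + K * K + K) * m' := Nat.mul_le_mul_right m' (by omega)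
      omega
    · exact fin (t n) (t' m) (s m') (Or.inl a2) (Or.inr b2)
    · exact fin (s m') (t' m) (t n) (Or.inr b3) (Or.inl a3)

theorem uncovered {𝒯 : Set (ℕ → ℕ)} {F : Finset (ℕ → ℕ)} (hF : ∀ t' ∈ F, Covered 𝒯 t')
    {t : ℕ → ℕ} (h : ¬ Covered 𝒯 t) (C B : ℕ) :
    ∃ n, B ≤ n ∧ ∀ t' ∈ F, ∀ m, n ≤ C * m + C → t' m ≤ t n ^ C + C → ¬ t n ≤ t' m ^ C + C := by
  by_contra hcon
  have hcon' : ∀ n, B ≤ n → ∃ t' ∈ F, ∃ m, n ≤ C * m + C ∧ t' m ≤ t n ^ C + C ∧
      t n ≤ t' m ^ C + C := by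
    intro n hn
    by_contra hc
    apply hcon
    refine ⟨n, hn, fun t' ht' m h1 h2 h3 => hc ⟨t', ht', m, h1, h2, h3⟩⟩
  obtain ⟨t₀, ht₀, -⟩ := hcon' B le_rfl
  apply h
  refine covered_trans (C := C + B + 1 + ∑ n ∈ Finset.range B, t n + t₀ 0) hF ?_
  intro n
  rcases lt_or_ge n B with hn | hn
  · refine ⟨t₀, ht₀, 0, by omega, by omega, ?_⟩
    have : t n ≤ ∑ n ∈ Finset.range B, t n :=
      Finset.single_le_sum (fun _ _ => Nat.zero_le _) (Finset.mem_range.2 hn)
    omega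
  · obtain ⟨t', ht', m, h1, h2, h3⟩ := hcon' n hn
    refine ⟨t', ht', m, ?_, ?_, ?_⟩
    · refine h1.trans (Nat.add_le_add (Nat.mul_le_mul_right m ?_) ?_) <;> omega
    · exact h2.trans (Arith_mono _ (by omega) (by omega))
    · exact h3.trans (Arith_mono _ (by omega) (by omega))

end Pool.Agent.H10.RQ
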