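import Pool.Agent.H10.RQ.Defs

/-!
# RQ Enc: unique decoding
-/

set_option autoImplicit false

namespace Pool.Agent.H10.RQ

/-- the prefix of the words of one kind -/
def pre (i : ℕ) (b : Bool) : W := List.replicate i true ++ [false, b]

theorem pre_inj {i i' : ℕ} {b b' : Bool} {x x' : W} (h : pre i b ++ x = pre i' b' ++ x') :
    i = i' ∧ b = b' ∧ x = x' := by
  induction i generalizing i' with
  | zero =>
    cases i' with
    | zero =>
      simp only [pre, List.replicate_zero, List.nil_append, List.cons_append,
        List.cons.injEq, true_and] at h
      exact ⟨rfl, h.1, h.2⟩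
    | succ i' =>
      simp [pre, List.replicate_succ] at h
  | succ i ih =>
    cases i' with
    | zero => simp [pre, List.replicate_succ] at h
    | succ i' =>
      have h' : pre i b ++ x = pre i' b' ++ x' := by
        simpa [pre, List.replicate_succ] using h
      obtain ⟨h1, h2, h3⟩ := ih h'
      exact ⟨by omega, h2, h3⟩

theorem block_inj {a a' : ℕ} {x x' : W}
    (h : List.replicate a true ++ false :: x = List.replicate a' true ++ false :: x') :
    a = a' ∧ x = x' := by
  induction a generalizing a' with
  | zero =>
    cases a' with
    | zero => simpa using h
    | succ a' => simp [List.replicate_succ] at h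
  | succ a ih =>
    cases a' with
    | zero => simp [List.replicate_succ] at h
    | succ a' =>
      have h' : List.replicate a true ++ false :: x = List.replicate a' true ++ false :: x' := by
        simpa [List.replicate_succ] using h
      obtain ⟨h1, h2⟩ := ih h'
      exact ⟨by omega, h2⟩

theorem enc_inj {l l' : List ℕ} {z z' : W} (h : enc l ++ z = enc l' ++ z') :
    l = l' ∧ z = z' := by
  induction l generalizing l' with
  | nil =>
    cases l' with
    | nil => simpa [enc] using h
    | cons a' l' => simp [enc] at h
  | cons a l ih =>
    cases l' with
    | nil => simp [enc] at h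
    | cons a' l' =>
      have h' : List.replicate a true ++ false :: (enc l ++ z) =
          List.replicate a' true ++ false :: (enc l' ++ z') := by
        simpa [enc] using h
      obtain ⟨h1, h2⟩ := block_inj h'
      obtain ⟨h3, h4⟩ := ih h2
      exact ⟨by rw [h1, h3], h4⟩

theorem enc_length_le {a : ℕ} (l : List ℕ) (hl : ∀ x ∈ l, x < a) :
    (enc l).length ≤ l.length * (a + 1) + 1 := by
  induction l with
  | nil => simp [enc]
  | cons x l ih =>
    have h1 := ih fun y hy => hl y (List.mem_cons_of_mem _ hy)
    have h2 := hl x (List.mem_cons_self)
    simp only [enc, List.length_cons, List.length_append, List.length_replicate]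
    rw [Nat.add_mul]
    omega

theorem enc_length_pos (l : List ℕ) : 1 ≤ (enc l).length := by
  cases l <;> simp [enc]

theorem pre_length (i : ℕ) (b : Bool) : (pre i b).length = i + 2 := by
  simp [pre]

theorem map_val_inj {a : ℕ} {v v' : List (Fin a)}
    (h : v.map (fun x => x.val) = v'.map (fun x => x.val)) : v = v' :=
  List.map_injective_iff.mpr Fin.val_injective h

end Pool.Agent.H10.RQ
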