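import Pool.Agent.H10.RQ.Arith

/-!
# RQ Sizes: the choice of the length of the test words of a stage
-/

set_option autoImplicit false

namespace Pool.Agent.H10.RQ

open Finset

/-- the words of length `< q` over `Fin a` -/
def shortWords (a q : ℕ) : Finset (List (Fin a)) :=
  (Finset.range q).biUnion (fun m => (Finset.univ : Finset (Fin m → Fin a)).image List.ofFn)

theorem mem_shortWords {a q : ℕ} {v : List (Fin a)} (h : v.length < q) : v ∈ shortWords a q := by
  unfold shortWords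
  rw [Finset.mem_biUnion]
  refine ⟨v.length, Finset.mem_range.mpr h, ?_⟩
  rw [Finset.mem_image]
  exact ⟨fun i => v.get i, Finset.mem_univ _, List.ofFn_get v⟩

theorem card_shortWords (a q : ℕ) : (shortWords a q).card ≤ (a + 1) ^ q := by
  induction q with
  | zero => simp [shortWords]
  | succ q ih =>
    have h1 : shortWords a (q + 1) ⊆
        shortWords a q ∪ (Finset.univ : Finset (Fin q → Fin a)).image List.ofFn := by
      intro v hv
      unfold shortWords at hv ⊢
      rw [Finset.mem_biUnion] at hv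
      obtain ⟨m, hm, hv⟩ := hv
      rw [Finset.mem_range] at hm
      rw [Finset.mem_union]
      rcases Nat.lt_or_ge m q with h | h
      · left
        rw [Finset.mem_biUnion]
        exact ⟨m, Finset.mem_range.mpr h, hv⟩
      · right
        have : m = q := by omega
        rw [← this]
        exact hv
    have h2 : ((Finset.univ : Finset (Fin q → Fin a)).image List.ofFn).card ≤ a ^ q := by
      refine Finset.card_image_le.trans ?_
      rw [Finset.card_univ, Fintype.card_fun, Fintype.card_fin, Fintype.card_fin]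
    have h3 : a ^ q ≤ a * (a + 1) ^ q ∨ q = 0 ∨ a = 0 := by
      rcases Nat.eq_zero_or_pos a with h | h
      · exact Or.inr (Or.inr h)
      · left
        calc a ^ q ≤ (a + 1) ^ q := Nat.pow_le_pow_left (by omega) q
          _ = 1 * (a + 1) ^ q := by ring
          _ ≤ a * (a + 1) ^ q := Nat.mul_le_mul_right _ h
    have h4 : (shortWords a (q + 1)).card ≤ (shortWords a q).card + a ^ q :=
      (Finset.card_le_card h1).trans ((Finset.card_union_le _ _).trans
        (Nat.add_le_add_left h2 _))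
    rcases Nat.eq_zero_or_pos q with hq | hq
    · subst hq
      have : (shortWords a 0).card = 0 := by simp [shortWords]
      rw [this] at h4
      simp only [pow_zero, Nat.zero_add] at h4
      calc _ ≤ 1 := h4
        _ ≤ (a + 1) ^ (0 + 1) := by simp
    · rcases h3 with h3 | h3 | h3
      · calc _ ≤ _ := h4
          _ ≤ (a + 1) ^ q + a * (a + 1) ^ q := Nat.add_le_add ih h3
          _ = (a + 1) ^ (q + 1) := by ring
      · omega
      · subst h3
        have h5 : (0 : ℕ) ^ q = 0 := Nat.zero_pow hq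
        rw [h5] at h4
        calc _ ≤ _ := h4
          _ ≤ (0 + 1) ^ q := by omega
          _ = (0 + 1) ^ (q + 1) := by simp

theorem exists_pow_lt_half (k : ℕ) : ∃ N0 : ℕ, ∀ N ≥ N0, N ^ k + k < 2 ^ (N / 2) := by
  have h1 : ∃ M0 : ℕ, ∀ M ≥ M0, (2 * M + 1) ^ k + k < 2 ^ M := by
    have h2 : Filter.Tendsto (fun M : ℕ => ((M : ℝ) ^ (k + 1)) / 2 ^ M) Filter.atTop (nhds 0) :=
      tendsto_pow_const_div_const_pow_of_one_lt (k + 1) (by norm_num)
    have h3 : ∀ᶠ M : ℕ in Filter.atTop, ((M : ℝ) ^ (k + 1)) / 2 ^ M < 1 :=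
      h2.eventually (gt_mem_nhds (by norm_num))
    obtain ⟨M1, hM1⟩ := Filter.eventually_atTop.mp h3
    refine ⟨max M1 (3 ^ k + k + 1), fun M hM => ?_⟩
    have h4 := hM1 M (le_of_max_le_left hM)
    rw [div_lt_one (by positivity)] at h4
    have h5 : M ^ (k + 1) < 2 ^ M := by exact_mod_cast h4
    have h6 : 3 ^ k + k + 1 ≤ M := le_of_max_le_right hM
    have h7 : 1 ≤ M := le_trans (Nat.le_add_left 1 _) h6
    calc (2 * M + 1) ^ k + k ≤ (3 * M) ^ k + k * M ^ k := by
          have h8 : (2 * M + 1) ^ k ≤ (3 * M) ^ k := Nat.pow_le_pow_left (by omega) k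
          have h9 : 1 ≤ M ^ k := Nat.one_le_pow _ _ h7
          have h10 : k * 1 ≤ k * M ^ k := Nat.mul_le_mul_left k h9
          omega
      _ = (3 ^ k + k) * M ^ k := by rw [mul_pow]; ring
      _ ≤ M * M ^ k := Nat.mul_le_mul_right _ ((Nat.le_succ _).trans h6)
      _ = M ^ (k + 1) := by ring
      _ < 2 ^ M := h5
  obtain ⟨M0, hM0⟩ := h1
  refine ⟨2 * M0, fun N hN => ?_⟩
  have h2 := hM0 (N / 2) (by omega)
  have h3 : N ^ k ≤ (2 * (N / 2) + 1) ^ k := Nat.pow_le_pow_left (by omega) k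
  omega

theorem sizes {ι : Type} (al ex : ι → ℕ) (tf : ι → ℕ → ℕ) (J : Finset ι)
    {𝒯 : Set (ℕ → ℕ)} (hJ : ∀ j ∈ J, Covered 𝒯 (tf j)) (hex : ∀ j, 1 ≤ ex j) {e : ℕ → ℕ}
    (he : ∀ n, n ≤ e n) (hne : ¬ Covered 𝒯 e) (a k b : ℕ) (ha : 2 ≤ a) (hk : 1 ≤ k) :
    ∃ n, b ≤ n ∧ 2 ≤ e n ∧ e n ^ k + k < e n ^ 2 ^ (k + 1) ∧
      ∃ Dg : Finset (Σ j : ι, List (Fin (al j))),
        (∀ p : Σ j : ι, List (Fin (al j)), p ∈ Dg ↔
          p.1 ∈ J ∧ e n ≤ tf p.1 p.2.length ^ ex p.1 + ex p.1 ∧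
            tf p.1 p.2.length ^ ex p.1 + ex p.1 ≤ e n ^ k + k) ∧
        (Dg.card + 1) ^ (k + 1) ≤ a ^ n ∧ (Dg.card + 1) * (e n ^ k + k) < 2 ^ e n := by
  classical
  obtain ⟨N0, hN0⟩ := exists_pow_lt_half k
  set am : ℕ := J.sup al with ham
  set em : ℕ := J.sup ex with hem
  -- a common exponent
  obtain ⟨L, hL1, hL2⟩ : ∃ L : ℕ, am + 1 ≤ 2 ^ L ∧ J.card + 1 ≤ 2 ^ L := by
    refine ⟨am + J.card + 1, ?_, ?_⟩
    · have : am + J.card + 1 < 2 ^ (am + J.card + 1) := Nat.lt_two_pow_self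
      omega
    · have : am + J.card + 1 < 2 ^ (am + J.card + 1) := Nat.lt_two_pow_self
      omega
  set Δ : ℕ := k + 1 with hΔ
  set C : ℕ := 2 * L * Δ + k + em + 1 with hC
  set B : ℕ := b + 2 * L * Δ + N0 + k + 2 with hB
  have hF : ∀ t' ∈ J.image tf, Covered 𝒯 t' := by
    intro t' ht'
    rw [Finset.mem_image] at ht'
    obtain ⟨j, hj, rfl⟩ := ht'
    exact hJ j hj
  obtain ⟨n, hn1, hn2⟩ := uncovered hF hne C B
  have hnN : n ≤ e n := he n
  set N : ℕ := e n with hN
  set q : ℕ := n / C with hq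
  have hCq : C * q ≤ n := Nat.mul_div_le n C
  have hCpos : 0 < C := by omega
  -- dangerous pairs are short
  have hshort : ∀ p : Σ j : ι, List (Fin (al j)), p.1 ∈ J →
      N ≤ tf p.1 p.2.length ^ ex p.1 + ex p.1 →
      tf p.1 p.2.length ^ ex p.1 + ex p.1 ≤ N ^ k + k → p.2.length < q := by
    intro p hpJ h1 h2
    by_contra hcon
    have hm : q ≤ p.2.length := by omega
    have h3 : n ≤ C * p.2.length + C := by
      have h4 : n < C * (n / C + 1) := Nat.lt_mul_div_succ n hCpos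
      have h5 : C * (n / C + 1) ≤ C * (p.2.length + 1) := Nat.mul_le_mul_left C (by omega)
      have h6 : C * (p.2.length + 1) = C * p.2.length + C := by ring
      omega
    have hexm : ex p.1 ≤ em := Finset.le_sup (f := ex) hpJ
    have h7 : tf p.1 p.2.length ≤ N ^ C + C := by
      have h8 : tf p.1 p.2.length ≤ tf p.1 p.2.length ^ ex p.1 := by
        have := hex p.1
        exact Nat.le_self_pow (by omega) _
      have h9 := pow_add_mono (a := k) (b := C) N hk (by omega)
      omega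
    have h10 : N ≤ tf p.1 p.2.length ^ C + C := by
      have h9 := pow_add_mono (a := ex p.1) (b := C) (tf p.1 p.2.length) (hex p.1) (by omega)
      omega
    exact hn2 (tf p.1) (Finset.mem_image_of_mem tf hpJ) p.2.length h3 h7 h10
  -- the finite set
  set big : Finset (Σ j : ι, List (Fin (al j))) := J.sigma (fun j => shortWords (al j) q) with hbig
  set Dg : Finset (Σ j : ι, List (Fin (al j))) := big.filter (fun p =>
    N ≤ tf p.1 p.2.length ^ ex p.1 + ex p.1 ∧
      tf p.1 p.2.length ^ ex p.1 + ex p.1 ≤ N ^ k + k) with hDg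
  have hcardbig : big.card ≤ J.card * 2 ^ (L * q) := by
    rw [hbig, Finset.card_sigma]
    rw [← smul_eq_mul]
    refine Finset.sum_le_card_nsmul _ _ _ fun j hj => ?_
    refine (card_shortWords (al j) q).trans ?_
    rw [pow_mul]
    refine Nat.pow_le_pow_left ?_ q
    have : al j ≤ am := Finset.le_sup (f := al) hj
    omega
  have hDgcard : Dg.card + 1 ≤ 2 ^ (L * (q + 1)) := by
    have h1 : Dg.card ≤ big.card := Finset.card_filter_le _ _
    have h2 : 1 ≤ 2 ^ (L * q) := Nat.one_le_two_pow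
    calc Dg.card + 1 ≤ J.card * 2 ^ (L * q) + 2 ^ (L * q) := by omega
      _ = (J.card + 1) * 2 ^ (L * q) := by ring
      _ ≤ 2 ^ L * 2 ^ (L * q) := Nat.mul_le_mul_right _ hL2
      _ = 2 ^ (L * (q + 1)) := by rw [← pow_add]; congr 1; ring
  have hLq : 2 * (L * (q + 1) * Δ) ≤ 2 * n := by
    have h1 : 2 * L * Δ * q ≤ C * q := Nat.mul_le_mul_right q (by omega)
    have h2 : 2 * (L * (q + 1) * Δ) = 2 * L * Δ * q + 2 * L * Δ := by ring
    have h3 : 2 * L * Δ ≤ n := by omega
    omega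
  refine ⟨n, by omega, by omega, ?_, Dg, ?_, ?_, ?_⟩
  · -- growth
    have hN2 : 2 ≤ N := by omega
    have hkN : k ≤ N := by omega
    have h1 : N ^ k + k ≤ 2 * N ^ k := by
      have : k ≤ N ^ k := hkN.trans (Nat.le_self_pow (by omega) N)
      omega
    have h2 : 2 * N ^ k ≤ N ^ (k + 1) := by
      rw [pow_succ, mul_comm]
      exact Nat.mul_le_mul_left _ hN2
    have h3 : k + 1 < 2 ^ (k + 1) := Nat.lt_two_pow_self
    have h4 : N ^ (k + 1) < N ^ 2 ^ (k + 1) := Nat.pow_lt_pow_right (by omega) h3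
    exact (h1.trans h2).trans_lt h4
  · intro p
    rw [hDg, Finset.mem_filter, hbig, Finset.mem_sigma]
    constructor
    · rintro ⟨⟨h1, -⟩, h2, h3⟩
      exact ⟨h1, h2, h3⟩
    · rintro ⟨h1, h2, h3⟩
      exact ⟨⟨h1, mem_shortWords (hshort p h1 h2 h3)⟩, h2, h3⟩
  · calc (Dg.card + 1) ^ (k + 1) ≤ (2 ^ (L * (q + 1))) ^ (k + 1) :=
          Nat.pow_le_pow_left hDgcard _
      _ = 2 ^ (L * (q + 1) * Δ) := by rw [← pow_mul]
      _ ≤ 2 ^ n := Nat.pow_le_pow_right (by omega) (by omega)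
      _ ≤ a ^ n := Nat.pow_le_pow_left ha n
  · have h1 : L * (q + 1) ≤ N / 2 := by
      have h2 : 2 ≤ Δ := by omega
      have h3 : L * (q + 1) * 2 ≤ L * (q + 1) * Δ := Nat.mul_le_mul_left _ h2
      omega
    have h4 := hN0 N (by omega)
    calc (Dg.card + 1) * (N ^ k + k) ≤ 2 ^ (N / 2) * (N ^ k + k) :=
          Nat.mul_le_mul_right _ (hDgcard.trans (Nat.pow_le_pow_right (by omega) h1))
      _ < 2 ^ (N / 2) * 2 ^ (N / 2) := Nat.mul_lt_mul_of_pos_left h4 (by positivity)
      _ = 2 ^ (N / 2 + N / 2) := by rw [pow_add]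
      _ ≤ 2 ^ N := Nat.pow_le_pow_right (by omega) (by omega)

end Pool.Agent.H10.RQ
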