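import Pool.Agent.H10.RQ.StageL
import Pool.Agent.H10.RQ.Sizes
import Pool.Agent.H10.RQ.Enc

/-!
# RQ Asm: the construction of the oracle
-/

set_option autoImplicit false

namespace Pool.Agent.H10.RQ

open Finset

/-- tasks and requirements -/
structure Ctx where
  /-- tasks: computations to be coded -/
  ι : Type
  idx : ι → ℕ
  idx_inj : Function.Injective idx
  al : ι → ℕ
  ex : ι → ℕ
  ex_pos : ∀ j, 1 ≤ ex j
  tf : ι → ℕ → ℕ
  acc : (j : ι) → List (Fin (al j)) → Set W → Prop
  acc_use : ∀ j v, HasUse (acc j v) (tf j v.length ^ ex j + ex j)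
  𝒯 : Set (ℕ → ℕ)
  cov : ∀ j, Covered 𝒯 (tf j)
  /-- requirements -/
  ρ : Type
  rq : ℕ → Option ρ
  rq_surj : ∀ r, ∃ s, rq s = some r
  a : ρ → ℕ
  a_two : ∀ r, 2 ≤ a r
  e : ρ → ℕ → ℕ
  e_id : ∀ r n, n ≤ e r n
  uncov : ∀ r, ¬ Covered 𝒯 (e r)
  k : ρ → ℕ
  k_pos : ∀ r, 1 ≤ k r
  fam : ρ → ℕ
  fam_e : ∀ r r', fam r = fam r' → e r = e r'
  D : (r : ρ) → List (Fin (a r)) → Set W → Prop
  D_use : ∀ r w, HasUse (D r w) (e r w.length ^ k r + k r)

namespace Ctx

variable (c : Ctx)

/-- pairs (task, word) -/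
abbrev P : Type := Σ j : c.ι, List (Fin (c.al j))

/-- time bound of a pair -/
def T (p : c.P) : ℕ := c.tf p.1 p.2.length ^ c.ex p.1 + c.ex p.1

theorem finite_J (s : ℕ) : {j : c.ι | c.idx j ≤ s}.Finite :=
  Set.Finite.preimage c.idx_inj.injOn (Set.finite_Iic s)

/-- the tasks of index `≤ s` -/
noncomputable def J (s : ℕ) : Finset c.ι := (c.finite_J s).toFinset

theorem mem_J {s : ℕ} {j : c.ι} : j ∈ c.J s ↔ c.idx j ≤ s := by
  unfold J
  rw [Set.Finite.mem_toFinset]
  rfl

/-- the properties of the length of the test words -/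
def Good (s : ℕ) (r : c.ρ) (b n : ℕ) : Prop :=
  b ≤ n ∧ 2 ≤ c.e r n ∧ c.e r n ^ c.k r + c.k r < c.e r n ^ 2 ^ (c.k r + 1) ∧
    ∃ Dg : Finset c.P,
      (∀ p : c.P, p ∈ Dg ↔ c.idx p.1 ≤ s ∧ c.e r n ≤ c.T p ∧ c.T p ≤ c.e r n ^ c.k r + c.k r) ∧
      (Dg.card + 1) ^ (c.k r + 1) ≤ c.a r ^ n ∧
      (Dg.card + 1) * (c.e r n ^ c.k r + c.k r) < 2 ^ c.e r n

theorem exists_good (s : ℕ) (r : c.ρ) (b : ℕ) : ∃ n, c.Good s r b n := by
  obtain ⟨n, h1, h2, h3, Dg, h4, h5, h6⟩ := sizes c.al c.ex c.tf (c.J s) (fun j _ => c.cov j)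
    c.ex_pos (c.e_id r) (c.uncov r) (c.a r) (c.k r) b (c.a_two r) (c.k_pos r)
  refine ⟨n, h1, h2, h3, Dg, fun p => ?_, h5, h6⟩
  rw [h4 p, c.mem_J]
  rfl

/-- the length of the test words (first part) chosen above `b` -/
noncomputable def par (s : ℕ) (r : c.ρ) (b : ℕ) : ℕ := (c.exists_good s r b).choose

theorem par_spec (s : ℕ) (r : c.ρ) (b : ℕ) : c.Good s r b (c.par s r b) :=
  (c.exists_good s r b).choose_spec

/-- the next level bound -/
noncomputable def nxt (s b : ℕ) (r : c.ρ) : ℕ :=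
  b + (c.e r (c.par s r b) ^ c.k r + c.k r) + c.fam r + c.par s r b * (c.a r + 1) +
    c.e r (c.par s r b) + 10

/-- the level bounds -/
noncomputable def Bd : ℕ → ℕ
  | 0 => 0
  | s + 1 => (c.rq s).elim (Bd s + 1) (c.nxt s (Bd s))

theorem Bd_succ_some {s : ℕ} {r : c.ρ} (h : c.rq s = some r) :
    c.Bd (s + 1) = c.nxt s (c.Bd s) r := by
  simp [Bd, h]

theorem Bd_succ (s : ℕ) : c.Bd s ≤ c.Bd (s + 1) := by
  rcases h : c.rq s with _ | r
  · simp [Bd, h]
  · rw [c.Bd_succ_some h]
    unfold nxt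
    omega

theorem Bd_mono : Monotone c.Bd := monotone_nat_of_le_succ c.Bd_succ

/-- the length of the padding of the coding words -/
noncomputable def lam (j : c.ι) (n : ℕ) : ℕ :=
  (c.tf j n ^ c.ex j + c.ex j + 1) ^ 2 + c.Bd (c.idx j)

/-- the coding words -/
noncomputable def cw (p : c.P) (b : Bool) : W :=
  pre (c.idx p.1) false ++ (enc (p.2.map (fun x => x.val)) ++
    b :: List.replicate (c.lam p.1 p.2.length) true)

theorem cw_inj (p : c.P) (b : Bool) (p' : c.P) (b' : Bool) (h : c.cw p b = c.cw p' b') :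
    p = p' ∧ b = b' := by
  obtain ⟨j, v⟩ := p
  obtain ⟨j', v'⟩ := p'
  unfold cw at h
  obtain ⟨h1, -, h2⟩ := pre_inj h
  have h3 : j = j' := c.idx_inj h1
  subst h3
  obtain ⟨h4, h5⟩ := enc_inj h2
  have h6 : v = v' := map_val_inj h4
  subst h6
  simp only [List.cons.injEq] at h5
  exact ⟨rfl, h5.1⟩

theorem cw_length (p : c.P) (b : Bool) :
    (c.T p + 1) ^ 2 + c.Bd (c.idx p.1) ≤ (c.cw p b).length := by
  unfold cw lam T
  simp only [List.length_append, List.length_cons, List.length_replicate]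
  omega

/-- the system of coded computations -/
noncomputable def S : Sys c.P where
  T := c.T
  acc := fun p => c.acc p.1 p.2
  use := fun p => c.acc_use p.1 p.2
  cw := c.cw
  cw_inj := c.cw_inj
  sq_le := fun p b => (Nat.le_add_right _ _).trans (c.cw_length p b)

/-- the test words -/
def tw (r : c.ρ) (w : List (Fin (c.a r))) (y : W) : W :=
  pre (c.fam r) true ++ (enc (w.map (fun x => x.val)) ++ y)

theorem tw_inj {r : c.ρ} {w w' : List (Fin (c.a r))} {y y' : W}
    (h : c.tw r w y = c.tw r w' y') : w = w' ∧ y = y' := by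
  unfold tw at h
  obtain ⟨-, -, h2⟩ := pre_inj h
  obtain ⟨h4, h5⟩ := enc_inj h2
  exact ⟨map_val_inj h4, h5⟩

theorem tw_length_gt (r : c.ρ) (w : List (Fin (c.a r))) (y : W) :
    y.length < (c.tw r w y).length := by
  unfold tw
  simp only [List.length_append, pre_length]
  omega

theorem tw_length_le (r : c.ρ) (w : List (Fin (c.a r))) (y : W) :
    (c.tw r w y).length ≤ c.fam r + 2 + (w.length * (c.a r + 1) + 1) + y.length := by
  unfold tw
  have h1 := enc_length_le (a := c.a r) (w.map (fun x => x.val)) (by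
    intro x hx
    rw [List.mem_map] at hx
    obtain ⟨y, -, rfl⟩ := hx
    exact y.isLt)
  simp only [List.length_map] at h1
  simp only [List.length_append, pre_length]
  omega

/-- the words of length `n` over `Fin a` -/
def wd (a n : ℕ) (i : Fin (a ^ n)) : List (Fin a) := List.ofFn (finFunctionFinEquiv.symm i)

theorem wd_length (a n : ℕ) (i : Fin (a ^ n)) : (wd a n i).length = n := by
  simp [wd]

theorem wd_inj {a n : ℕ} {i i' : Fin (a ^ n)} (h : wd a n i = wd a n i') : i = i' :=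
  finFunctionFinEquiv.symm.injective (List.ofFn_injective h)

/-- one stage -/
theorem one_stage (s : ℕ) (X0 : Set W) :
    ∃ U : Set W, (∀ x ∈ U, ∃ r, c.rq s = some r ∧ ∃ (w : List (Fin (c.a r))) (y : W),
        w.length = c.par s r (c.Bd s) ∧ y.length = c.e r (c.par s r (c.Bd s)) ∧
        x = c.tw r w y) ∧
      ∀ r, c.rq s = some r → ∃ w : List (Fin (c.a r)), w.length = c.par s r (c.Bd s) ∧
        ¬ (c.D r w (orc c.S (X0 ∪ U)) ↔
          ∀ y : W, y.length = c.e r (c.par s r (c.Bd s)) → c.tw r w y ∉ U) := by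
  rcases h : c.rq s with _ | r
  · exact ⟨∅, by simp, by simp⟩
  · obtain ⟨h1, h2, h3, Dg, h4, h5, h6⟩ := c.par_spec s r (c.Bd s)
    set n := c.par s r (c.Bd s) with hn
    have hBd : c.e r n ^ c.k r + c.k r < c.Bd (s + 1) := by
      rw [c.Bd_succ_some h]
      unfold nxt
      rw [← hn]
      omega
    obtain ⟨U, hU1, i, hU2⟩ := stage c.S X0 (c.e r n) (c.e r n ^ c.k r + c.k r) (c.k r + 1)
      (c.a r ^ n) (fun i y => c.tw r (wd (c.a r) n i) y)
      (fun i O => c.D r (wd (c.a r) n i) O) Dg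
      (fun i y i' y' _ _ he => by
        obtain ⟨e1, e2⟩ := c.tw_inj he
        exact ⟨wd_inj e1, e2⟩)
      (fun i y hy => by
        have := c.tw_length_gt r (wd (c.a r) n i) y
        omega)
      (fun i => by
        have := c.D_use r (wd (c.a r) n i)
        rw [wd_length] at this
        exact this)
      h2
      (fun p b hp1 hp2 => by
        rw [h4]
        have hl := c.cw_length p b
        have hT : c.S.T p = c.T p := rfl
        have hcw : c.S.cw p b = c.cw p b := rfl
        rw [hT] at hp1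
        rw [hcw] at hp2
        refine ⟨?_, hp1, ?_⟩
        · by_contra hcon
          have := c.Bd_mono (show s + 1 ≤ c.idx p.1 by omega)
          have h0 : 0 ≤ (c.T p + 1) ^ 2 := Nat.zero_le _
          omega
        · have h0 : c.T p ≤ (c.T p + 1) ^ 2 := by nlinarith
          omega)
      (fun p hp => ((h4 p).mp hp).2)
      h3 h5 h6
    refine ⟨U, ?_, ?_⟩
    · intro x hx
      obtain ⟨i, y, hy, rfl⟩ := hU1 x hx
      exact ⟨r, rfl, wd (c.a r) n i, y, wd_length _ _ _, hy, rfl⟩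
    · intro r' hr'
      rw [Option.some.injEq] at hr'
      subst hr'
      exact ⟨wd (c.a r) n i, wd_length _ _ _, hU2⟩

/-- the test words put in at stage `s` -/
noncomputable def U (s : ℕ) (X0 : Set W) : Set W := (c.one_stage s X0).choose

/-- the test words put in before stage `s` -/
noncomputable def XX : ℕ → Set W
  | 0 => ∅
  | s + 1 => XX s ∪ c.U s (XX s)

/-- all test words -/
def X : Set W := {x | ∃ s, x ∈ c.XX s}

/-- the oracle -/
noncomputable def O : Set W := orc c.S c.X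

theorem mem_U {s : ℕ} {X0 : Set W} {x : W} (hx : x ∈ c.U s X0) :
    ∃ r, c.rq s = some r ∧ ∃ (w : List (Fin (c.a r))) (y : W),
        w.length = c.par s r (c.Bd s) ∧ y.length = c.e r (c.par s r (c.Bd s)) ∧
        x = c.tw r w y :=
  (c.one_stage s X0).choose_spec.1 x hx

theorem U_length {s : ℕ} {X0 : Set W} {x : W} (hx : x ∈ c.U s X0) :
    c.Bd s ≤ x.length ∧ x.length < c.Bd (s + 1) := by
  obtain ⟨r, hr, w, y, h1, h2, rfl⟩ := c.mem_U hx
  have h3 := c.tw_length_gt r w y
  have h4 := c.tw_length_le r w y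
  have h5 := (c.par_spec s r (c.Bd s)).1
  have h6 := c.e_id r (c.par s r (c.Bd s))
  constructor
  · omega
  · rw [c.Bd_succ_some hr]
    unfold nxt
    rw [h1] at h4
    omega

theorem XX_length {s : ℕ} {x : W} (hx : x ∈ c.XX s) : x.length < c.Bd s := by
  induction s with
  | zero => exact absurd hx (by simp [XX])
  | succ s ih =>
    rcases hx with hx | hx
    · exact (ih hx).trans_le (c.Bd_succ s)
    · exact (c.U_length hx).2

theorem XX_mono {s s' : ℕ} (h : s ≤ s') : c.XX s ⊆ c.XX s' := by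
  induction s', h using Nat.le_induction with
  | base => exact subset_rfl
  | succ m hm ih => exact ih.trans Set.subset_union_left

theorem mem_XX_of_lt {s s' : ℕ} {x : W} (hx : x ∈ c.XX s') (hl : x.length < c.Bd s) :
    x ∈ c.XX s := by
  induction s' with
  | zero => exact absurd hx (by simp [XX])
  | succ m ih =>
    rcases hx with hx | hx
    · exact ih hx
    · have h1 := (c.U_length hx).1
      have h2 : m < s := by
        by_contra hcon
        have := c.Bd_mono (show s ≤ m by omega)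
        omega
      exact c.XX_mono (show m + 1 ≤ s by omega) (Or.inr hx)

theorem mem_X_iff {s : ℕ} {x : W} (hl : x.length < c.Bd s) : x ∈ c.X ↔ x ∈ c.XX s :=
  ⟨fun ⟨_, h⟩ => c.mem_XX_of_lt h hl, fun h => ⟨s, h⟩⟩

theorem mem_X {x : W} (hx : x ∈ c.X) : ∃ (r : c.ρ) (w : List (Fin (c.a r))) (y : W),
    y.length = c.e r w.length ∧ x = c.tw r w y := by
  obtain ⟨s, hs⟩ := hx
  induction s with
  | zero => exact absurd hs (by simp [XX])
  | succ s ih =>
    rcases hs with hs | hs
    · exact ih hs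
    · obtain ⟨r, -, w, y, h1, h2, h3⟩ := c.mem_U hs
      exact ⟨r, w, y, by rw [h1, h2], h3⟩

theorem tw_ne_cw (r : c.ρ) (w : List (Fin (c.a r))) (y : W) (p : c.P) (b : Bool) :
    c.tw r w y ≠ c.cw p b := by
  intro h
  unfold tw cw at h
  obtain ⟨-, h1, -⟩ := pre_inj h
  exact absurd h1 (by decide)

/-- (i) the words of the oracle with the prefix of a pair -/
theorem coding (p : c.P) (z : W) :
    pre (c.idx p.1) false ++ (enc (p.2.map (fun x => x.val)) ++ z) ∈ c.O ↔
      ∃ b : Bool, z = b :: List.replicate (c.lam p.1 p.2.length) true ∧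
        (b = true ↔ c.acc p.1 p.2 c.O) := by
  unfold O
  rw [mem_orc]
  constructor
  · rintro (h | ⟨p', b, h1, h2⟩)
    · obtain ⟨r, w, y, -, h3⟩ := c.mem_X h
      unfold tw at h3
      obtain ⟨-, h4, -⟩ := pre_inj h3
      exact absurd h4 (by decide)
    · have h1' : pre (c.idx p.1) false ++ (enc (p.2.map (fun x => x.val)) ++ z) = c.cw p' b := h1
      obtain ⟨j, v⟩ := p
      obtain ⟨j', v'⟩ := p'
      unfold cw at h1'
      obtain ⟨e1, -, e2⟩ := pre_inj h1'
      have e3 : j = j' := c.idx_inj e1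
      subst e3
      obtain ⟨e4, e5⟩ := enc_inj e2
      have e6 : v = v' := map_val_inj e4
      subst e6
      exact ⟨b, e5, h2⟩
  · rintro ⟨b, rfl, h⟩
    exact Or.inr ⟨p, b, rfl, h⟩

/-- (ii) the test words of the oracle -/
theorem test_length (r : c.ρ) (l : List ℕ) (z : W)
    (h : pre (c.fam r) true ++ (enc l ++ z) ∈ c.O) : z.length = c.e r l.length := by
  unfold O at h
  rw [mem_orc] at h
  rcases h with h | ⟨p', b, h1, h2⟩
  · obtain ⟨r', w, y, h3, h4⟩ := c.mem_X h
    unfold tw at h4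
    obtain ⟨e1, -, e2⟩ := pre_inj h4
    obtain ⟨e3, e4⟩ := enc_inj e2
    rw [e4, h3, c.fam_e r r' e1, e3, List.length_map]
  · have h1' : pre (c.fam r) true ++ (enc l ++ z) = c.cw p' b := h1
    unfold cw at h1'
    obtain ⟨-, e1, -⟩ := pre_inj h1'
    exact absurd e1 (by decide)

/-- (iii) the requirements are met -/
theorem requirement (r : c.ρ) : ∃ w : List (Fin (c.a r)),
    ¬ (c.D r w c.O ↔ ∀ z : W, c.tw r w z ∉ c.O) := by
  obtain ⟨s, hs⟩ := c.rq_surj r
  obtain ⟨w, hw, hne⟩ := (c.one_stage s (c.XX s)).choose_spec.2 r hs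
  refine ⟨w, fun hcon => hne ?_⟩
  have hK : c.e r w.length ^ c.k r + c.k r < c.Bd (s + 1) := by
    rw [c.Bd_succ_some hs, hw]
    unfold nxt
    omega
  have hagree : ∀ x : W, x.length < c.Bd (s + 1) →
      (x ∈ orc c.S c.X ↔ x ∈ orc c.S (c.XX (s + 1))) :=
    orc_congr c.S fun x hx => c.mem_X_iff hx
  have hXX : c.XX s ∪ (c.one_stage s (c.XX s)).choose = c.XX (s + 1) := rfl
  rw [hXX]
  have h1 : c.D r w (orc c.S (c.XX (s + 1))) ↔ c.D r w c.O :=
    (c.D_use r w).congr fun x hx => (hagree x (by omega)).symm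
  rw [h1, hcon]
  have hUdef : (c.one_stage s (c.XX s)).choose = c.U s (c.XX s) := rfl
  rw [hUdef]
  constructor
  · intro h y hy hyU
    apply h y
    unfold O
    rw [mem_orc]
    exact Or.inl ⟨s + 1, Or.inr hyU⟩
  · intro h z hz
    have hz' := c.test_length r (w.map (fun x : Fin (c.a r) => x.val)) z hz
    rw [List.length_map] at hz'
    have hzl : z.length = c.e r (c.par s r (c.Bd s)) := by rw [hz', hw]
    apply h z hzl
    have hz2 : c.tw r w z ∈ orc c.S c.X := hz
    rw [mem_orc] at hz2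
    rcases hz2 with h2 | ⟨p, b, h2, -⟩
    · have hlt : (c.tw r w z).length < c.Bd (s + 1) := by
        have h4 := c.tw_length_le r w z
        rw [c.Bd_succ_some hs]
        unfold nxt
        rw [hw] at h4
        omega
      rw [c.mem_X_iff hlt] at h2
      rcases h2 with h2 | h2
      · exfalso
        have h3 := c.XX_length h2
        have h4 := c.tw_length_gt r w z
        have h5 := (c.par_spec s r (c.Bd s)).1
        have h6 := c.e_id r (c.par s r (c.Bd s))
        omega
      · exact h2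
    · exact absurd h2 (c.tw_ne_cw r w z p b)

end Ctx

end Pool.Agent.H10.RQ
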