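import Pool.Agent.H10.RQ.GM

/-!
# RQ BM: the combination machine (definitions)

`P : Par X Z`: a finite set `I` of moves; the move `i` reads the word `α i` of the input and writes
`β i` on the input tape of `M`, `γ i` ones on the input tape of `E`, `γ' i` ones on the input tape of
`E'`. The machine `bm P`:
* phase `tr`: guesses moves; at the blank after the input it may stop;
* phase `rw`: the three heads go back to cell `0`;
* phase `runA`: simulates `E'`, writes in every step a mark on each of the `k` clock tapes;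
* phase `runB`: simulates `E`; in every step the odometer (the `k` heads on the marked part of the
  clock tapes, the directions `d` are part of the state, `true` = to the right) makes one tick; if no
  tick is possible (all clock heads on blanks) the machine is stuck;
* phase `runC`: simulates `M` (with its queries).
The change from `runA` to `runB` (from `runB` to `runC`) is possible in the accepting states of `E'`
(of `E`) and takes one step.
-/

set_option autoImplicit false

namespace Pool.Agent.H10.RQ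

open Pool.Agent.Lead.NTM

structure Par (X Z : Type) where
  I : Type
  finI : Finite I
  α : I → List X
  β : I → List Z
  γ : I → ℕ
  γ' : I → ℕ
  c : ℕ
  hα : ∀ i, (α i).length ≤ c
  hβ : ∀ i, (β i).length ≤ c
  hγ : ∀ i, γ i ≤ c
  hγ' : ∀ i, γ' i ≤ c
  E : Machine Unit
  E' : Machine Unit
  M : OMachine Z
  k : ℕ

namespace Par

variable {X Z : Type} (P : Par X Z)

/-- the tapes -/
inductive TI
  | inp
  | e (i : Fin (P.E.k + 1))
  | e' (i : Fin (P.E'.k + 1))
  | m (i : Fin (P.M.k + 1))
  | c (i : Fin P.k)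

/-- the alphabets of the tapes -/
def Γ : P.TI → Type
  | .inp => X
  | .e _ => Unit ⊕ P.E.G
  | .e' _ => Unit ⊕ P.E'.G
  | .m _ => Z ⊕ P.M.G
  | .c _ => Unit

/-- the words still to be read and written in phase `tr` -/
abbrev TrS : Type := {p : List X × List Z × ℕ × ℕ //
  p.1.length ≤ P.c ∧ p.2.1.length ≤ P.c ∧ p.2.2.1 ≤ P.c ∧ p.2.2.2 ≤ P.c}

/-- the states -/
inductive St
  | tr (p : P.TrS)
  | rw
  | runA (q : P.E'.Q)
  | runB (q : P.E.Q) (d : Fin P.k → Bool)
  | runC (q : P.M.Q)

/-- scanned symbols -/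
abbrev Sym : Type := (i : P.TI) → Option (P.Γ i)

/-- a function on the tapes given by its five parts -/
def five {F : P.TI → Type} (a : F .inp) (b : ∀ i, F (.e i)) (b' : ∀ i, F (.e' i))
    (m : ∀ i, F (.m i)) (c : ∀ i, F (.c i)) : ∀ i, F i
  | .inp => a
  | .e i => b i
  | .e' i => b' i
  | .m i => m i
  | .c i => c i

open Classical in
/-- move one head -/
noncomputable def mv1 (j : P.TI) (d : Move) : P.TI → Move := fun i => if i = j then d else .stay

/-- the move in a direction -/
def dirMove : Bool → Move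
  | true => .right
  | false => .left

/-- the move of a head in phase `rw`: to the left until a blank is scanned -/
def rwMove {α : Type} : Option α → Move
  | none => .stay
  | some _ => .left

/-- the state `tr` after the choice of the move `i` -/
def trI (i : P.I) : P.TrS := ⟨(P.α i, P.β i, P.γ i, P.γ' i), P.hα i, P.hβ i, P.hγ i, P.hγ' i⟩

open Classical in
/-- transitions -/
inductive Tr : P.St → P.Sym → P.St × P.Sym × (P.TI → Move) × Option Bool → Prop
  | read (x : P.Sym) (x0 : X) (a : List X) (b : List Z) (g g' : ℕ) (h h')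
      (hx : x .inp = some x0) :
      Tr (.tr ⟨(x0 :: a, b, g, g'), h⟩) x
        (.tr ⟨(a, b, g, g'), h'⟩, x, P.mv1 .inp .right, none)
  | wm (x : P.Sym) (z : Z) (b : List Z) (g g' : ℕ) (h h') :
      Tr (.tr ⟨([], z :: b, g, g'), h⟩) x
        (.tr ⟨([], b, g, g'), h'⟩, Function.update x (.m 0) (some (Sum.inl z)),
          P.mv1 (.m 0) .right, none)
  | we (x : P.Sym) (g g' : ℕ) (h h') :
      Tr (.tr ⟨([], [], g + 1, g'), h⟩) x
        (.tr ⟨([], [], g, g'), h'⟩, Function.update x (.e 0) (some (Sum.inl ())),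
          P.mv1 (.e 0) .right, none)
  | we' (x : P.Sym) (g' : ℕ) (h h') :
      Tr (.tr ⟨([], [], 0, g' + 1), h⟩) x
        (.tr ⟨([], [], 0, g'), h'⟩, Function.update x (.e' 0) (some (Sum.inl ())),
          P.mv1 (.e' 0) .right, none)
  | choose (x : P.Sym) (i : P.I) (h) :
      Tr (.tr ⟨([], [], 0, 0), h⟩) x (.tr (P.trI i), x, fun _ => .stay, none)
  | stop (x : P.Sym) (h) (hx : x .inp = none) :
      Tr (.tr ⟨([], [], 0, 0), h⟩) x
        (.rw, x, P.five .stay (fun i => if i = 0 then .left else .stay)
          (fun i => if i = 0 then .left else .stay) (fun i => if i = 0 then .left else .stay)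
          (fun _ => .stay), none)
  | back (x : P.Sym) (hx : ¬ (x (.e 0) = none ∧ x (.e' 0) = none ∧ x (.m 0) = none)) :
      Tr .rw x (.rw, x, P.five .stay (fun i => if i = 0 then rwMove (x (.e 0)) else .stay)
          (fun i => if i = 0 then rwMove (x (.e' 0)) else .stay)
          (fun i => if i = 0 then rwMove (x (.m 0)) else .stay) (fun _ => .stay), none)
  | fwd (x : P.Sym) (hx : x (.e 0) = none ∧ x (.e' 0) = none ∧ x (.m 0) = none) :
      Tr .rw x (.runA P.E'.start, x, P.five .stay (fun i => if i = 0 then .right else .stay)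
          (fun i => if i = 0 then .right else .stay) (fun i => if i = 0 then .right else .stay)
          (fun _ => .stay), none)
  | runA (x : P.Sym) (q : P.E'.Q) (r) (hr : r ∈ P.E'.δ q (fun i => x (.e' i))) :
      Tr (.runA q) x (.runA r.1,
        P.five (F := fun i => Option (P.Γ i)) (x .inp) (fun i => x (.e i)) r.2.1
          (fun i => x (.m i)) (fun _ => some ()),
        P.five .stay (fun _ => .stay) r.2.2 (fun _ => .stay) (fun _ => .right), none)
  | toB (x : P.Sym) (q : P.E'.Q) (hq : q ∈ P.E'.accepting) :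
      Tr (.runA q) x (.runB P.E.start (fun _ => false), x,
        P.five .stay (fun _ => .stay) (fun _ => .stay) (fun _ => .stay) (fun _ => .left), none)
  | runB (x : P.Sym) (q : P.E.Q) (d : Fin P.k → Bool) (r)
      (hr : r ∈ P.E.δ q (fun i => x (.e i))) (i : Fin P.k) (hi : x (.c i) ≠ none)
      (hj : ∀ j < i, x (.c j) = none) :
      Tr (.runB q d) x (.runB r.1 (fun j => if j < i then !(d j) else d j),
        P.five (F := fun i => Option (P.Γ i)) (x .inp) r.2.1 (fun i => x (.e' i))
          (fun i => x (.m i)) (fun i => x (.c i)),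
        P.five .stay r.2.2 (fun _ => .stay) (fun _ => .stay)
          (fun j => if j < i then dirMove (!(d j)) else if j = i then dirMove (d j) else .stay),
        none)
  | toC (x : P.Sym) (q : P.E.Q) (d : Fin P.k → Bool) (hq : q ∈ P.E.accepting) :
      Tr (.runB q d) x (.runC P.M.start, x, fun _ => .stay, none)
  | runC (x : P.Sym) (q : P.M.Q) (r) (hr : r ∈ P.M.δ q (fun i => x (.m i))) :
      Tr (.runC q) x (.runC r.1,
        P.five (F := fun i => Option (P.Γ i)) (x .inp) (fun i => x (.e i)) (fun i => x (.e' i))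
          r.2.1 (fun i => x (.c i)),
        P.five .stay (fun _ => .stay) (fun _ => .stay) r.2.2.1 (fun _ => .stay), r.2.2.2)

theorem finite_TI : Finite P.TI := by
  let f : P.TI → Unit ⊕ Fin (P.E.k + 1) ⊕ Fin (P.E'.k + 1) ⊕ Fin (P.M.k + 1) ⊕ Fin P.k :=
    fun i => match i with
      | .inp => .inl ()
      | .e i => .inr (.inl i)
      | .e' i => .inr (.inr (.inl i))
      | .m i => .inr (.inr (.inr (.inl i)))
      | .c i => .inr (.inr (.inr (.inr i)))
  refine Finite.of_injective f ?_
  intro i j h
  cases i <;> cases j <;> simp_all [f]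

theorem finite_Γ [Finite X] [Finite Z] (i : P.TI) : Finite (P.Γ i) := by
  have := P.E.finG
  have := P.E'.finG
  have := P.M.finG
  cases i
  · exact (inferInstance : Finite X)
  · exact (inferInstance : Finite (Unit ⊕ P.E.G))
  · exact (inferInstance : Finite (Unit ⊕ P.E'.G))
  · exact (inferInstance : Finite (Z ⊕ P.M.G))
  · exact (inferInstance : Finite Unit)

theorem finite_TrS [Finite X] [Finite Z] : Finite P.TrS := by
  have h1 : Finite {l : List X // l.length < P.c + 1} :=
    (List.finite_length_lt X (P.c + 1)).to_subtype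
  have h2 : Finite {l : List Z // l.length < P.c + 1} :=
    (List.finite_length_lt Z (P.c + 1)).to_subtype
  let f : P.TrS → {l : List X // l.length < P.c + 1} × {l : List Z // l.length < P.c + 1} ×
      Fin (P.c + 1) × Fin (P.c + 1) :=
    fun p => (⟨p.1.1, Nat.lt_succ_of_le p.2.1⟩, ⟨p.1.2.1, Nat.lt_succ_of_le p.2.2.1⟩,
      ⟨p.1.2.2.1, Nat.lt_succ_of_le p.2.2.2.1⟩, ⟨p.1.2.2.2, Nat.lt_succ_of_le p.2.2.2.2⟩)
  refine Finite.of_injective f ?_
  rintro ⟨⟨a, b, g, g'⟩, h⟩ ⟨⟨a', b', h', h''⟩, hh⟩ he
  simp only [f, Prod.mk.injEq, Subtype.mk.injEq, Fin.mk.injEq] at he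
  obtain ⟨h1, h2, h3, h4⟩ := he
  subst h1 h2 h3 h4
  rfl

theorem finite_St [Finite X] [Finite Z] : Finite P.St := by
  have := P.finite_TrS
  have := P.E.finQ
  have := P.E'.finQ
  have := P.M.finQ
  let f : P.St → P.TrS ⊕ Unit ⊕ P.E'.Q ⊕ (P.E.Q × (Fin P.k → Bool)) ⊕ P.M.Q :=
    fun i => match i with
      | .tr p => .inl p
      | .rw => .inr (.inl ())
      | .runA q => .inr (.inr (.inl q))
      | .runB q d => .inr (.inr (.inr (.inl (q, d))))
      | .runC q => .inr (.inr (.inr (.inr q)))
  refine Finite.of_injective f ?_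
  intro i j h
  cases i <;> cases j <;> simp_all [f]

/-- the combination machine -/
noncomputable def bm [Finite X] [Finite Z] : GM X where
  ι := P.TI
  finι := P.finite_TI
  inp := .inp
  Γ := P.Γ
  finΓ := P.finite_Γ
  lt := fun x => x
  Q := P.St
  finQ := P.finite_St
  start := .tr ⟨([], [], 0, 0), by simp⟩
  acc := {q | ∃ q' ∈ P.M.accepting, q = .runC q'}
  δ := fun q x => {r | P.Tr q x r}
  ask := {r | ∃ r' ∈ P.M.ask, r = (.runC r'.1, .runC r'.2.1, .runC r'.2.2)}

/-- a configuration given by its parts -/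
noncomputable def cfg [Finite X] [Finite Z] (st : P.St) (a : ℤ → Option X) (pa : ℤ)
    (e : Fin (P.E.k + 1) → ℤ → Option (Unit ⊕ P.E.G)) (pe : Fin (P.E.k + 1) → ℤ)
    (e' : Fin (P.E'.k + 1) → ℤ → Option (Unit ⊕ P.E'.G)) (pe' : Fin (P.E'.k + 1) → ℤ)
    (m : Fin (P.M.k + 1) → ℤ → Option (Z ⊕ P.M.G)) (pm : Fin (P.M.k + 1) → ℤ)
    (c : Fin P.k → ℤ → Option Unit) (pc : Fin P.k → ℤ) (qu : List Bool) : GC P.bm where
  state := st
  tape := P.five (F := fun i => ℤ → Option (P.Γ i)) a e e' m c
  pos := P.five pa pe pe' pm pc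
  query := qu

/-- the clock tapes after `τ` marks -/
def marks (τ : ℕ) : Fin P.k → ℤ → Option Unit :=
  fun _ z => if 0 ≤ z ∧ z < τ then some () else none

/-- the number of moves of a clock head until it scans a blank (`false`: to the left) -/
def rem (τ : ℕ) (d : Bool) (p : ℤ) : ℤ := if d = true then τ - p else p + 1

/-- the position of a clock head is in the range -/
def okPos (τ : ℕ) (d : Bool) (p : ℤ) : Prop := 0 ≤ rem τ d p ∧ rem τ d p ≤ τ

/-- the number of ticks left -/
def ticks (τ : ℕ) (d : Fin P.k → Bool) (p : Fin P.k → ℤ) : ℤ :=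
  ∑ i : Fin P.k, rem τ (d i) (p i) * ((τ : ℤ) + 1) ^ (i : ℕ)

end Par

end Pool.Agent.H10.RQ
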