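import Pool.Agent.H10.RQ.BMB

/-!
# RQ BMA: phase A of the combination machine

After `τ` steps of `E'` the clock tapes are `marks τ` and all clock heads are at `τ`. Induction on `s`
(generalise over `ce' τ` and the other parts). In the state `.runA q` the transitions are `Tr.runA` (an
action of `E'` on the tapes `e'`; on the clock tapes a mark is written at `τ` and the heads move to
`τ + 1`: `Function.update (marks τ i) τ (some ()) = marks (τ + 1) i`) and `Tr.toB`
(`q ∈ E'.accepting`), which leads to `.runB E.start (fun _ => false)` with all clock heads at `τ - 1`: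
`phaseB` with `okPos` (`rem = τ`) and `ticks_start`:
`sE ≤ (τ+1)^k - 1 ↔ sE < (τ+1)^k`.
-/

set_option autoImplicit false

namespace Pool.Agent.H10.RQ

open Pool.Agent.Lead.NTM

namespace Par

variable {X Z : Type} (P : Par X Z) [Finite X] [Finite Z]

omit [Finite X] [Finite Z] in
private lemma BMA_marks (τ : ℕ) (i : Fin P.k) :
    Function.update (P.marks τ i) (τ : ℤ) (some ()) = P.marks (τ + 1) i := by
  funext z
  by_cases hz : z = τ
  · subst hz
    rw [Function.update_self]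
    unfold marks
    rw [if_pos]
    constructor
    · positivity
    · push_cast
      omega
  · rw [Function.update_of_ne hz]
    unfold marks
    congr 1
    apply propext
    push_cast
    constructor
    · rintro ⟨h1, h2⟩
      exact ⟨h1, by omega⟩
    · rintro ⟨h1, h2⟩
      exact ⟨h1, by omega⟩

private lemma BMA_cfg_congr {st : P.St} {a a' : ℤ → Option X} {pa pa' : ℤ}
    {e e1 : Fin (P.E.k + 1) → ℤ → Option (Unit ⊕ P.E.G)} {pe pe1 : Fin (P.E.k + 1) → ℤ}
    {e' e1' : Fin (P.E'.k + 1) → ℤ → Option (Unit ⊕ P.E'.G)} {pe' pe1' : Fin (P.E'.k + 1) → ℤ}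
    {m m1 : Fin (P.M.k + 1) → ℤ → Option (Z ⊕ P.M.G)} {pm pm1 : Fin (P.M.k + 1) → ℤ}
    {c c1 : Fin P.k → ℤ → Option Unit} {pc pc1 : Fin P.k → ℤ} {qu qu1 : List Bool}
    (h1 : a = a') (h2 : pa = pa') (h3 : e = e1) (h4 : pe = pe1) (h5 : e' = e1') (h6 : pe' = pe1')
    (h7 : m = m1) (h8 : pm = pm1) (h9 : c = c1) (h10 : pc = pc1) (h11 : qu = qu1) :
    P.cfg st a pa e pe e' pe' m pm c pc qu = P.cfg st a' pa' e1 pe1 e1' pe1' m1 pm1 c1 pc1 qu1 := by
  subst h1 h2 h3 h4 h5 h6 h7 h8 h9 h10 h11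
  rfl

/-- an action of phase `runA` -/
private lemma BMA_app (ce' : Config P.E') (τ : ℕ)
    (a : ℤ → Option X) (pa : ℤ)
    (e : Fin (P.E.k + 1) → ℤ → Option (Unit ⊕ P.E.G)) (pe : Fin (P.E.k + 1) → ℤ)
    (m : Fin (P.M.k + 1) → ℤ → Option (Z ⊕ P.M.G)) (pm : Fin (P.M.k + 1) → ℤ)
    (r : P.E'.Q × (Fin (P.E'.k + 1) → Option (Unit ⊕ P.E'.G)) × (Fin (P.E'.k + 1) → Move)) :
    P.app a pa e pe ce'.tape ce'.pos m pm (P.marks τ) (fun _ => (τ : ℤ)) []
      (.runA r.1, P.five (F := fun i => Option (P.Γ i))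
          (P.rd a pa e pe ce'.tape ce'.pos m pm (P.marks τ) (fun _ => (τ : ℤ)) .inp)
          (fun i => P.rd a pa e pe ce'.tape ce'.pos m pm (P.marks τ) (fun _ => (τ : ℤ)) (.e i))
          r.2.1
          (fun i => P.rd a pa e pe ce'.tape ce'.pos m pm (P.marks τ) (fun _ => (τ : ℤ)) (.m i))
          (fun _ => some ()),
        P.five .stay (fun _ => .stay) r.2.2 (fun _ => .stay) (fun _ => .right), none) =
    P.cfg (.runA r.1) a pa e pe (fun i => Function.update (ce'.tape i) (ce'.pos i) (r.2.1 i))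
      (fun i => ce'.pos i + (r.2.2 i).toInt) m pm (P.marks (τ + 1)) (fun _ => ((τ + 1 : ℕ) : ℤ))
      [] := by
  refine P.BMA_cfg_congr ?_ ?_ ?_ ?_ ?_ ?_ ?_ ?_ ?_ ?_ ?_
  · exact Function.update_eq_self _ _
  · exact add_zero _
  · funext i
    exact Function.update_eq_self _ _
  · funext i
    exact add_zero _
  · rfl
  · rfl
  · funext i
    exact Function.update_eq_self _ _
  · funext i
    exact add_zero _
  · funext i
    exact P.BMA_marks τ i
  · funext i
    push_cast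
    rfl
  · rfl

/-- the change to phase `runB` -/
private lemma BMA_app2 (ce' : Config P.E') (τ : ℕ)
    (a : ℤ → Option X) (pa : ℤ)
    (e : Fin (P.E.k + 1) → ℤ → Option (Unit ⊕ P.E.G)) (pe : Fin (P.E.k + 1) → ℤ)
    (m : Fin (P.M.k + 1) → ℤ → Option (Z ⊕ P.M.G)) (pm : Fin (P.M.k + 1) → ℤ) :
    P.app a pa e pe ce'.tape ce'.pos m pm (P.marks τ) (fun _ => (τ : ℤ)) []
      (.runB P.E.start (fun _ => false),
        P.rd a pa e pe ce'.tape ce'.pos m pm (P.marks τ) (fun _ => (τ : ℤ)),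
        P.five .stay (fun _ => .stay) (fun _ => .stay) (fun _ => .stay) (fun _ => .left), none) =
    P.cfg (.runB P.E.start (fun _ => false)) a pa e pe ce'.tape ce'.pos m pm (P.marks τ)
      (fun _ => (τ : ℤ) - 1) [] := by
  refine P.BMA_cfg_congr ?_ ?_ ?_ ?_ ?_ ?_ ?_ ?_ ?_ ?_ ?_
  · exact Function.update_eq_self _ _
  · exact add_zero _
  · funext i
    exact Function.update_eq_self _ _
  · funext i
    exact add_zero _
  · funext i
    exact Function.update_eq_self _ _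
  · funext i
    exact add_zero _
  · funext i
    exact Function.update_eq_self _ _
  · funext i
    exact add_zero _
  · funext i
    exact Function.update_eq_self _ _
  · rfl
  · rfl

private lemma BMA_step (O : Set (List Bool)) (ce' : Config P.E') (τ : ℕ)
    (a : ℤ → Option X) (pa : ℤ)
    (e : Fin (P.E.k + 1) → ℤ → Option (Unit ⊕ P.E.G)) (pe : Fin (P.E.k + 1) → ℤ)
    (m : Fin (P.M.k + 1) → ℤ → Option (Z ⊕ P.M.G)) (pm : Fin (P.M.k + 1) → ℤ) (d : GC P.bm) :
    GStep O P.bm (P.cfg (.runA ce'.state) a pa e pe ce'.tape ce'.pos m pm (P.marks τ)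
        (fun _ => (τ : ℤ)) []) d ↔
      (∃ c'', Step P.E' ce' c'' ∧ d = P.cfg (.runA c''.state) a pa e pe c''.tape c''.pos m pm
        (P.marks (τ + 1)) (fun _ => ((τ + 1 : ℕ) : ℤ)) []) ∨
      (ce'.state ∈ P.E'.accepting ∧ d = P.cfg (.runB P.E.start (fun _ => false)) a pa e pe
        ce'.tape ce'.pos m pm (P.marks τ) (fun _ => (τ : ℤ) - 1) []) := by
  rw [P.step_iff]
  constructor
  · rintro (⟨r, hr, rfl⟩ | ⟨r, -, h0, -⟩)
    · cases hr with
      | runA _ _ r' hr' =>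
        left
        refine ⟨⟨r'.1, fun i => Function.update (ce'.tape i) (ce'.pos i) (r'.2.1 i),
          fun i => ce'.pos i + (r'.2.2 i).toInt⟩, ⟨r', hr', rfl, rfl, rfl⟩, ?_⟩
        exact P.BMA_app ce' τ a pa e pe m pm r'
      | toB _ _ hq =>
        right
        exact ⟨hq, P.BMA_app2 ce' τ a pa e pe m pm⟩
    · exact absurd h0 (by simp)
  · rintro (⟨c'', ⟨r', hr', h1, h2, h3⟩, rfl⟩ | ⟨hq, rfl⟩)
    · left
      refine ⟨_, Tr.runA (P.rd a pa e pe ce'.tape ce'.pos m pm (P.marks τ) (fun _ => (τ : ℤ)))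
        ce'.state r' hr', ?_⟩
      rw [h1, h2, h3]
      exact (P.BMA_app ce' τ a pa e pe m pm r').symm
    · left
      exact ⟨_, Tr.toB (P.rd a pa e pe ce'.tape ce'.pos m pm (P.marks τ) (fun _ => (τ : ℤ)))
        ce'.state hq, (P.BMA_app2 ce' τ a pa e pe m pm).symm⟩

theorem phaseA (O : Set (List Bool)) (s : ℕ) (ce' : Config P.E') (τ : ℕ)
    (a : ℤ → Option X) (pa : ℤ)
    (e : Fin (P.E.k + 1) → ℤ → Option (Unit ⊕ P.E.G)) (pe : Fin (P.E.k + 1) → ℤ)
    (m : Fin (P.M.k + 1) → ℤ → Option (Z ⊕ P.M.G)) (pm : Fin (P.M.k + 1) → ℤ) :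
    GFrom O P.bm s (P.cfg (.runA ce'.state) a pa e pe ce'.tape ce'.pos m pm (P.marks τ)
        (fun _ => τ) []) ↔
      ∃ sA sE s', PFrom P.E' sA ce' ∧ PFrom P.E sE ⟨P.E.start, e, pe⟩ ∧
        sE < (τ + sA + 1) ^ P.k ∧ s = sA + 1 + (sE + 1 + s') ∧
        OFrom O P.M s' ⟨P.M.start, m, pm, []⟩ := by
  induction s generalizing ce' τ with
  | zero =>
    constructor
    · rintro ⟨q', -, h⟩
      exact absurd (show St.runA ce'.state = St.runC q' from h) (by simp)
    · rintro ⟨sA, sE, s', -, -, -, h, -⟩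
      omega
  | succ s ih =>
    have hB : GFrom O P.bm s (P.cfg (.runB P.E.start (fun _ => false)) a pa e pe
        ce'.tape ce'.pos m pm (P.marks τ) (fun _ => (τ : ℤ) - 1) []) ↔
        ∃ sE s', PFrom P.E sE ⟨P.E.start, e, pe⟩ ∧ sE < (τ + 1) ^ P.k ∧ s = sE + 1 + s' ∧
          OFrom O P.M s' ⟨P.M.start, m, pm, []⟩ := by
      have hok : ∀ i : Fin P.k, okPos τ ((fun _ => false : Fin P.k → Bool) i)
          ((fun _ => (τ : ℤ) - 1 : Fin P.k → ℤ) i) := by
        intro i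
        unfold okPos rem
        simp
      rw [P.phaseB O s ⟨P.E.start, e, pe⟩ (fun _ => false) τ (fun _ => (τ : ℤ) - 1) hok a pa
        ce'.tape ce'.pos m pm]
      rw [P.ticks_start τ]
      have hlt : ∀ sE : ℕ, (sE : ℤ) ≤ ((τ : ℤ) + 1) ^ P.k - 1 ↔ sE < (τ + 1) ^ P.k := by
        intro sE
        rw [Int.le_sub_one_iff]
        exact_mod_cast Iff.rfl
      simp only [hlt]
    constructor
    · rintro ⟨d, hd, hd2⟩
      rw [P.BMA_step] at hd
      rcases hd with ⟨c'', hc, rfl⟩ | ⟨hq, rfl⟩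
      · obtain ⟨sA, sE, s', h1, h2, h3, h4, h5⟩ := (ih c'' (τ + 1)).1 hd2
        refine ⟨sA + 1, sE, s', ⟨c'', hc, h1⟩, h2, ?_, by omega, h5⟩
        have : τ + (sA + 1) + 1 = τ + 1 + sA + 1 := by omega
        rw [this]
        exact h3
      · obtain ⟨sE, s', h1, h2, h3, h4⟩ := hB.1 hd2
        exact ⟨0, sE, s', hq, h1, h2, by omega, h4⟩
    · rintro ⟨sA, sE, s', h1, h2, h3, h4, h5⟩
      cases sA with
      | zero =>
        refine ⟨_, (P.BMA_step O ce' τ a pa e pe m pm _).2 (Or.inr ⟨h1, rfl⟩), ?_⟩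
        exact hB.2 ⟨sE, s', h2, h3, by omega, h5⟩
      | succ sA =>
        obtain ⟨c'', hc, hc2⟩ := h1
        refine ⟨_, (P.BMA_step O ce' τ a pa e pe m pm _).2 (Or.inl ⟨c'', hc, rfl⟩), ?_⟩
        refine (ih c'' (τ + 1)).2 ⟨sA, sE, s', hc2, h2, ?_, by omega, h5⟩
        have : τ + (sA + 1) + 1 = τ + 1 + sA + 1 := by omega
        rw [this] at h3
        exact h3

end Par

end Pool.Agent.H10.RQ
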