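import Pool.Agent.H10.RQ.BMC

/-!
# RQ BMB: phase B of the combination machine (the odometer)

`okPos τ d p`: `0 ≤ rem τ d p ≤ τ`. The cell scanned by a clock head is blank iff `rem = 0`
(`false`/left: `rem = p + 1`, cell `p` is marked iff `0 ≤ p < τ`; `true`/right: `rem = τ - p`).
A tick (`Tr.runB` with the index `i`): `rem` of the head `i` decreases by `1` (its direction is
unchanged, `rem > 0`), for `j < i` the head `j` has `rem = 0`, its direction is flipped and it makes
one step: `rem = τ` afterwards; `j > i` unchanged. So `ticks` decreases by exactly `1`: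
`(τ+1)^i - ∑_{j<i} τ (τ+1)^j = 1`. A tick is possible iff some `rem` is `> 0` iff `ticks > 0`; its index
`i` is then unique (the least `i` with `rem > 0`).
`phaseB` by induction on `s` (generalise over `ce d pc` and the other parts): in the state
`.runB q d` the transitions are `Tr.runB` and `Tr.toC`; the latter needs `q ∈ E.accepting` and leads to
`.runC M.start` (`phaseC`, with the M-configuration `⟨M.start, m, pm, []⟩`). `.runB q d` is not
accepting, so `s = 0` is impossible on the left, and on the right since `s = sE + 1 + s'`.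
On the tapes `c` the action writes what it reads.
-/

set_option autoImplicit false

namespace Pool.Agent.H10.RQ

open Pool.Agent.Lead.NTM

namespace Par

variable {X Z : Type} (P : Par X Z) [Finite X] [Finite Z]

omit [Finite X] [Finite Z] in
/-- the scanned symbol of a clock head -/
private theorem BMB_scan {τ : ℕ} {d : Bool} {p : ℤ} (h : okPos τ d p) (i : Fin P.k) :
    P.marks τ i p = none ↔ rem τ d p = 0 := by
  unfold okPos at h
  have hm : P.marks τ i p = none ↔ ¬ (0 ≤ p ∧ p < τ) := by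
    unfold marks
    by_cases h1 : 0 ≤ p ∧ p < τ
    · rw [if_pos h1]
      simp [h1]
    · rw [if_neg h1]
      simp only [h1, not_false_iff]
  rw [hm]
  cases d with
  | false =>
    have e : rem τ false p = p + 1 := if_neg (by simp)
    rw [e] at h ⊢
    omega
  | true =>
    have e : rem τ true p = τ - p := if_pos rfl
    rw [e] at h ⊢
    omega

private theorem BMB_geom (τ : ℤ) (n : ℕ) :
    ∑ i ∈ Finset.range n, τ * (τ + 1) ^ i = (τ + 1) ^ n - 1 := by
  induction n with
  | zero => simp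
  | succ n ih =>
    rw [Finset.sum_range_succ, ih, pow_succ]
    ring

/-- direction of the clock head `j` after the tick `i` -/
private def BMB_d {k : ℕ} (d : Fin k → Bool) (i : Fin k) : Fin k → Bool :=
  fun j => if j < i then !(d j) else d j

/-- position of the clock head `j` after the tick `i` -/
private def BMB_p {k : ℕ} (d : Fin k → Bool) (p : Fin k → ℤ) (i : Fin k) : Fin k → ℤ :=
  fun j => p j + (if j < i then dirMove (!(d j)) else if j = i then dirMove (d j) else .stay).toInt

private theorem BMB_rem {k : ℕ} {τ : ℕ} {d : Fin k → Bool} {p : Fin k → ℤ} {i : Fin k}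
    (hj : ∀ j < i, rem τ (d j) (p j) = 0) (j : Fin k) :
    rem τ (BMB_d d i j) (BMB_p d p i j) =
      if j < i then (τ : ℤ) else if j = i then rem τ (d j) (p j) - 1 else rem τ (d j) (p j) := by
  unfold BMB_d BMB_p
  by_cases h1 : j < i
  · rw [if_pos h1, if_pos h1, if_pos h1]
    have h2 := hj j h1
    unfold rem at *
    cases hd : d j with
    | false =>
      rw [hd] at h2
      simp [dirMove, Move.toInt] at h2 ⊢
      omega
    | true =>
      rw [hd] at h2
      simp [dirMove, Move.toInt] at h2 ⊢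
      omega
  · rw [if_neg h1, if_neg h1, if_neg h1]
    by_cases h2 : j = i
    · rw [if_pos h2, if_pos h2]
      unfold rem
      cases hd : d j with
      | false =>
        simp [dirMove, Move.toInt]
      | true =>
        simp [dirMove, Move.toInt]
        ring
    · rw [if_neg h2, if_neg h2]
      simp [Move.toInt]

private theorem BMB_ok {k : ℕ} {τ : ℕ} {d : Fin k → Bool} {p : Fin k → ℤ}
    (hp : ∀ j, okPos τ (d j) (p j)) {i : Fin k}
    (hj : ∀ j < i, rem τ (d j) (p j) = 0) (hi : rem τ (d i) (p i) ≠ 0) (j : Fin k) :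
    okPos τ (BMB_d d i j) (BMB_p d p i j) := by
  unfold okPos
  rw [BMB_rem hj j]
  have h0 : (0 : ℤ) ≤ τ := Int.natCast_nonneg τ
  obtain ⟨h1, h2⟩ := hp j
  by_cases h3 : j < i
  · rw [if_pos h3]
    exact ⟨h0, le_rfl⟩
  · rw [if_neg h3]
    by_cases h4 : j = i
    · rw [if_pos h4]
      subst h4
      constructor <;> omega
    · rw [if_neg h4]
      exact ⟨h1, h2⟩

omit [Finite X] [Finite Z] in
private theorem BMB_tick {τ : ℕ} {d : Fin P.k → Bool} {p : Fin P.k → ℤ} {i : Fin P.k}
    (hj : ∀ j < i, rem τ (d j) (p j) = 0) :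
    P.ticks τ (BMB_d d i) (BMB_p d p i) = P.ticks τ d p - 1 := by
  unfold ticks
  have h1 : ∀ j : Fin P.k, rem τ (BMB_d d i j) (BMB_p d p i j) * ((τ : ℤ) + 1) ^ (j : ℕ) =
      rem τ (d j) (p j) * ((τ : ℤ) + 1) ^ (j : ℕ) +
      (fun l : ℕ => if l < (i : ℕ) then (τ : ℤ) * ((τ : ℤ) + 1) ^ l else
        if l = (i : ℕ) then -((τ : ℤ) + 1) ^ l else 0) (j : ℕ) := by
    intro j
    rw [BMB_rem hj j]
    by_cases h3 : j < i
    · have h3' : (j : ℕ) < (i : ℕ) := h3
      simp only [if_pos h3, if_pos h3', hj j h3]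
      ring
    · have h3' : ¬ (j : ℕ) < (i : ℕ) := h3
      by_cases h4 : j = i
      · have h4' : (j : ℕ) = (i : ℕ) := by rw [h4]
        simp only [if_neg h3, if_pos h4, if_neg h3', if_pos h4']
        ring
      · have h4' : ¬ (j : ℕ) = (i : ℕ) := fun h => h4 (Fin.ext h)
        simp only [if_neg h3, if_neg h4, if_neg h3', if_neg h4']
        ring
  rw [Finset.sum_congr rfl fun j _ => h1 j, Finset.sum_add_distrib,
    Fin.sum_univ_eq_sum_range (fun l : ℕ => if l < (i : ℕ) then (τ : ℤ) * ((τ : ℤ) + 1) ^ l else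
        if l = (i : ℕ) then -((τ : ℤ) + 1) ^ l else 0) P.k]
  have h2 : ∑ l ∈ Finset.range P.k, (if l < (i : ℕ) then (τ : ℤ) * ((τ : ℤ) + 1) ^ l else
        if l = (i : ℕ) then -((τ : ℤ) + 1) ^ l else 0) = -1 := by
    rw [← Finset.sum_subset (s₁ := Finset.range ((i : ℕ) + 1))]
    · rw [Finset.sum_range_succ, if_neg (lt_irrefl _), if_pos rfl]
      have h3 : ∑ l ∈ Finset.range (i : ℕ), (if l < (i : ℕ) then (τ : ℤ) * ((τ : ℤ) + 1) ^ l else
          if l = (i : ℕ) then -((τ : ℤ) + 1) ^ l else 0) =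
          ∑ l ∈ Finset.range (i : ℕ), (τ : ℤ) * ((τ : ℤ) + 1) ^ l := by
        refine Finset.sum_congr rfl ?_
        intro l hl
        rw [if_pos (Finset.mem_range.1 hl)]
      rw [h3, BMB_geom]
      ring
    · intro l hl
      rw [Finset.mem_range] at hl ⊢
      have := i.2
      omega
    · intro l hl hl'
      rw [Finset.mem_range] at hl hl'
      rw [if_neg (by omega), if_neg (by omega)]
  rw [h2]
  ring

omit [Finite X] [Finite Z] in
private theorem BMB_nonneg {τ : ℕ} {d : Fin P.k → Bool} {p : Fin P.k → ℤ}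
    (hp : ∀ j, okPos τ (d j) (p j)) : 0 ≤ P.ticks τ d p := by
  unfold ticks
  exact Finset.sum_nonneg fun j _ => mul_nonneg (hp j).1 (by positivity)

omit [Finite X] [Finite Z] in
private theorem BMB_exists {τ : ℕ} {d : Fin P.k → Bool} {p : Fin P.k → ℤ}
    (h : P.ticks τ d p ≠ 0) :
    ∃ i, rem τ (d i) (p i) ≠ 0 ∧ ∀ j < i, rem τ (d j) (p j) = 0 := by
  have hne : ({i : Fin P.k | rem τ (d i) (p i) ≠ 0}).Nonempty := by
    by_contra hcon
    apply h
    unfold ticks
    refine Finset.sum_eq_zero fun i _ => ?_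
    have h1 : rem τ (d i) (p i) = 0 := by
      by_contra h2
      exact hcon ⟨i, h2⟩
    rw [h1, zero_mul]
  obtain ⟨i, hi, hmin⟩ := WellFounded.has_min (wellFounded_lt (α := Fin P.k)) _ hne
  refine ⟨i, hi, fun j hj => ?_⟩
  by_contra h2
  exact hmin j h2 hj

private theorem BMB_cfg {st : P.St} {a a' : ℤ → Option X} {pa pa' : ℤ}
    {e f : Fin (P.E.k + 1) → ℤ → Option (Unit ⊕ P.E.G)} {pe pf : Fin (P.E.k + 1) → ℤ}
    {e' f' : Fin (P.E'.k + 1) → ℤ → Option (Unit ⊕ P.E'.G)} {pe' pf' : Fin (P.E'.k + 1) → ℤ}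
    {m n : Fin (P.M.k + 1) → ℤ → Option (Z ⊕ P.M.G)} {pm pn : Fin (P.M.k + 1) → ℤ}
    {c c' : Fin P.k → ℤ → Option Unit} {pc pc' : Fin P.k → ℤ} {qu qu' : List Bool}
    (h1 : a = a') (h2 : pa = pa') (h3 : e = f) (h4 : pe = pf) (h5 : e' = f') (h6 : pe' = pf')
    (h7 : m = n) (h8 : pm = pn) (h9 : c = c') (h10 : pc = pc') (h11 : qu = qu') :
    P.cfg st a pa e pe e' pe' m pm c pc qu = P.cfg st a' pa' f pf f' pf' n pn c' pc' qu' := by
  subst h1 h2 h3 h4 h5 h6 h7 h8 h9 h10 h11
  rfl

/-- the action of `Tr.runB` -/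
private theorem BMB_app (ce : Config P.E) (d : Fin P.k → Bool) (τ : ℕ)
    (pc : Fin P.k → ℤ) (a : ℤ → Option X) (pa : ℤ)
    (e' : Fin (P.E'.k + 1) → ℤ → Option (Unit ⊕ P.E'.G)) (pe' : Fin (P.E'.k + 1) → ℤ)
    (m : Fin (P.M.k + 1) → ℤ → Option (Z ⊕ P.M.G)) (pm : Fin (P.M.k + 1) → ℤ)
    (r : P.E.Q × (Fin (P.E.k + 1) → Option (Unit ⊕ P.E.G)) × (Fin (P.E.k + 1) → Move))
    (i : Fin P.k) :
    P.app a pa ce.tape ce.pos e' pe' m pm (P.marks τ) pc []
      (.runB r.1 (fun j => if j < i then !(d j) else d j),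
        P.five (F := fun i => Option (P.Γ i))
          (P.rd a pa ce.tape ce.pos e' pe' m pm (P.marks τ) pc .inp) r.2.1
          (fun i => P.rd a pa ce.tape ce.pos e' pe' m pm (P.marks τ) pc (.e' i))
          (fun i => P.rd a pa ce.tape ce.pos e' pe' m pm (P.marks τ) pc (.m i))
          (fun i => P.rd a pa ce.tape ce.pos e' pe' m pm (P.marks τ) pc (.c i)),
        P.five .stay r.2.2 (fun _ => .stay) (fun _ => .stay)
          (fun j => if j < i then dirMove (!(d j)) else if j = i then dirMove (d j) else .stay),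
        none) =
    P.cfg (.runB r.1 (BMB_d d i)) a pa
      (fun i => Function.update (ce.tape i) (ce.pos i) (r.2.1 i))
      (fun i => ce.pos i + (r.2.2 i).toInt) e' pe' m pm (P.marks τ) (BMB_p d pc i) [] := by
  refine P.BMB_cfg ?_ ?_ rfl rfl ?_ ?_ ?_ ?_ ?_ rfl rfl
  · exact Function.update_eq_self _ _
  · exact add_zero _
  · exact funext fun i => Function.update_eq_self _ _
  · exact funext fun i => add_zero _
  · exact funext fun i => Function.update_eq_self _ _
  · exact funext fun i => add_zero _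
  · exact funext fun i => Function.update_eq_self _ _

/-- the action of `Tr.toC` -/
private theorem BMB_appC (ce : Config P.E) (τ : ℕ)
    (pc : Fin P.k → ℤ) (a : ℤ → Option X) (pa : ℤ)
    (e' : Fin (P.E'.k + 1) → ℤ → Option (Unit ⊕ P.E'.G)) (pe' : Fin (P.E'.k + 1) → ℤ)
    (m : Fin (P.M.k + 1) → ℤ → Option (Z ⊕ P.M.G)) (pm : Fin (P.M.k + 1) → ℤ) :
    P.app a pa ce.tape ce.pos e' pe' m pm (P.marks τ) pc []
      (.runC P.M.start, P.rd a pa ce.tape ce.pos e' pe' m pm (P.marks τ) pc, fun _ => .stay,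
        none) =
    P.cfg (.runC P.M.start) a pa ce.tape ce.pos e' pe' m pm (P.marks τ) pc [] := by
  refine P.BMB_cfg ?_ ?_ ?_ ?_ ?_ ?_ ?_ ?_ ?_ ?_ rfl
  · exact Function.update_eq_self _ _
  · exact add_zero _
  · exact funext fun i => Function.update_eq_self _ _
  · exact funext fun i => add_zero _
  · exact funext fun i => Function.update_eq_self _ _
  · exact funext fun i => add_zero _
  · exact funext fun i => Function.update_eq_self _ _
  · exact funext fun i => add_zero _
  · exact funext fun i => Function.update_eq_self _ _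
  · exact funext fun i => add_zero _

theorem phaseB (O : Set (List Bool)) (s : ℕ) (ce : Config P.E) (d : Fin P.k → Bool) (τ : ℕ)
    (pc : Fin P.k → ℤ) (hpc : ∀ i, okPos τ (d i) (pc i)) (a : ℤ → Option X) (pa : ℤ)
    (e' : Fin (P.E'.k + 1) → ℤ → Option (Unit ⊕ P.E'.G)) (pe' : Fin (P.E'.k + 1) → ℤ)
    (m : Fin (P.M.k + 1) → ℤ → Option (Z ⊕ P.M.G)) (pm : Fin (P.M.k + 1) → ℤ) :
    GFrom O P.bm s (P.cfg (.runB ce.state d) a pa ce.tape ce.pos e' pe' m pm (P.marks τ) pc []) ↔
      ∃ sE s', PFrom P.E sE ce ∧ (sE : ℤ) ≤ P.ticks τ d pc ∧ s = sE + 1 + s' ∧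
        OFrom O P.M s' ⟨P.M.start, m, pm, []⟩ := by
  induction s generalizing ce d pc with
  | zero =>
    constructor
    · rintro ⟨q', -, h⟩
      exact absurd h (by rintro ⟨⟩)
    · rintro ⟨sE, s', -, -, h, -⟩
      omega
  | succ s ih =>
    constructor
    · rintro ⟨c', hc', hc''⟩
      rw [P.step_iff] at hc'
      rcases hc' with ⟨r, hr, rfl⟩ | ⟨r, -, h, -⟩
      · generalize hx : P.rd a pa ce.tape ce.pos e' pe' m pm (P.marks τ) pc = x at hr
        cases hr with
        | runB _ _ _ r hr i hi hj =>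
          subst hx
          have hj' : ∀ j < i, rem τ (d j) (pc j) = 0 := fun j h =>
            (P.BMB_scan (hpc j) j).1 (hj j h)
          have hi' : rem τ (d i) (pc i) ≠ 0 := fun h =>
            hi ((P.BMB_scan (hpc i) i).2 h)
          rw [P.BMB_app ce d τ pc a pa e' pe' m pm r i] at hc''
          have h2 := (ih ⟨r.1, fun i => Function.update (ce.tape i) (ce.pos i) (r.2.1 i),
            fun i => ce.pos i + (r.2.2 i).toInt⟩ (BMB_d d i) (BMB_p d pc i)
            (fun j => BMB_ok hpc hj' hi' j)).1 hc''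
          obtain ⟨sE, s', h3, h4, h5, h6⟩ := h2
          rw [P.BMB_tick hj'] at h4
          refine ⟨sE + 1, s', ⟨_, ⟨r, hr, rfl, rfl, rfl⟩, h3⟩, ?_, by omega, h6⟩
          push_cast
          linarith
        | toC _ _ _ hq =>
          subst hx
          rw [P.BMB_appC ce τ pc a pa e' pe' m pm] at hc''
          have h2 := (P.phaseC O s ⟨P.M.start, m, pm, []⟩ a pa ce.tape ce.pos e' pe'
            (P.marks τ) pc).1 hc''
          exact ⟨0, s, hq, by simpa using P.BMB_nonneg hpc, by omega, h2⟩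
      · exact absurd h (by rintro ⟨⟩)
    · rintro ⟨sE, s', h1, h2, h3, h4⟩
      cases sE with
      | zero =>
        have h5 : s' = s := by omega
        subst h5
        refine ⟨_, (P.step_iff O _ a pa ce.tape ce.pos e' pe' m pm (P.marks τ) pc [] _).2
          (Or.inl ⟨_, Tr.toC _ _ _ h1, rfl⟩), ?_⟩
        rw [P.BMB_appC ce τ pc a pa e' pe' m pm]
        exact (P.phaseC O s' ⟨P.M.start, m, pm, []⟩ a pa ce.tape ce.pos e' pe'
            (P.marks τ) pc).2 h4
      | succ sE =>
        push_cast at h2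
        obtain ⟨i, hi, hj⟩ := P.BMB_exists (τ := τ) (d := d) (p := pc) (by
          have : (0 : ℤ) ≤ sE := Int.natCast_nonneg _
          omega)
        obtain ⟨ce', ⟨r, hr, e1, e2, e3⟩, h5⟩ := h1
        have hce : ce' = ⟨r.1, fun i => Function.update (ce.tape i) (ce.pos i) (r.2.1 i),
            fun i => ce.pos i + (r.2.2 i).toInt⟩ := by
          cases ce'
          simp only at e1 e2 e3
          subst e1 e2 e3
          rfl
        refine ⟨_, (P.step_iff O _ a pa ce.tape ce.pos e' pe' m pm (P.marks τ) pc [] _).2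
          (Or.inl ⟨_, Tr.runB _ _ _ r hr i ?_ ?_, rfl⟩), ?_⟩
        · intro h
          exact hi ((P.BMB_scan (hpc i) i).1 h)
        · intro j h
          exact (P.BMB_scan (hpc j) j).2 (hj j h)
        · rw [P.BMB_app ce d τ pc a pa e' pe' m pm r i]
          refine (ih ⟨r.1, fun i => Function.update (ce.tape i) (ce.pos i) (r.2.1 i),
            fun i => ce.pos i + (r.2.2 i).toInt⟩ (BMB_d d i) (BMB_p d pc i)
            (fun j => BMB_ok hpc hj hi j)).2 ⟨sE, s', ?_, ?_, by omega, h4⟩
          · rw [← hce]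
            exact h5
          · rw [P.BMB_tick hj]
            linarith


omit [Finite X] [Finite Z] in
theorem ticks_start (τ : ℕ) :
    P.ticks τ (fun _ => false) (fun _ => (τ : ℤ) - 1) = ((τ : ℤ) + 1) ^ P.k - 1 := by
  unfold ticks
  have h1 : ∀ i : Fin P.k, rem τ false ((τ : ℤ) - 1) * ((τ : ℤ) + 1) ^ (i : ℕ) =
      (fun l : ℕ => (τ : ℤ) * ((τ : ℤ) + 1) ^ l) (i : ℕ) := by
    intro i
    unfold rem
    rw [if_neg (by simp)]
    ring
  rw [Finset.sum_congr rfl fun i _ => h1 i,
    Fin.sum_univ_eq_sum_range (fun l : ℕ => (τ : ℤ) * ((τ : ℤ) + 1) ^ l) P.k]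
  exact BMB_geom _ _


end Par

end Pool.Agent.H10.RQ
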