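import Pool.Agent.H10.RQ.BMStep

/-!
# RQ BMC: phase C of the combination machine

In a state `runC q` the only transitions are those of `Tr.runC` (actions of `M` on the tapes `m`) and
the queries. Induction on `s` with `step_iff` (BMStep). `app` of the action of `Tr.runC` is
`cfg (.runC r.1) ...` with the other parts unchanged: `Function.update (e i) (pe i) (e i (pe i)) = e i`
(`Function.update_eq_self`), `pe i + Move.stay.toInt = pe i`; they may stay literally different, the
statement is for all `a pa e pe ...`. Accepting: `.runC q ∈ P.bm.acc ↔ q ∈ P.M.accepting`.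
In the case of a query: `st'` is `.runC r.2.1` or `.runC r.2.2`, the classical `if` of `OStep`.
-/

set_option autoImplicit false

namespace Pool.Agent.H10.RQ

open Pool.Agent.Lead.NTM

namespace Par

variable {X Z : Type} (P : Par X Z) [Finite X] [Finite Z]

theorem phaseC (O : Set (List Bool)) (s : ℕ) (cm : OConfig P.M) (a : ℤ → Option X) (pa : ℤ)
    (e : Fin (P.E.k + 1) → ℤ → Option (Unit ⊕ P.E.G)) (pe : Fin (P.E.k + 1) → ℤ)
    (e' : Fin (P.E'.k + 1) → ℤ → Option (Unit ⊕ P.E'.G)) (pe' : Fin (P.E'.k + 1) → ℤ)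
    (c : Fin P.k → ℤ → Option Unit) (pc : Fin P.k → ℤ) :
    GFrom O P.bm s (P.cfg (.runC cm.state) a pa e pe e' pe' cm.tape cm.pos c pc cm.query) ↔
      OFrom O P.M s cm := by
  induction s generalizing cm a pa e pe e' pe' c pc with
  | zero =>
    constructor
    · rintro ⟨q', h1, h2⟩
      have h3 : cm.state = q' := by
        injection h2
      rw [← h3] at h1
      exact h1
    · intro h
      exact ⟨_, h, rfl⟩
  | succ s ih =>
    constructor
    · rintro ⟨c', h1, h2⟩
      rw [P.step_iff] at h1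
      rcases h1 with ⟨r, hr, rfl⟩ | ⟨r, hr, h0, st', h3, h4, rfl⟩
      · cases hr with
        | runC x q r hr =>
          refine ⟨⟨r.1, fun i => Function.update (cm.tape i) (cm.pos i) (r.2.1 i),
            fun i => cm.pos i + (r.2.2.1 i).toInt, cm.query ++ r.2.2.2.toList⟩,
            Or.inl ⟨r, hr, rfl, rfl, rfl, rfl⟩, ?_⟩
          exact (ih ⟨r.1, fun i => Function.update (cm.tape i) (cm.pos i) (r.2.1 i),
            fun i => cm.pos i + (r.2.2.1 i).toInt, cm.query ++ r.2.2.2.toList⟩
            _ _ _ _ _ _ _ _).1 h2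
      · have h5 : cm.state = r.1 := by
          injection h0
        by_cases hq : cm.query ∈ O
        · rw [h3 hq] at h2
          refine ⟨⟨r.2.1, cm.tape, cm.pos, []⟩, Or.inr ⟨r, hr, h5, ?_, rfl, rfl, rfl⟩, ?_⟩
          · rw [if_pos hq]
          · exact (ih ⟨r.2.1, cm.tape, cm.pos, []⟩ _ _ _ _ _ _ _ _).1 h2
        · rw [h4 hq] at h2
          refine ⟨⟨r.2.2, cm.tape, cm.pos, []⟩, Or.inr ⟨r, hr, h5, ?_, rfl, rfl, rfl⟩, ?_⟩
          · rw [if_neg hq]
          · exact (ih ⟨r.2.2, cm.tape, cm.pos, []⟩ _ _ _ _ _ _ _ _).1 h2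
    · rintro ⟨c', h1, h2⟩
      rcases h1 with ⟨r, hr, k1, k2, k3, k4⟩ | ⟨r, hr, h0, k1, k2, k3, k4⟩
      · refine ⟨_, (P.step_iff _ _ _ _ _ _ _ _ _ _ _ _ _ _).2
          (Or.inl ⟨_, Tr.runC _ cm.state r hr, rfl⟩), ?_⟩
        have hc : c' = ⟨r.1, fun i => Function.update (cm.tape i) (cm.pos i) (r.2.1 i),
            fun i => cm.pos i + (r.2.2.1 i).toInt, cm.query ++ r.2.2.2.toList⟩ := by
          cases c'
          simp_all
        rw [hc] at h2
        exact (ih ⟨r.1, fun i => Function.update (cm.tape i) (cm.pos i) (r.2.1 i),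
          fun i => cm.pos i + (r.2.2.1 i).toInt, cm.query ++ r.2.2.2.toList⟩
          _ _ _ _ _ _ _ _).2 h2
      · by_cases hq : cm.query ∈ O
        · rw [if_pos hq] at k1
          refine ⟨_, (P.step_iff _ _ _ _ _ _ _ _ _ _ _ _ _ _).2
            (Or.inr ⟨r, hr, by rw [h0], .runC r.2.1, fun _ => rfl, fun h => absurd hq h, rfl⟩), ?_⟩
          have hc : c' = ⟨r.2.1, cm.tape, cm.pos, []⟩ := by
            cases c'
            simp_all
          rw [hc] at h2
          exact (ih ⟨r.2.1, cm.tape, cm.pos, []⟩ _ _ _ _ _ _ _ _).2 h2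
        · rw [if_neg hq] at k1
          refine ⟨_, (P.step_iff _ _ _ _ _ _ _ _ _ _ _ _ _ _).2
            (Or.inr ⟨r, hr, by rw [h0], .runC r.2.2, fun h => absurd h hq, fun _ => rfl, rfl⟩), ?_⟩
          have hc : c' = ⟨r.2.2, cm.tape, cm.pos, []⟩ := by
            cases c'
            simp_all
          rw [hc] at h2
          exact (ih ⟨r.2.2, cm.tape, cm.pos, []⟩ _ _ _ _ _ _ _ _).2 h2

end Par

end Pool.Agent.H10.RQ
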