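import Pool.Agent.H10.RQ.BMRw

/-!
# RQ BMTr: phase `tr` of the combination machine (the transduction)

Configuration: `r` letters of the input `x` have been read (head of the input tape at `r`), the word
`z` (`n`, `n'` ones) has been written on the tape `m 0` (`e 0`, `e' 0`), the head is behind it; the
words `p.1` are still to be read and written. Induction on `s`, generalised over `p r z n n'`.
In the state `.tr p`: if the first nonempty part of `p` is the word to be read, the only transition is
`Tr.read` (possible iff the next letter of the input is the right one), else `Tr.wm`, `Tr.we`,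
`Tr.we'` (deterministic; writing a letter behind the word: lemma `update_wt` below is useful). If all
four parts are empty: `Tr.choose` (any `i`), which leads to the same situation with
`p = (α i, β i, γ i, γ' i)`, and `Tr.stop`, possible iff the input head scans a blank, i.e. `r = |x|`;
it leads to phase `rw` with the heads at `|z| - 1` etc.
`cost p = |a| + |b| + g + g'`, every chosen `i` costs `1 + |α i| + |β i| + γ i + γ' i`, the stop costs `1`.
The input tape is not changed. `.tr p` is not accepting.
-/

set_option autoImplicit false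

namespace Pool.Agent.H10.RQ

open Pool.Agent.Lead.NTM

namespace Par

variable {X Z : Type} (P : Par X Z) [Finite X] [Finite Z]

/-- the input tape -/
def inTape (x : List X) : ℤ → Option X := fun z => if 0 ≤ z then x[z.toNat]? else none

/-- the cost of a move -/
def cost (i : P.I) : ℕ := 1 + (P.α i).length + (P.β i).length + P.γ i + P.γ' i

/-- a letter is written behind the word -/
theorem update_wt {B G : Type} (n : ℕ) (w : List B) (b : B) (i : Fin (n + 1)) :
    Function.update ((wt n w : Fin (n + 1) → ℤ → Option (B ⊕ G)) i) (hd n (w.length : ℤ) i)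
      (if i = 0 then some (Sum.inl b) else (wt n w : Fin (n + 1) → ℤ → Option (B ⊕ G)) i 0) =
      wt n (w ++ [b]) i := by
  by_cases hi : i = 0
  · subst hi
    funext t
    have h0 : (wt n w : Fin (n + 1) → ℤ → Option (B ⊕ G)) 0 = wordTape w := by simp [wt]
    have h1 : (wt n (w ++ [b]) : Fin (n + 1) → ℤ → Option (B ⊕ G)) 0 = wordTape (w ++ [b]) := by
      simp [wt]
    have h2 : hd n (w.length : ℤ) 0 = (w.length : ℤ) := by simp [hd]
    rw [h0, h1, h2, if_pos rfl]
    by_cases ht : t = (w.length : ℤ)
    · subst ht
      rw [Function.update_self]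
      simp [wordTape]
    · rw [Function.update_of_ne ht]
      unfold wordTape
      by_cases h3 : 0 ≤ t
      · rw [if_pos h3, if_pos h3]
        congr 1
        rcases lt_or_gt_of_ne (show t.toNat ≠ w.length by omega) with h4 | h4
        · rw [List.getElem?_append_left h4]
        · rw [List.getElem?_eq_none (by omega), List.getElem?_eq_none (by simp; omega)]
      · rw [if_neg h3, if_neg h3]
  · have h0 : ∀ v : List B, (wt n v : Fin (n + 1) → ℤ → Option (B ⊕ G)) i = fun _ => none := by
      intro v
      simp [wt, hi]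
    rw [if_neg hi, h0 w, h0 (w ++ [b])]
    exact Function.update_eq_self _ _

/-- the configuration after an action, computed part by part -/
private theorem BMTr_app (a : ℤ → Option X) (pa : ℤ)
    (e : Fin (P.E.k + 1) → ℤ → Option (Unit ⊕ P.E.G)) (pe : Fin (P.E.k + 1) → ℤ)
    (e' : Fin (P.E'.k + 1) → ℤ → Option (Unit ⊕ P.E'.G)) (pe' : Fin (P.E'.k + 1) → ℤ)
    (m : Fin (P.M.k + 1) → ℤ → Option (Z ⊕ P.M.G)) (pm : Fin (P.M.k + 1) → ℤ)
    (c : Fin P.k → ℤ → Option Unit) (pc : Fin P.k → ℤ) (qu : List Bool)
    (r : P.St × P.Sym × (P.TI → Move) × Option Bool)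
    (a2 : ℤ → Option X) (pa2 : ℤ)
    (e2 : Fin (P.E.k + 1) → ℤ → Option (Unit ⊕ P.E.G)) (pe2 : Fin (P.E.k + 1) → ℤ)
    (e2' : Fin (P.E'.k + 1) → ℤ → Option (Unit ⊕ P.E'.G)) (pe2' : Fin (P.E'.k + 1) → ℤ)
    (m2 : Fin (P.M.k + 1) → ℤ → Option (Z ⊕ P.M.G)) (pm2 : Fin (P.M.k + 1) → ℤ)
    (c2 : Fin P.k → ℤ → Option Unit) (pc2 : Fin P.k → ℤ) (qu2 : List Bool)
    (h1 : Function.update a pa (r.2.1 .inp) = a2) (h2 : pa + (r.2.2.1 .inp).toInt = pa2)
    (h3 : ∀ i, Function.update (e i) (pe i) (r.2.1 (.e i)) = e2 i)
    (h4 : ∀ i, pe i + (r.2.2.1 (.e i)).toInt = pe2 i)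
    (h5 : ∀ i, Function.update (e' i) (pe' i) (r.2.1 (.e' i)) = e2' i)
    (h6 : ∀ i, pe' i + (r.2.2.1 (.e' i)).toInt = pe2' i)
    (h7 : ∀ i, Function.update (m i) (pm i) (r.2.1 (.m i)) = m2 i)
    (h8 : ∀ i, pm i + (r.2.2.1 (.m i)).toInt = pm2 i)
    (h9 : ∀ i, Function.update (c i) (pc i) (r.2.1 (.c i)) = c2 i)
    (h10 : ∀ i, pc i + (r.2.2.1 (.c i)).toInt = pc2 i)
    (h11 : qu ++ r.2.2.2.toList = qu2) :
    P.app a pa e pe e' pe' m pm c pc qu r =
      P.cfg r.1 a2 pa2 e2 pe2 e2' pe2' m2 pm2 c2 pc2 qu2 := by
  have h3' := funext h3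
  have h4' := funext h4
  have h5' := funext h5
  have h6' := funext h6
  have h7' := funext h7
  have h8' := funext h8
  have h9' := funext h9
  have h10' := funext h10
  unfold app
  rw [h1, h2, h3', h4', h5', h6', h7', h8', h9', h10', h11]

/-- the configuration of phase `tr` -/
private noncomputable def BMTr_conf (x : List X) (p : P.TrS) (r : ℕ) (z : List Z) (n n' : ℕ) :
    GC P.bm :=
  P.cfg (.tr p) (inTape x) (r : ℤ)
        (wt P.E.k (List.replicate n ())) (hd P.E.k (n : ℤ))
        (wt P.E'.k (List.replicate n' ())) (hd P.E'.k (n' : ℤ))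
        (wt P.M.k z) (hd P.M.k (z.length : ℤ)) (fun _ _ => none) (fun _ => 0) []

/-- the configuration at the begin of phase `rw` -/
private noncomputable def BMTr_fin (x : List X) (z : List Z) (n n' : ℕ) : GC P.bm :=
  P.cfg .rw (inTape x) (x.length : ℤ)
          (wt P.E.k (List.replicate n ()))
          (hd P.E.k (((n : ℕ) : ℤ) - 1))
          (wt P.E'.k (List.replicate n' ()))
          (hd P.E'.k (((n' : ℕ) : ℤ) - 1))
          (wt P.M.k z)
          (hd P.M.k ((z.length : ℤ) - 1))
          (fun _ _ => none) (fun _ => 0) []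

private theorem BMTr_upd {α : Type} (f : ℤ → α) (p : ℤ) (v : α) (h : v = f p) :
    Function.update f p v = f := by
  rw [h]
  exact Function.update_eq_self _ _

omit [Finite X] in
private theorem BMTr_inTape (x : List X) (r : ℕ) : inTape x (r : ℤ) = x[r]? := by
  simp [inTape]

private theorem BMTr_hd (n : ℕ) (p : ℤ) (i : Fin (n + 1)) : hd n p i = if i = 0 then p else 0 :=
  rfl

/-- the effect of `Tr.read` -/
private theorem BMTr_read (x : List X) (r : ℕ) (z : List Z) (n n' : ℕ) (p : P.TrS) :
    P.app (inTape x) (r : ℤ)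
        (wt P.E.k (List.replicate n ())) (hd P.E.k (n : ℤ))
        (wt P.E'.k (List.replicate n' ())) (hd P.E'.k (n' : ℤ))
        (wt P.M.k z) (hd P.M.k (z.length : ℤ)) (fun _ _ => none) (fun _ => 0) []
        (.tr p, P.rd (inTape x) (r : ℤ)
        (wt P.E.k (List.replicate n ())) (hd P.E.k (n : ℤ))
        (wt P.E'.k (List.replicate n' ())) (hd P.E'.k (n' : ℤ))
        (wt P.M.k z) (hd P.M.k (z.length : ℤ)) (fun _ _ => none) (fun _ => 0),
        P.mv1 .inp .right, none) = P.BMTr_conf x p (r + 1) z n n' := by
  unfold BMTr_conf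
  apply P.BMTr_app
  · exact Function.update_eq_self _ _
  · simp [mv1, Move.toInt]
  · intro i; exact Function.update_eq_self _ _
  · intro i; simp [mv1, Move.toInt]
  · intro i; exact Function.update_eq_self _ _
  · intro i; simp [mv1, Move.toInt]
  · intro i; exact Function.update_eq_self _ _
  · intro i; simp [mv1, Move.toInt]
  · intro i; exact Function.update_eq_self _ _
  · intro i; simp [mv1, Move.toInt]
  · rfl

open Classical in
/-- the effect of `Tr.wm` -/
private theorem BMTr_wm (x : List X) (r : ℕ) (z : List Z) (n n' : ℕ) (p : P.TrS) (z0 : Z) :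
    P.app (inTape x) (r : ℤ)
        (wt P.E.k (List.replicate n ())) (hd P.E.k (n : ℤ))
        (wt P.E'.k (List.replicate n' ())) (hd P.E'.k (n' : ℤ))
        (wt P.M.k z) (hd P.M.k (z.length : ℤ)) (fun _ _ => none) (fun _ => 0) []
        (.tr p, Function.update (P.rd (inTape x) (r : ℤ)
        (wt P.E.k (List.replicate n ())) (hd P.E.k (n : ℤ))
        (wt P.E'.k (List.replicate n' ())) (hd P.E'.k (n' : ℤ))
        (wt P.M.k z) (hd P.M.k (z.length : ℤ)) (fun _ _ => none) (fun _ => 0)) (.m 0)
        (some (Sum.inl z0)),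
        P.mv1 (.m 0) .right, none) = P.BMTr_conf x p r (z ++ [z0]) n n' := by
  unfold BMTr_conf
  apply P.BMTr_app
  · refine BMTr_upd _ _ _ ?_
    have h1 : (TI.inp : P.TI) ≠ .m 0 := by intro h; cases h
    exact Function.update_of_ne h1 _ _
  · simp [mv1, Move.toInt]
  · intro i
    refine BMTr_upd _ _ _ ?_
    have h1 : (TI.e i : P.TI) ≠ .m 0 := by intro h; cases h
    exact Function.update_of_ne h1 _ _
  · intro i; simp [mv1, Move.toInt]
  · intro i
    refine BMTr_upd _ _ _ ?_
    have h1 : (TI.e' i : P.TI) ≠ .m 0 := by intro h; cases h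
    exact Function.update_of_ne h1 _ _
  · intro i; simp [mv1, Move.toInt]
  · intro i
    rw [← update_wt]
    congr 1
    by_cases hi : i = 0
    · subst hi
      rw [if_pos rfl]
      dsimp only
      rw [Function.update_self]
      rfl
    · rw [if_neg hi]
      have h1 : (TI.m i : P.TI) ≠ .m 0 := by
        intro h
        injection h with h
        exact hi h
      refine (Function.update_of_ne h1 _ _).trans ?_
      show wt P.M.k z i (hd P.M.k (z.length : ℤ) i) = _
      rw [BMTr_hd, if_neg hi]
  · intro i
    by_cases hi : i = 0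
    · subst hi
      simp [mv1, Move.toInt, BMTr_hd]
    · simp [mv1, Move.toInt, BMTr_hd, hi]
  · intro i
    refine BMTr_upd _ _ _ ?_
    have h1 : (TI.c i : P.TI) ≠ .m 0 := by intro h; cases h
    exact Function.update_of_ne h1 _ _
  · intro i; simp [mv1, Move.toInt]
  · rfl

open Classical in
/-- the effect of `Tr.we` -/
private theorem BMTr_we (x : List X) (r : ℕ) (z : List Z) (n n' : ℕ) (p : P.TrS) :
    P.app (inTape x) (r : ℤ)
        (wt P.E.k (List.replicate n ())) (hd P.E.k (n : ℤ))
        (wt P.E'.k (List.replicate n' ())) (hd P.E'.k (n' : ℤ))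
        (wt P.M.k z) (hd P.M.k (z.length : ℤ)) (fun _ _ => none) (fun _ => 0) []
        (.tr p, Function.update (P.rd (inTape x) (r : ℤ)
        (wt P.E.k (List.replicate n ())) (hd P.E.k (n : ℤ))
        (wt P.E'.k (List.replicate n' ())) (hd P.E'.k (n' : ℤ))
        (wt P.M.k z) (hd P.M.k (z.length : ℤ)) (fun _ _ => none) (fun _ => 0)) (.e 0)
        (some (Sum.inl ())),
        P.mv1 (.e 0) .right, none) = P.BMTr_conf x p r z (n + 1) n' := by
  unfold BMTr_conf
  apply P.BMTr_app
  · refine BMTr_upd _ _ _ ?_
    have h1 : (TI.inp : P.TI) ≠ .e 0 := by intro h; cases h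
    exact Function.update_of_ne h1 _ _
  · simp [mv1, Move.toInt]
  · intro i
    rw [List.replicate_succ', ← update_wt]
    rw [List.length_replicate]
    congr 1
    by_cases hi : i = 0
    · subst hi
      rw [if_pos rfl]
      dsimp only
      rw [Function.update_self]
      rfl
    · rw [if_neg hi]
      have h1 : (TI.e i : P.TI) ≠ .e 0 := by
        intro h
        injection h with h
        exact hi h
      refine (Function.update_of_ne h1 _ _).trans ?_
      show wt P.E.k (List.replicate n ()) i (hd P.E.k (n : ℤ) i) = _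
      rw [BMTr_hd, if_neg hi]
  · intro i
    by_cases hi : i = 0
    · subst hi
      simp [mv1, Move.toInt, BMTr_hd]
    · simp [mv1, Move.toInt, BMTr_hd, hi]
  · intro i
    refine BMTr_upd _ _ _ ?_
    have h1 : (TI.e' i : P.TI) ≠ .e 0 := by intro h; cases h
    exact Function.update_of_ne h1 _ _
  · intro i; simp [mv1, Move.toInt]
  · intro i
    refine BMTr_upd _ _ _ ?_
    have h1 : (TI.m i : P.TI) ≠ .e 0 := by intro h; cases h
    exact Function.update_of_ne h1 _ _
  · intro i; simp [mv1, Move.toInt]
  · intro i
    refine BMTr_upd _ _ _ ?_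
    have h1 : (TI.c i : P.TI) ≠ .e 0 := by intro h; cases h
    exact Function.update_of_ne h1 _ _
  · intro i; simp [mv1, Move.toInt]
  · rfl

open Classical in
/-- the effect of `Tr.we'` -/
private theorem BMTr_we' (x : List X) (r : ℕ) (z : List Z) (n n' : ℕ) (p : P.TrS) :
    P.app (inTape x) (r : ℤ)
        (wt P.E.k (List.replicate n ())) (hd P.E.k (n : ℤ))
        (wt P.E'.k (List.replicate n' ())) (hd P.E'.k (n' : ℤ))
        (wt P.M.k z) (hd P.M.k (z.length : ℤ)) (fun _ _ => none) (fun _ => 0) []
        (.tr p, Function.update (P.rd (inTape x) (r : ℤ)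
        (wt P.E.k (List.replicate n ())) (hd P.E.k (n : ℤ))
        (wt P.E'.k (List.replicate n' ())) (hd P.E'.k (n' : ℤ))
        (wt P.M.k z) (hd P.M.k (z.length : ℤ)) (fun _ _ => none) (fun _ => 0)) (.e' 0)
        (some (Sum.inl ())),
        P.mv1 (.e' 0) .right, none) = P.BMTr_conf x p r z n (n' + 1) := by
  unfold BMTr_conf
  apply P.BMTr_app
  · refine BMTr_upd _ _ _ ?_
    have h1 : (TI.inp : P.TI) ≠ .e' 0 := by intro h; cases h
    exact Function.update_of_ne h1 _ _
  · simp [mv1, Move.toInt]
  · intro i
    refine BMTr_upd _ _ _ ?_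
    have h1 : (TI.e i : P.TI) ≠ .e' 0 := by intro h; cases h
    exact Function.update_of_ne h1 _ _
  · intro i; simp [mv1, Move.toInt]
  · intro i
    rw [List.replicate_succ', ← update_wt]
    rw [List.length_replicate]
    congr 1
    by_cases hi : i = 0
    · subst hi
      rw [if_pos rfl]
      dsimp only
      rw [Function.update_self]
      rfl
    · rw [if_neg hi]
      have h1 : (TI.e' i : P.TI) ≠ .e' 0 := by
        intro h
        injection h with h
        exact hi h
      refine (Function.update_of_ne h1 _ _).trans ?_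
      show wt P.E'.k (List.replicate n' ()) i (hd P.E'.k (n' : ℤ) i) = _
      rw [BMTr_hd, if_neg hi]
  · intro i
    by_cases hi : i = 0
    · subst hi
      simp [mv1, Move.toInt, BMTr_hd]
    · simp [mv1, Move.toInt, BMTr_hd, hi]
  · intro i
    refine BMTr_upd _ _ _ ?_
    have h1 : (TI.m i : P.TI) ≠ .e' 0 := by intro h; cases h
    exact Function.update_of_ne h1 _ _
  · intro i; simp [mv1, Move.toInt]
  · intro i
    refine BMTr_upd _ _ _ ?_
    have h1 : (TI.c i : P.TI) ≠ .e' 0 := by intro h; cases h
    exact Function.update_of_ne h1 _ _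
  · intro i; simp [mv1, Move.toInt]
  · rfl

/-- the effect of `Tr.choose` -/
private theorem BMTr_choose (x : List X) (r : ℕ) (z : List Z) (n n' : ℕ) (p : P.TrS) :
    P.app (inTape x) (r : ℤ)
        (wt P.E.k (List.replicate n ())) (hd P.E.k (n : ℤ))
        (wt P.E'.k (List.replicate n' ())) (hd P.E'.k (n' : ℤ))
        (wt P.M.k z) (hd P.M.k (z.length : ℤ)) (fun _ _ => none) (fun _ => 0) []
        (.tr p, P.rd (inTape x) (r : ℤ)
        (wt P.E.k (List.replicate n ())) (hd P.E.k (n : ℤ))
        (wt P.E'.k (List.replicate n' ())) (hd P.E'.k (n' : ℤ))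
        (wt P.M.k z) (hd P.M.k (z.length : ℤ)) (fun _ _ => none) (fun _ => 0),
        fun _ => .stay, none) = P.BMTr_conf x p r z n n' := by
  unfold BMTr_conf
  apply P.BMTr_app
  · exact Function.update_eq_self _ _
  · simp [Move.toInt]
  · intro i; exact Function.update_eq_self _ _
  · intro i; simp [Move.toInt]
  · intro i; exact Function.update_eq_self _ _
  · intro i; simp [Move.toInt]
  · intro i; exact Function.update_eq_self _ _
  · intro i; simp [Move.toInt]
  · intro i; exact Function.update_eq_self _ _
  · intro i; simp [Move.toInt]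
  · rfl

/-- the effect of `Tr.stop` -/
private theorem BMTr_stop (x : List X) (z : List Z) (n n' : ℕ) :
    P.app (inTape x) (x.length : ℤ)
        (wt P.E.k (List.replicate n ())) (hd P.E.k (n : ℤ))
        (wt P.E'.k (List.replicate n' ())) (hd P.E'.k (n' : ℤ))
        (wt P.M.k z) (hd P.M.k (z.length : ℤ)) (fun _ _ => none) (fun _ => 0) []
        (.rw, P.rd (inTape x) (x.length : ℤ)
        (wt P.E.k (List.replicate n ())) (hd P.E.k (n : ℤ))
        (wt P.E'.k (List.replicate n' ())) (hd P.E'.k (n' : ℤ))
        (wt P.M.k z) (hd P.M.k (z.length : ℤ)) (fun _ _ => none) (fun _ => 0),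
        P.five .stay (fun i => if i = 0 then .left else .stay)
          (fun i => if i = 0 then .left else .stay) (fun i => if i = 0 then .left else .stay)
          (fun _ => .stay), none) = P.BMTr_fin x z n n' := by
  unfold BMTr_fin
  apply P.BMTr_app
  · exact Function.update_eq_self _ _
  · simp [five, Move.toInt]
  · intro i; exact Function.update_eq_self _ _
  · intro i
    by_cases hi : i = 0
    · subst hi
      simp [five, Move.toInt, BMTr_hd]
      ring
    · simp [five, Move.toInt, BMTr_hd, hi]
  · intro i; exact Function.update_eq_self _ _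
  · intro i
    by_cases hi : i = 0
    · subst hi
      simp [five, Move.toInt, BMTr_hd]
      ring
    · simp [five, Move.toInt, BMTr_hd, hi]
  · intro i; exact Function.update_eq_self _ _
  · intro i
    by_cases hi : i = 0
    · subst hi
      simp [five, Move.toInt, BMTr_hd]
      ring
    · simp [five, Move.toInt, BMTr_hd, hi]
  · intro i; exact Function.update_eq_self _ _
  · intro i; simp [five, Move.toInt]
  · rfl

/-- a step in phase `tr` is an action -/
private theorem BMTr_step (O : Set (List Bool)) (x : List X) (r : ℕ) (z : List Z) (n n' : ℕ)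
    (p : P.TrS) (d : GC P.bm) :
    GStep O P.bm (P.BMTr_conf x p r z n n') d ↔
      ∃ t, P.Tr (.tr p) (P.rd (inTape x) (r : ℤ)
        (wt P.E.k (List.replicate n ())) (hd P.E.k (n : ℤ))
        (wt P.E'.k (List.replicate n' ())) (hd P.E'.k (n' : ℤ))
        (wt P.M.k z) (hd P.M.k (z.length : ℤ)) (fun _ _ => none) (fun _ => 0)) t ∧
      d = P.app (inTape x) (r : ℤ)
        (wt P.E.k (List.replicate n ())) (hd P.E.k (n : ℤ))
        (wt P.E'.k (List.replicate n' ())) (hd P.E'.k (n' : ℤ))
        (wt P.M.k z) (hd P.M.k (z.length : ℤ)) (fun _ _ => none) (fun _ => 0) [] t := by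
  unfold BMTr_conf
  rw [P.step_iff]
  constructor
  · rintro (h | ⟨r', -, h, -⟩)
    · exact h
    · exact absurd h (by intro h; cases h)
  · intro h
    exact Or.inl h

private theorem BMTr_step_read (O : Set (List Bool)) (x : List X) (r : ℕ) (z : List Z) (n n' : ℕ)
    (x0 : X) (a : List X) (b : List Z) (g g' : ℕ) (h) (h') (d : GC P.bm) :
    GStep O P.bm (P.BMTr_conf x ⟨(x0 :: a, b, g, g'), h⟩ r z n n') d ↔
      x[r]? = some x0 ∧ d = P.BMTr_conf x ⟨(a, b, g, g'), h'⟩ (r + 1) z n n' := by
  rw [BMTr_step]
  constructor
  · rintro ⟨t, ht, rfl⟩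
    cases ht with
    | read _ _ _ _ _ _ _ h'' hx =>
      refine ⟨?_, ?_⟩
      · rw [← BMTr_inTape]
        exact hx
      · exact P.BMTr_read x r z n n' _
  · rintro ⟨hx, rfl⟩
    refine ⟨_, Tr.read _ x0 a b g g' h h' ?_, (P.BMTr_read x r z n n' _).symm⟩
    rw [← BMTr_inTape] at hx
    exact hx

private theorem BMTr_step_wm (O : Set (List Bool)) (x : List X) (r : ℕ) (z : List Z) (n n' : ℕ)
    (z0 : Z) (b : List Z) (g g' : ℕ) (h) (h') (d : GC P.bm) :
    GStep O P.bm (P.BMTr_conf x ⟨([], z0 :: b, g, g'), h⟩ r z n n') d ↔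
      d = P.BMTr_conf x ⟨([], b, g, g'), h'⟩ r (z ++ [z0]) n n' := by
  rw [BMTr_step]
  constructor
  · rintro ⟨t, ht, rfl⟩
    cases ht with
    | wm _ _ _ _ _ _ h'' => exact P.BMTr_wm x r z n n' _ z0
  · rintro rfl
    exact ⟨_, Tr.wm _ z0 b g g' h h', (P.BMTr_wm x r z n n' _ z0).symm⟩

private theorem BMTr_step_we (O : Set (List Bool)) (x : List X) (r : ℕ) (z : List Z) (n n' : ℕ)
    (g g' : ℕ) (h) (h') (d : GC P.bm) :
    GStep O P.bm (P.BMTr_conf x ⟨([], [], g + 1, g'), h⟩ r z n n') d ↔
      d = P.BMTr_conf x ⟨([], [], g, g'), h'⟩ r z (n + 1) n' := by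
  rw [BMTr_step]
  constructor
  · rintro ⟨t, ht, rfl⟩
    cases ht with
    | we _ _ _ _ h'' => exact P.BMTr_we x r z n n' _
  · rintro rfl
    exact ⟨_, Tr.we _ g g' h h', (P.BMTr_we x r z n n' _).symm⟩

private theorem BMTr_step_we' (O : Set (List Bool)) (x : List X) (r : ℕ) (z : List Z) (n n' : ℕ)
    (g' : ℕ) (h) (h') (d : GC P.bm) :
    GStep O P.bm (P.BMTr_conf x ⟨([], [], 0, g' + 1), h⟩ r z n n') d ↔
      d = P.BMTr_conf x ⟨([], [], 0, g'), h'⟩ r z n (n' + 1) := by
  rw [BMTr_step]
  constructor
  · rintro ⟨t, ht, rfl⟩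
    cases ht with
    | we' _ _ _ h'' => exact P.BMTr_we' x r z n n' _
  · rintro rfl
    exact ⟨_, Tr.we' _ g' h h', (P.BMTr_we' x r z n n' _).symm⟩

private theorem BMTr_step_nil (O : Set (List Bool)) (x : List X) (r : ℕ) (hr : r ≤ x.length)
    (z : List Z) (n n' : ℕ) (h) (d : GC P.bm) :
    GStep O P.bm (P.BMTr_conf x ⟨([], [], 0, 0), h⟩ r z n n') d ↔
      (∃ i, d = P.BMTr_conf x (P.trI i) r z n n') ∨ (r = x.length ∧ d = P.BMTr_fin x z n n') := by
  rw [BMTr_step]
  constructor
  · rintro ⟨t, ht, rfl⟩
    cases ht with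
    | choose _ i _ => exact Or.inl ⟨i, P.BMTr_choose x r z n n' _⟩
    | stop _ _ hx =>
      have hx' : inTape x (r : ℤ) = none := hx
      rw [BMTr_inTape, List.getElem?_eq_none_iff] at hx'
      have hr' : r = x.length := le_antisymm hr hx'
      subst hr'
      exact Or.inr ⟨rfl, P.BMTr_stop x z n n'⟩
  · rintro (⟨i, rfl⟩ | ⟨rfl, rfl⟩)
    · exact ⟨_, Tr.choose _ i h, (P.BMTr_choose x r z n n' _).symm⟩
    · refine ⟨_, Tr.stop _ h ?_, (P.BMTr_stop x z n n').symm⟩
      show inTape x (x.length : ℤ) = none
      rw [BMTr_inTape]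
      simp

omit [Finite X] in
private theorem BMTr_drop (x : List X) (r : ℕ) (x0 : X) (l : List X) :
    x.drop r = x0 :: l ↔ x[r]? = some x0 ∧ x.drop (r + 1) = l := by
  constructor
  · intro h
    constructor
    · have := List.getElem?_drop (xs := x) (i := r) (j := 0)
      rw [h] at this
      simpa using this.symm
    · have : x.drop (r + 1) = (x.drop r).drop 1 := by rw [List.drop_drop]
      rw [this, h]
      rfl
  · rintro ⟨h1, h2⟩
    obtain ⟨hr, h3⟩ := List.getElem?_eq_some_iff.mp h1
    rw [List.drop_eq_getElem_cons hr, h3, h2]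

private theorem BMTr_main (O : Set (List Bool)) (x : List X) (s : ℕ) : ∀ (p : P.TrS) (r : ℕ)
    (_ : r ≤ x.length) (z : List Z) (n n' : ℕ),
    GFrom O P.bm s (P.BMTr_conf x p r z n n') ↔
      ∃ (is : List P.I) (s' : ℕ), x.drop r = p.1.1 ++ (is.map P.α).flatten ∧
        s = (p.1.1.length + p.1.2.1.length + p.1.2.2.1 + p.1.2.2.2) + (is.map P.cost).sum + 1 +
          s' ∧
        GFrom O P.bm s' (P.BMTr_fin x (z ++ p.1.2.1 ++ (is.map P.β).flatten)
          (n + p.1.2.2.1 + (is.map P.γ).sum) (n' + p.1.2.2.2 + (is.map P.γ').sum)) := by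
  induction s with
  | zero =>
    intro p r hr z n n'
    constructor
    · rintro ⟨q, -, hq⟩
      exact absurd hq (by intro h; cases h)
    · rintro ⟨is, s', -, h, -⟩
      omega
  | succ s ih =>
    intro p r hr z n n'
    show (∃ c', GStep O P.bm _ c' ∧ GFrom O P.bm s c') ↔ _
    obtain ⟨⟨a, b, g, g'⟩, h⟩ := p
    cases a with
    | cons x0 a =>
      have h' : a.length ≤ P.c ∧ b.length ≤ P.c ∧ g ≤ P.c ∧ g' ≤ P.c := by
        refine ⟨?_, h.2⟩
        have := h.1
        simp only [List.length_cons] at this
        omega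
      constructor
      · rintro ⟨c', hc, hs⟩
        rw [P.BMTr_step_read O x r z n n' x0 a b g g' h h'] at hc
        obtain ⟨hx, rfl⟩ := hc
        have hr' : r < x.length := (List.getElem?_eq_some_iff.mp hx).1
        obtain ⟨is, s', h1, h2, h3⟩ := (ih _ (r + 1) hr' z n n').mp hs
        refine ⟨is, s', ?_, ?_, h3⟩
        · exact (BMTr_drop x r x0 _).mpr ⟨hx, h1⟩
        · simp only [List.length_cons] at h2 ⊢
          omega
      · rintro ⟨is, s', h1, h2, h3⟩
        obtain ⟨hx, h1'⟩ := (BMTr_drop x r x0 _).mp h1
        have hr' : r < x.length := (List.getElem?_eq_some_iff.mp hx).1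
        refine ⟨_, (P.BMTr_step_read O x r z n n' x0 a b g g' h h' _).mpr ⟨hx, rfl⟩, ?_⟩
        refine (ih _ (r + 1) hr' z n n').mpr ⟨is, s', h1', ?_, h3⟩
        simp only [List.length_cons] at h2 ⊢
        omega
    | nil =>
      cases b with
      | cons z0 b =>
        have h' : ([] : List X).length ≤ P.c ∧ b.length ≤ P.c ∧ g ≤ P.c ∧ g' ≤ P.c := by
          refine ⟨h.1, ?_, h.2.2⟩
          have := h.2.1
          simp only [List.length_cons] at this
          omega
        simp only [P.BMTr_step_wm O x r z n n' z0 b g g' h h', exists_eq_left]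
        rw [ih _ r hr]
        have hz : z ++ z0 :: b = z ++ [z0] ++ b := by simp
        constructor
        · rintro ⟨is, s', h1, h2, h3⟩
          refine ⟨is, s', h1, ?_, ?_⟩
          · simp only [List.length_cons] at h2 ⊢
            omega
          · show GFrom O P.bm s' (P.BMTr_fin x (z ++ z0 :: b ++ (is.map P.β).flatten) _ _)
            rw [hz]
            exact h3
        · rintro ⟨is, s', h1, h2, h3⟩
          refine ⟨is, s', h1, ?_, ?_⟩
          · simp only [List.length_cons] at h2 ⊢
            omega
          · have h3' : GFrom O P.bm s' (P.BMTr_fin x (z ++ z0 :: b ++ (is.map P.β).flatten)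
              (n + g + (is.map P.γ).sum) (n' + g' + (is.map P.γ').sum)) := h3
            rw [hz] at h3'
            exact h3'
      | nil =>
        cases g with
        | succ g =>
          have h' : ([] : List X).length ≤ P.c ∧ ([] : List Z).length ≤ P.c ∧ g ≤ P.c ∧
              g' ≤ P.c := by
            refine ⟨h.1, h.2.1, ?_, h.2.2.2⟩
            have : g + 1 ≤ P.c := h.2.2.1
            omega
          simp only [P.BMTr_step_we O x r z n n' g g' h h', exists_eq_left]
          rw [ih _ r hr]
          constructor
          · rintro ⟨is, s', h1, h2, h3⟩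
            refine ⟨is, s', h1, ?_, ?_⟩
            · dsimp only at h2 ⊢
              omega
            · have e1 : n + 1 + g + (is.map P.γ).sum = n + (g + 1) + (is.map P.γ).sum := by omega
              dsimp only at h3 ⊢
              rw [← e1]
              exact h3
          · rintro ⟨is, s', h1, h2, h3⟩
            refine ⟨is, s', h1, ?_, ?_⟩
            · dsimp only at h2 ⊢
              omega
            · have e1 : n + 1 + g + (is.map P.γ).sum = n + (g + 1) + (is.map P.γ).sum := by omega
              dsimp only at h3 ⊢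
              rw [e1]
              exact h3
        | zero =>
          cases g' with
          | succ g' =>
            have h' : ([] : List X).length ≤ P.c ∧ ([] : List Z).length ≤ P.c ∧ 0 ≤ P.c ∧
                g' ≤ P.c := by
              refine ⟨h.1, h.2.1, h.2.2.1, ?_⟩
              have : g' + 1 ≤ P.c := h.2.2.2
              omega
            simp only [P.BMTr_step_we' O x r z n n' g' h h', exists_eq_left]
            rw [ih _ r hr]
            constructor
            · rintro ⟨is, s', h1, h2, h3⟩
              refine ⟨is, s', h1, ?_, ?_⟩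
              · dsimp only at h2 ⊢
                omega
              · have e1 : n' + 1 + g' + (is.map P.γ').sum = n' + (g' + 1) + (is.map P.γ').sum := by
                  omega
                dsimp only at h3 ⊢
                rw [← e1]
                exact h3
            · rintro ⟨is, s', h1, h2, h3⟩
              refine ⟨is, s', h1, ?_, ?_⟩
              · dsimp only at h2 ⊢
                omega
              · have e1 : n' + 1 + g' + (is.map P.γ').sum = n' + (g' + 1) + (is.map P.γ').sum := by
                  omega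
                dsimp only at h3 ⊢
                rw [e1]
                exact h3
          | zero =>
            constructor
            · rintro ⟨c', hc, hs⟩
              rw [P.BMTr_step_nil O x r hr z n n' h] at hc
              rcases hc with ⟨i, rfl⟩ | ⟨rfl, rfl⟩
              · obtain ⟨is, s', h1, h2, h3⟩ := (ih _ r hr z n n').mp hs
                refine ⟨i :: is, s', ?_, ?_, ?_⟩
                · rw [h1]
                  simp [trI]
                · simp only [trI, List.map_cons, List.sum_cons, cost, List.length_nil] at h2 ⊢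
                  omega
                · have e1 : z ++ [] ++ ((i :: is).map P.β).flatten =
                      z ++ P.β i ++ (is.map P.β).flatten := by simp
                  have e2 : n + 0 + ((i :: is).map P.γ).sum = n + P.γ i + (is.map P.γ).sum := by
                    simp only [List.map_cons, List.sum_cons]
                    omega
                  have e3 : n' + 0 + ((i :: is).map P.γ').sum =
                      n' + P.γ' i + (is.map P.γ').sum := by
                    simp only [List.map_cons, List.sum_cons]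
                    omega
                  dsimp only
                  rw [e1, e2, e3]
                  exact h3
              · refine ⟨[], s, ?_, ?_, ?_⟩
                · simp
                · simp
                  omega
                · simpa using hs
            · rintro ⟨is, s', h1, h2, h3⟩
              cases is with
              | nil =>
                have hr' : r = x.length := by
                  have : x.drop r = [] := by simpa using h1
                  rw [List.drop_eq_nil_iff] at this
                  omega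
                have hs : s' = s := by
                  simp at h2
                  omega
                subst hs
                refine ⟨_, (P.BMTr_step_nil O x r hr z n n' h _).mpr (Or.inr ⟨hr', rfl⟩), ?_⟩
                simpa using h3
              | cons i is =>
                refine ⟨_, (P.BMTr_step_nil O x r hr z n n' h _).mpr (Or.inl ⟨i, rfl⟩), ?_⟩
                refine (ih _ r hr z n n').mpr ⟨is, s', ?_, ?_, ?_⟩
                · rw [h1]
                  simp [trI]
                · simp only [trI, List.map_cons, List.sum_cons, cost, List.length_nil] at h2 ⊢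
                  omega
                · have e1 : z ++ [] ++ ((i :: is).map P.β).flatten =
                      z ++ P.β i ++ (is.map P.β).flatten := by simp
                  have e2 : n + 0 + ((i :: is).map P.γ).sum = n + P.γ i + (is.map P.γ).sum := by
                    simp only [List.map_cons, List.sum_cons]
                    omega
                  have e3 : n' + 0 + ((i :: is).map P.γ').sum =
                      n' + P.γ' i + (is.map P.γ').sum := by
                    simp only [List.map_cons, List.sum_cons]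
                    omega
                  dsimp only at h3
                  rw [e1, e2, e3] at h3
                  exact h3

theorem phaseTr (O : Set (List Bool)) (x : List X) (s : ℕ) (p : P.TrS) (r : ℕ)
    (hr : r ≤ x.length) (z : List Z) (n n' : ℕ) :
    GFrom O P.bm s (P.cfg (.tr p) (inTape x) (r : ℤ)
        (wt P.E.k (List.replicate n ())) (hd P.E.k (n : ℤ))
        (wt P.E'.k (List.replicate n' ())) (hd P.E'.k (n' : ℤ))
        (wt P.M.k z) (hd P.M.k (z.length : ℤ)) (fun _ _ => none) (fun _ => 0) []) ↔
      ∃ (is : List P.I) (s' : ℕ), x.drop r = p.1.1 ++ (is.map P.α).flatten ∧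
        s = (p.1.1.length + p.1.2.1.length + p.1.2.2.1 + p.1.2.2.2) + (is.map P.cost).sum + 1 +
          s' ∧
        GFrom O P.bm s' (P.cfg .rw (inTape x) (x.length : ℤ)
          (wt P.E.k (List.replicate (n + p.1.2.2.1 + (is.map P.γ).sum) ()))
          (hd P.E.k (((n + p.1.2.2.1 + (is.map P.γ).sum : ℕ) : ℤ) - 1))
          (wt P.E'.k (List.replicate (n' + p.1.2.2.2 + (is.map P.γ').sum) ()))
          (hd P.E'.k (((n' + p.1.2.2.2 + (is.map P.γ').sum : ℕ) : ℤ) - 1))
          (wt P.M.k (z ++ p.1.2.1 ++ (is.map P.β).flatten))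
          (hd P.M.k (((z ++ p.1.2.1 ++ (is.map P.β).flatten).length : ℤ) - 1))
          (fun _ _ => none) (fun _ => 0) []) := by
  exact P.BMTr_main O x s p r hr z n n'

end Par

end Pool.Agent.H10.RQ
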