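import Pool.Agent.H10.RQ.GM

/-!
# RQ From: acceptance in terms of `OFrom`, `PFrom`

`OAcceptsIn O M w s` (a sequence of configurations `c : ℕ → OConfig M`) iff `OFrom O M s (oStart M w)`;
generalise over the start: `(∃ c : ℕ → OConfig M, c 0 = c₀ ∧ (∀ i < s, OStep O M (c i) (c (i + 1))) ∧
(c s).state ∈ M.accepting) ↔ OFrom O M s c₀`, induction on `s` (shift the sequence; conversely put a
configuration in front: `fun i => Nat.casesOn i c₀ c`). The same for plain machines.
`ofPlain_acceptsIn`: an oracle machine without queries; the query tape stays empty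
(`r.2.2.2 = none`).
-/

set_option autoImplicit false

namespace Pool.Agent.H10.RQ

open Pool.Agent.Lead.NTM

private theorem From_gen {C : Type} (R : C → C → Prop) (acc : C → Prop) (F : ℕ → C → Prop)
    (h0 : ∀ c, F 0 c ↔ acc c) (hs : ∀ s c, F (s + 1) c ↔ ∃ c', R c c' ∧ F s c') :
    ∀ (s : ℕ) (c₀ : C),
      (∃ c : ℕ → C, c 0 = c₀ ∧ (∀ i < s, R (c i) (c (i + 1))) ∧ acc (c s)) ↔ F s c₀ := by
  intro s
  induction s with
  | zero =>
    intro c₀
    rw [h0]
    constructor
    · rintro ⟨c, h1, _, h3⟩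
      rwa [h1] at h3
    · intro h
      exact ⟨fun _ => c₀, rfl, fun i hi => absurd hi (Nat.not_lt_zero i), h⟩
  | succ s ih =>
    intro c₀
    rw [hs]
    constructor
    · rintro ⟨c, h1, h2, h3⟩
      refine ⟨c 1, ?_, (ih (c 1)).1 ⟨fun i => c (i + 1), rfl, fun i hi => h2 (i + 1) (by omega), h3⟩⟩
      rw [← h1]
      exact h2 0 (Nat.succ_pos s)
    · rintro ⟨c', h1, h2⟩
      obtain ⟨c, k1, k2, k3⟩ := (ih c').2 h2
      refine ⟨fun i => Nat.casesOn i c₀ c, rfl, fun i hi => ?_, k3⟩
      cases i with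
      | zero =>
        show R c₀ (c 0)
        rw [k1]
        exact h1
      | succ i => exact k2 i (by omega)

theorem oAcceptsIn_iff {A : Type} (O : Set (List Bool)) (M : OMachine A) (w : List A) (s : ℕ) :
    OAcceptsIn O M w s ↔ OFrom O M s (oStart M w) :=
  From_gen (OStep O M) (fun c => c.state ∈ M.accepting) (OFrom O M) (fun _ => Iff.rfl)
    (fun _ _ => Iff.rfl) s (oStart M w)

theorem acceptsIn_iff {A : Type} (M : Machine A) (w : List A) (s : ℕ) :
    AcceptsIn M w s ↔ PFrom M s (startConfig M w) :=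
  From_gen (Step M) (fun c => c.state ∈ M.accepting) (PFrom M) (fun _ => Iff.rfl)
    (fun _ _ => Iff.rfl) s (startConfig M w)

end Pool.Agent.H10.RQ
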