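import Pool.Agent.H10.RQ.BMA
import Pool.Agent.H10.RQ.BMTr
import Pool.Agent.H10.RQ.From

/-!
# RQ BMFin: the language of the combination machine

`gStart P.bm x` is the configuration of `phaseTr` with `p = ([], [], 0, 0)`, `r = 0`, `z = []`,
`n = n' = 0` (`wordTape [] = fun _ => none`; the input tape: `lt = id`). Then `phaseRw` with
`u = n` etc. (all heads behind the words), then `phaseA` with `τ = 0` (`marks 0 = fun _ _ => none`) and
`ce' = startConfig E' 1^n'`, and `oAcceptsIn_iff`, `acceptsIn_iff`.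
-/

set_option autoImplicit false

namespace Pool.Agent.H10.RQ

open Pool.Agent.Lead.NTM

private theorem BMFin_wordTape_nil {A G : Type} :
    (wordTape [] : ℤ → Option (A ⊕ G)) = fun _ => none := by
  funext z
  unfold wordTape
  split_ifs
  · rfl
  · rfl

private theorem BMFin_tape_inp {X : Type} (M : GM X) (w : List X) :
    (gStart M w).tape M.inp = fun z => if 0 ≤ z then (w[z.toNat]?).map M.lt else none := by
  classical
  unfold gStart
  simp only [Function.update_self]

private theorem BMFin_tape_ne {X : Type} (M : GM X) (w : List X) (i : M.ι) (hi : i ≠ M.inp) :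
    (gStart M w).tape i = fun _ => none := by
  classical
  unfold gStart
  simp only [Function.update_of_ne hi]

namespace Par

private theorem BMFin_wt_nil {B G : Type} (n : ℕ) :
    (wt n [] : Fin (n + 1) → ℤ → Option (B ⊕ G)) = fun _ _ => none := by
  funext i
  unfold wt
  split_ifs
  · rw [BMFin_wordTape_nil]
  · rfl

private theorem BMFin_hd_zero (n : ℕ) : hd n 0 = fun _ => 0 := by
  funext i
  unfold hd
  split_ifs <;> rfl

variable {X Z : Type} (P : Par X Z)

private theorem BMFin_marks_zero : P.marks 0 = fun _ _ => none := by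
  funext i z
  unfold marks
  rw [if_neg]
  push_cast
  omega

variable [Finite X] [Finite Z]

private theorem BMFin_start (x : List X) : gStart P.bm x =
    P.cfg (.tr ⟨([], [], 0, 0), by simp⟩) (inTape x) ((0 : ℕ) : ℤ)
        (wt P.E.k (List.replicate 0 ())) (hd P.E.k ((0 : ℕ) : ℤ))
        (wt P.E'.k (List.replicate 0 ())) (hd P.E'.k ((0 : ℕ) : ℤ))
        (wt P.M.k []) (hd P.M.k ((([] : List Z).length : ℕ) : ℤ)) (fun _ _ => none) (fun _ => 0) [] := by
  classical
  have e1 : (((0 : ℕ) : ℤ)) = 0 := Nat.cast_zero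
  have e2 : ((([] : List Z).length : ℕ) : ℤ) = 0 := by simp
  rw [e2, e1, List.replicate_zero, BMFin_wt_nil, BMFin_wt_nil, BMFin_wt_nil, BMFin_hd_zero,
    BMFin_hd_zero, BMFin_hd_zero]
  apply P.gc_ext
  · rfl
  · funext i
    cases i with
    | inp =>
      refine (BMFin_tape_inp P.bm x).trans ?_
      funext z
      show (if 0 ≤ z then (x[z.toNat]?).map (fun x => x) else none) = inTape x z
      unfold inTape
      rw [Option.map_id']
    | e i =>
      refine BMFin_tape_ne P.bm x (TI.e i) ?_
      intro h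
      change TI.e i = TI.inp at h
      cases h
    | e' i =>
      refine BMFin_tape_ne P.bm x (TI.e' i) ?_
      intro h
      change TI.e' i = TI.inp at h
      cases h
    | m i =>
      refine BMFin_tape_ne P.bm x (TI.m i) ?_
      intro h
      change TI.m i = TI.inp at h
      cases h
    | c i =>
      refine BMFin_tape_ne P.bm x (TI.c i) ?_
      intro h
      change TI.c i = TI.inp at h
      cases h
  · funext i
    cases i <;> rfl
  · rfl

theorem bm_acc (O : Set (List Bool)) (x : List X) (s : ℕ) :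
    GAcc O P.bm x s ↔ ∃ (is : List P.I) (sA sE s' : ℕ), x = (is.map P.α).flatten ∧
      AcceptsIn P.E' (List.replicate (is.map P.γ').sum ()) sA ∧
      AcceptsIn P.E (List.replicate (is.map P.γ).sum ()) sE ∧ sE < (sA + 1) ^ P.k ∧
      OAcceptsIn O P.M (is.map P.β).flatten s' ∧
      s = (is.map P.cost).sum + 1 +
        (max (is.map P.γ).sum (max (is.map P.γ').sum (is.map P.β).flatten.length) + 1) +
        (sA + 1 + (sE + 1 + s')) := by
  -- the phases `rw`, `A`, `B`, `C`
  have key : ∀ (is : List P.I) (s1 : ℕ),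
      (GFrom O P.bm s1 (P.cfg .rw (inTape x) (x.length : ℤ)
          (wt P.E.k (List.replicate (is.map P.γ).sum ()))
          (hd P.E.k ((((is.map P.γ).sum : ℕ) : ℤ) - 1))
          (wt P.E'.k (List.replicate (is.map P.γ').sum ()))
          (hd P.E'.k ((((is.map P.γ').sum : ℕ) : ℤ) - 1))
          (wt P.M.k (is.map P.β).flatten)
          (hd P.M.k (((is.map P.β).flatten.length : ℤ) - 1))
          (fun _ _ => none) (fun _ => 0) []) ↔
        ∃ sA sE s' : ℕ, AcceptsIn P.E' (List.replicate (is.map P.γ').sum ()) sA ∧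
          AcceptsIn P.E (List.replicate (is.map P.γ).sum ()) sE ∧ sE < (sA + 1) ^ P.k ∧
          OAcceptsIn O P.M (is.map P.β).flatten s' ∧
          s1 = (max (is.map P.γ).sum (max (is.map P.γ').sum (is.map P.β).flatten.length) + 1) +
            (sA + 1 + (sE + 1 + s'))) := by
    intro is s1
    rw [P.phaseRw O s1 (inTape x) (x.length : ℤ) (is.map P.γ).sum (is.map P.γ').sum
      (is.map P.β).flatten (is.map P.γ).sum (is.map P.γ').sum (is.map P.β).flatten.length
      le_rfl le_rfl le_rfl]
    have hA := fun s2 => P.phaseA O s2 (startConfig P.E' (List.replicate (is.map P.γ').sum ())) 0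
      (inTape x) (x.length : ℤ) (wt P.E.k (List.replicate (is.map P.γ).sum ())) (fun _ => 0)
      (wt P.M.k (is.map P.β).flatten) (fun _ => 0)
    rw [BMFin_marks_zero] at hA
    constructor
    · rintro ⟨s2, h1, h2⟩
      obtain ⟨sA, sE, s', h3, h4, h5, h6, h7⟩ := (hA s2).1 h2
      refine ⟨sA, sE, s', (acceptsIn_iff _ _ _).2 h3, (acceptsIn_iff _ _ _).2 h4, ?_,
        (oAcceptsIn_iff _ _ _ _).2 h7, ?_⟩
      · rwa [zero_add] at h5
      · rw [h1, h6]
    · rintro ⟨sA, sE, s', h3, h4, h5, h7, h6⟩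
      refine ⟨sA + 1 + (sE + 1 + s'), h6, (hA _).2 ⟨sA, sE, s', (acceptsIn_iff _ _ _).1 h3,
        (acceptsIn_iff _ _ _).1 h4, ?_, rfl, (oAcceptsIn_iff _ _ _ _).1 h7⟩⟩
      rwa [zero_add]
  unfold GAcc
  rw [BMFin_start, P.phaseTr O x s ⟨([], [], 0, 0), by simp⟩ 0 (Nat.zero_le _) [] 0 0]
  simp only [List.drop_zero, List.nil_append, List.length_nil, add_zero, zero_add]
  constructor
  · rintro ⟨is, s1, h1, h2, h3⟩
    obtain ⟨sA, sE, s', h4, h5, h6, h7, h8⟩ := (key is s1).1 h3
    refine ⟨is, sA, sE, s', h1, h4, h5, h6, h7, ?_⟩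
    rw [h2, h8]
    ring
  · rintro ⟨is, sA, sE, s', h1, h4, h5, h6, h7, h8⟩
    refine ⟨is, _, h1, ?_, (key is _).2 ⟨sA, sE, s', h4, h5, h6, h7, rfl⟩⟩
    rw [h8]
    ring

end Par

end Pool.Agent.H10.RQ
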