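import Pool.Agent.H10.RQ.BMStep

/-!
# RQ BMRw: phase `rw` of the combination machine (the heads go back)

`wt n w`: tape `0` contains the word, the other tapes are blank. The heads of `e 0, e' 0, m 0` are at
`u - 1, u' - 1, v - 1` with `u, u', v` at most the length of the word; a head at `u - 1 ≥ 0` scans a
nonblank cell, at `-1` a blank. While not all three scan blanks (`u = u' = v = 0`) the only
transition is `Tr.back`: every positive one of `u, u', v` decreases by `1` (`u - 1`, truncated);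
if all scan blanks the only transition is `Tr.fwd` which leads to `.runA E'.start`, all three heads at
`0`. The tapes are not changed (the scanned symbols are written: `Function.update_eq_self`).
Induction on `max u (max u' v)` (or on `s`).
-/

set_option autoImplicit false

namespace Pool.Agent.H10.RQ

open Pool.Agent.Lead.NTM

namespace Par

variable {X Z : Type} (P : Par X Z) [Finite X] [Finite Z]

/-- a word on tape `0`, the other tapes blank -/
def wt {B G : Type} (n : ℕ) (w : List B) : Fin (n + 1) → ℤ → Option (B ⊕ G) :=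
  fun i => if i = 0 then wordTape w else fun _ => none

/-- the head of tape `0` at `p`, the other heads at `0` -/
def hd (n : ℕ) (p : ℤ) : Fin (n + 1) → ℤ := fun i => if i = 0 then p else 0

private lemma BMRw_arith1 {s s' u u' v : ℕ}
    (h : s = max (u - 1) (max (u' - 1) (v - 1)) + 1 + s') (hz : ¬ (u = 0 ∧ u' = 0 ∧ v = 0)) :
    s + 1 = max u (max u' v) + 1 + s' := by
  omega

private lemma BMRw_arith2 {s s' u u' v : ℕ}
    (h : s + 1 = max u (max u' v) + 1 + s') (hz : ¬ (u = 0 ∧ u' = 0 ∧ v = 0)) :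
    s = max (u - 1) (max (u' - 1) (v - 1)) + 1 + s' := by
  omega

private lemma BMRw_arith3 {s u u' v : ℕ} (hz : u = 0 ∧ u' = 0 ∧ v = 0) :
    s + 1 = max u (max u' v) + 1 + s := by
  omega

private lemma BMRw_arith4 {s s' u u' v : ℕ} (h : s + 1 = max u (max u' v) + 1 + s')
    (hz : u = 0 ∧ u' = 0 ∧ v = 0) : s' = s := by
  omega

private lemma BMRw_wt {B G : Type} (n : ℕ) (w : List B) (p : ℤ) :
    (wt n w : Fin (n + 1) → ℤ → Option (B ⊕ G)) 0 (hd n p 0) = wordTape w p := by
  unfold wt hd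
  rw [if_pos rfl, if_pos rfl]

private lemma BMRw_zero {B G : Type} (w : List B) :
    (wordTape w : ℤ → Option (B ⊕ G)) (((0 : ℕ) : ℤ) - 1) = none := by
  unfold wordTape
  rw [if_neg (by omega)]

private lemma BMRw_pos {B G : Type} (w : List B) (u : ℕ) (h0 : 0 < u) (hu : u ≤ w.length) :
    ∃ b, (wordTape w : ℤ → Option (B ⊕ G)) ((u : ℤ) - 1) = some b := by
  unfold wordTape
  rw [if_pos (by omega)]
  have h1 : ((u : ℤ) - 1).toNat < w.length := by omega
  rw [List.getElem?_eq_getElem h1]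
  exact ⟨_, rfl⟩

private lemma BMRw_iff {B G : Type} (w : List B) (u : ℕ) (hu : u ≤ w.length) :
    (wordTape w : ℤ → Option (B ⊕ G)) ((u : ℤ) - 1) = none ↔ u = 0 := by
  constructor
  · intro h
    by_contra h0
    obtain ⟨b, hb⟩ := BMRw_pos (G := G) w u (by omega) hu
    rw [h] at hb
    exact absurd hb (by simp)
  · rintro rfl
    exact BMRw_zero w

private lemma BMRw_mv {B G : Type} (w : List B) (u : ℕ) (hu : u ≤ w.length) :
    (u : ℤ) - 1 + (rwMove ((wordTape w : ℤ → Option (B ⊕ G)) ((u : ℤ) - 1))).toInt =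
      ((u - 1 : ℕ) : ℤ) - 1 := by
  rcases Nat.eq_zero_or_pos u with h | h
  · subst h
    rw [BMRw_zero]
    simp [rwMove, Move.toInt]
  · obtain ⟨b, hb⟩ := BMRw_pos (G := G) w u h hu
    rw [hb]
    simp only [rwMove, Move.toInt]
    omega

private lemma BMRw_hd (n : ℕ) (p : ℤ) (d : Move) :
    (fun i : Fin (n + 1) => hd n p i + (if i = 0 then d else Move.stay).toInt) =
      hd n (p + d.toInt) := by
  funext i
  unfold hd
  by_cases h : i = 0
  · rw [if_pos h, if_pos h, if_pos h]
  · rw [if_neg h, if_neg h, if_neg h]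
    rfl

private lemma BMRw_app (st : P.St) (a : ℤ → Option X) (pa : ℤ)
    (e : Fin (P.E.k + 1) → ℤ → Option (Unit ⊕ P.E.G)) (pe : Fin (P.E.k + 1) → ℤ)
    (e' : Fin (P.E'.k + 1) → ℤ → Option (Unit ⊕ P.E'.G)) (pe' : Fin (P.E'.k + 1) → ℤ)
    (m : Fin (P.M.k + 1) → ℤ → Option (Z ⊕ P.M.G)) (pm : Fin (P.M.k + 1) → ℤ)
    (c : Fin P.k → ℤ → Option Unit) (pc : Fin P.k → ℤ) (qu : List Bool)
    (d1 : Fin (P.E.k + 1) → Move) (d2 : Fin (P.E'.k + 1) → Move) (d3 : Fin (P.M.k + 1) → Move) :
    P.app a pa e pe e' pe' m pm c pc qu (st, P.rd a pa e pe e' pe' m pm c pc,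
      P.five (F := fun _ => Move) .stay d1 d2 d3 (fun _ => .stay), none) =
    P.cfg st a pa e (fun i => pe i + (d1 i).toInt) e' (fun i => pe' i + (d2 i).toInt)
      m (fun i => pm i + (d3 i).toInt) c pc qu := by
  apply P.gc_ext
  · rfl
  · funext i
    cases i <;> exact Function.update_eq_self _ _
  · funext i
    cases i with
    | inp => exact add_zero _
    | e i => rfl
    | e' i => rfl
    | m i => rfl
    | c i => exact add_zero _
  · exact List.append_nil _

theorem phaseRw (O : Set (List Bool)) (s : ℕ) (a : ℤ → Option X) (pa : ℤ) (n n' : ℕ)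
    (z : List Z) (u u' v : ℕ) (hu : u ≤ n) (hu' : u' ≤ n') (hv : v ≤ z.length) :
    GFrom O P.bm s (P.cfg .rw a pa (wt P.E.k (List.replicate n ())) (hd P.E.k ((u : ℤ) - 1))
        (wt P.E'.k (List.replicate n' ())) (hd P.E'.k ((u' : ℤ) - 1))
        (wt P.M.k z) (hd P.M.k ((v : ℤ) - 1)) (fun _ _ => none) (fun _ => 0) []) ↔
      ∃ s', s = max u (max u' v) + 1 + s' ∧
        GFrom O P.bm s' (P.cfg (.runA P.E'.start) a pa (wt P.E.k (List.replicate n ()))
          (fun _ => 0) (wt P.E'.k (List.replicate n' ())) (fun _ => 0) (wt P.M.k z) (fun _ => 0)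
          (fun _ _ => none) (fun _ => 0) []) := by
  induction s generalizing u u' v with
  | zero =>
    constructor
    · rintro ⟨q', -, h2⟩
      cases h2
    · rintro ⟨s', h, -⟩
      omega
  | succ s ih =>
    have hu1 : u - 1 ≤ n := by omega
    have hu2 : u' - 1 ≤ n' := by omega
    have hu3 : v - 1 ≤ z.length := by omega
    have hr1 := BMRw_iff (G := P.E.G) (List.replicate n ()) u (by simpa using hu)
    have hr2 := BMRw_iff (G := P.E'.G) (List.replicate n' ()) u' (by simpa using hu')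
    have hr3 := BMRw_iff (G := P.M.G) z v hv
    have hm1 := BMRw_mv (G := P.E.G) (List.replicate n ()) u (by simpa using hu)
    have hm2 := BMRw_mv (G := P.E'.G) (List.replicate n' ()) u' (by simpa using hu')
    have hm3 := BMRw_mv (G := P.M.G) z v hv
    -- the two possible steps
    have hback : P.app a pa (wt P.E.k (List.replicate n ())) (hd P.E.k ((u : ℤ) - 1))
        (wt P.E'.k (List.replicate n' ())) (hd P.E'.k ((u' : ℤ) - 1))
        (wt P.M.k z) (hd P.M.k ((v : ℤ) - 1)) (fun _ _ => none) (fun _ => 0) []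
        (.rw, P.rd a pa (wt P.E.k (List.replicate n ())) (hd P.E.k ((u : ℤ) - 1))
          (wt P.E'.k (List.replicate n' ())) (hd P.E'.k ((u' : ℤ) - 1))
          (wt P.M.k z) (hd P.M.k ((v : ℤ) - 1)) (fun _ _ => none) (fun _ => 0),
          P.five (F := fun _ => Move) .stay
            (fun i => if i = 0 then rwMove ((wt P.E.k (List.replicate n ()) :
              Fin (P.E.k + 1) → ℤ → Option (Unit ⊕ P.E.G)) 0 (hd P.E.k ((u : ℤ) - 1) 0)) else .stay)
            (fun i => if i = 0 then rwMove ((wt P.E'.k (List.replicate n' ()) :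
              Fin (P.E'.k + 1) → ℤ → Option (Unit ⊕ P.E'.G)) 0 (hd P.E'.k ((u' : ℤ) - 1) 0))
              else .stay)
            (fun i => if i = 0 then rwMove ((wt P.M.k z :
              Fin (P.M.k + 1) → ℤ → Option (Z ⊕ P.M.G)) 0 (hd P.M.k ((v : ℤ) - 1) 0)) else .stay)
            (fun _ => .stay), none) =
        P.cfg .rw a pa (wt P.E.k (List.replicate n ())) (hd P.E.k (((u - 1 : ℕ) : ℤ) - 1))
          (wt P.E'.k (List.replicate n' ())) (hd P.E'.k (((u' - 1 : ℕ) : ℤ) - 1))
          (wt P.M.k z) (hd P.M.k (((v - 1 : ℕ) : ℤ) - 1)) (fun _ _ => none) (fun _ => 0) [] := by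
      rw [BMRw_app, BMRw_hd, BMRw_hd, BMRw_hd, BMRw_wt, BMRw_wt, BMRw_wt, hm1, hm2, hm3]
    have hfwd : u = 0 → u' = 0 → v = 0 →
        P.app a pa (wt P.E.k (List.replicate n ())) (hd P.E.k ((u : ℤ) - 1))
        (wt P.E'.k (List.replicate n' ())) (hd P.E'.k ((u' : ℤ) - 1))
        (wt P.M.k z) (hd P.M.k ((v : ℤ) - 1)) (fun _ _ => none) (fun _ => 0) []
        (.runA P.E'.start, P.rd a pa (wt P.E.k (List.replicate n ())) (hd P.E.k ((u : ℤ) - 1))
          (wt P.E'.k (List.replicate n' ())) (hd P.E'.k ((u' : ℤ) - 1))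
          (wt P.M.k z) (hd P.M.k ((v : ℤ) - 1)) (fun _ _ => none) (fun _ => 0),
          P.five (F := fun _ => Move) .stay (fun i => if i = 0 then .right else .stay)
            (fun i => if i = 0 then .right else .stay) (fun i => if i = 0 then .right else .stay)
            (fun _ => .stay), none) =
        P.cfg (.runA P.E'.start) a pa (wt P.E.k (List.replicate n ()))
          (fun _ => 0) (wt P.E'.k (List.replicate n' ())) (fun _ => 0) (wt P.M.k z) (fun _ => 0)
          (fun _ _ => none) (fun _ => 0) [] := by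
      rintro rfl rfl rfl
      have h0 : ∀ n : ℕ, hd n (((0 : ℕ) : ℤ) - 1 + Move.right.toInt) = fun _ => 0 := by
        intro n
        funext i
        unfold hd
        split_ifs <;> rfl
      rw [BMRw_app, BMRw_hd, BMRw_hd, BMRw_hd, h0, h0, h0]
    have hcond : (P.rd a pa (wt P.E.k (List.replicate n ())) (hd P.E.k ((u : ℤ) - 1))
          (wt P.E'.k (List.replicate n' ())) (hd P.E'.k ((u' : ℤ) - 1))
          (wt P.M.k z) (hd P.M.k ((v : ℤ) - 1)) (fun _ _ => none) (fun _ => 0) (.e 0) = none ∧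
        P.rd a pa (wt P.E.k (List.replicate n ())) (hd P.E.k ((u : ℤ) - 1))
          (wt P.E'.k (List.replicate n' ())) (hd P.E'.k ((u' : ℤ) - 1))
          (wt P.M.k z) (hd P.M.k ((v : ℤ) - 1)) (fun _ _ => none) (fun _ => 0) (.e' 0) = none ∧
        P.rd a pa (wt P.E.k (List.replicate n ())) (hd P.E.k ((u : ℤ) - 1))
          (wt P.E'.k (List.replicate n' ())) (hd P.E'.k ((u' : ℤ) - 1))
          (wt P.M.k z) (hd P.M.k ((v : ℤ) - 1)) (fun _ _ => none) (fun _ => 0) (.m 0) = none) ↔
        (u = 0 ∧ u' = 0 ∧ v = 0) := by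
      rw [← hr1, ← hr2, ← hr3, ← BMRw_wt P.E.k, ← BMRw_wt P.E'.k, ← BMRw_wt P.M.k]
      exact Iff.rfl
    constructor
    · rintro ⟨c', h1, h2⟩
      rw [P.step_iff] at h1
      rcases h1 with ⟨r, hr, rfl⟩ | ⟨r, hr, h0, -⟩
      · cases hr with
        | back x hx =>
          rw [hcond] at hx
          have h3 : GFrom O P.bm s (P.cfg .rw a pa (wt P.E.k (List.replicate n ()))
              (hd P.E.k (((u - 1 : ℕ) : ℤ) - 1))
              (wt P.E'.k (List.replicate n' ())) (hd P.E'.k (((u' - 1 : ℕ) : ℤ) - 1))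
              (wt P.M.k z) (hd P.M.k (((v - 1 : ℕ) : ℤ) - 1)) (fun _ _ => none) (fun _ => 0) []) := by
            rw [← hback]
            exact h2
          obtain ⟨s', hs', h4⟩ := (ih (u - 1) (u' - 1) (v - 1) hu1 hu2 hu3).1 h3
          exact ⟨s', BMRw_arith1 hs' hx, h4⟩
        | fwd x hx =>
          rw [hcond] at hx
          refine ⟨s, BMRw_arith3 hx, ?_⟩
          rw [← hfwd hx.1 hx.2.1 hx.2.2]
          exact h2
      · cases h0
    · rintro ⟨s', hs', h4⟩
      by_cases hz : u = 0 ∧ u' = 0 ∧ v = 0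
      · have e : s' = s := BMRw_arith4 hs' hz
        subst e
        rw [← hfwd hz.1 hz.2.1 hz.2.2] at h4
        exact ⟨_, (P.step_iff _ _ _ _ _ _ _ _ _ _ _ _ _ _).2
          (Or.inl ⟨_, Tr.fwd _ (hcond.2 hz), rfl⟩), h4⟩
      · have h3 := (ih (u - 1) (u' - 1) (v - 1) hu1 hu2 hu3).2
          ⟨s', BMRw_arith2 hs' hz, h4⟩
        rw [← hback] at h3
        exact ⟨_, (P.step_iff _ _ _ _ _ _ _ _ _ _ _ _ _ _).2
          (Or.inl ⟨_, Tr.back _ (fun h => hz (hcond.1 h)), rfl⟩), h3⟩

end Par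

end Pool.Agent.H10.RQ
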