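import Pool.Agent.H10.RQ.BM

/-!
# RQ BMStep: one step of the combination machine in terms of the parts of the configuration
-/

set_option autoImplicit false

namespace Pool.Agent.H10.RQ

open Pool.Agent.Lead.NTM

namespace Par

variable {X Z : Type} (P : Par X Z)

theorem five_eta {F : P.TI → Type} (f : ∀ i, F i) :
    P.five (f .inp) (fun i => f (.e i)) (fun i => f (.e' i)) (fun i => f (.m i))
      (fun i => f (.c i)) = f := by
  funext i
  cases i <;> rfl

/-- the scanned symbols -/
def rd (a : ℤ → Option X) (pa : ℤ)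
    (e : Fin (P.E.k + 1) → ℤ → Option (Unit ⊕ P.E.G)) (pe : Fin (P.E.k + 1) → ℤ)
    (e' : Fin (P.E'.k + 1) → ℤ → Option (Unit ⊕ P.E'.G)) (pe' : Fin (P.E'.k + 1) → ℤ)
    (m : Fin (P.M.k + 1) → ℤ → Option (Z ⊕ P.M.G)) (pm : Fin (P.M.k + 1) → ℤ)
    (c : Fin P.k → ℤ → Option Unit) (pc : Fin P.k → ℤ) : P.Sym :=
  P.five (F := fun i => Option (P.Γ i)) (a pa) (fun i => e i (pe i)) (fun i => e' i (pe' i))
    (fun i => m i (pm i)) (fun i => c i (pc i))

section

variable [Finite X] [Finite Z]
variable (O : Set (List Bool)) (st : P.St) (a : ℤ → Option X) (pa : ℤ)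
    (e : Fin (P.E.k + 1) → ℤ → Option (Unit ⊕ P.E.G)) (pe : Fin (P.E.k + 1) → ℤ)
    (e' : Fin (P.E'.k + 1) → ℤ → Option (Unit ⊕ P.E'.G)) (pe' : Fin (P.E'.k + 1) → ℤ)
    (m : Fin (P.M.k + 1) → ℤ → Option (Z ⊕ P.M.G)) (pm : Fin (P.M.k + 1) → ℤ)
    (c : Fin P.k → ℤ → Option Unit) (pc : Fin P.k → ℤ) (qu : List Bool)

theorem rd_cfg : (fun i => (P.cfg st a pa e pe e' pe' m pm c pc qu).tape i
    ((P.cfg st a pa e pe e' pe' m pm c pc qu).pos i)) = P.rd a pa e pe e' pe' m pm c pc := by
  funext i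
  cases i <;> rfl

theorem gc_ext {c d : GC P.bm} (h1 : c.state = d.state) (h2 : c.tape = d.tape)
    (h3 : c.pos = d.pos) (h4 : c.query = d.query) : c = d := by
  cases c
  cases d
  simp_all

/-- the configuration after an action (`r` given by the new state, the symbols written, the head
moves and the bit for the query tape) -/
noncomputable def app (r : P.St × P.Sym × (P.TI → Move) × Option Bool) : GC P.bm :=
  P.cfg r.1 (Function.update a pa (r.2.1 .inp)) (pa + (r.2.2.1 .inp).toInt)
    (fun i => Function.update (e i) (pe i) (r.2.1 (.e i))) (fun i => pe i + (r.2.2.1 (.e i)).toInt)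
    (fun i => Function.update (e' i) (pe' i) (r.2.1 (.e' i)))
    (fun i => pe' i + (r.2.2.1 (.e' i)).toInt)
    (fun i => Function.update (m i) (pm i) (r.2.1 (.m i))) (fun i => pm i + (r.2.2.1 (.m i)).toInt)
    (fun i => Function.update (c i) (pc i) (r.2.1 (.c i))) (fun i => pc i + (r.2.2.1 (.c i)).toInt)
    (qu ++ r.2.2.2.toList)

/-- a step of the combination machine: an action or a query -/
theorem step_iff (d : GC P.bm) : GStep O P.bm (P.cfg st a pa e pe e' pe' m pm c pc qu) d ↔
    (∃ r, P.Tr st (P.rd a pa e pe e' pe' m pm c pc) r ∧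
      d = P.app a pa e pe e' pe' m pm c pc qu r) ∨
    (∃ r ∈ P.M.ask, st = .runC r.1 ∧ ∃ st', (qu ∈ O → st' = .runC r.2.1) ∧
      (qu ∉ O → st' = .runC r.2.2) ∧ d = P.cfg st' a pa e pe e' pe' m pm c pc []) := by
  classical
  unfold GStep
  rw [P.rd_cfg]
  constructor
  · rintro (⟨r, hr, h1, h2, h3, h4⟩ | ⟨r, ⟨r', hr', rfl⟩, h0, h1, h2, h3, h4⟩)
    · refine Or.inl ⟨r, hr, ?_⟩
      apply P.gc_ext
      · exact h1
      · rw [h2]
        funext i
        cases i <;> rfl
      · rw [h3]
        funext i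
        cases i <;> rfl
      · exact h4
    · refine Or.inr ⟨r', hr', h0, if qu ∈ O then .runC r'.2.1 else .runC r'.2.2,
        fun h => by rw [if_pos h], fun h => by rw [if_neg h], ?_⟩
      apply P.gc_ext
      · rw [h1]
        by_cases hq : qu ∈ O
        · have : (P.cfg st a pa e pe e' pe' m pm c pc qu).query ∈ O := hq
          rw [if_pos this]
          show _ = if qu ∈ O then _ else _
          rw [if_pos hq]
        · have : (P.cfg st a pa e pe e' pe' m pm c pc qu).query ∉ O := hq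
          rw [if_neg this]
          show _ = if qu ∈ O then _ else _
          rw [if_neg hq]
      · exact h2
      · exact h3
      · exact h4
  · rintro (⟨r, hr, rfl⟩ | ⟨r, hr, h0, st', h1, h2, rfl⟩)
    · refine Or.inl ⟨r, hr, rfl, ?_, ?_, rfl⟩
      · funext i
        cases i <;> rfl
      · funext i
        cases i <;> rfl
    · refine Or.inr ⟨(.runC r.1, .runC r.2.1, .runC r.2.2), ⟨r, hr, rfl⟩, h0, ?_, rfl, rfl, rfl⟩
      show st' = if qu ∈ O then _ else _
      by_cases hq : qu ∈ O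
      · rw [if_pos hq, h1 hq]
      · rw [if_neg hq, h2 hq]

end

end Par

end Pool.Agent.H10.RQ
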