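import Pool.Agent.H10.RQ.Defs

/-!
# RQ Build: the oracle with coded computations

`orc S X`: the words of `X` and the coding words `cw p b` with `b = true` iff the computation `p`
accepts relative to the oracle itself (recursion on the length).
-/

set_option autoImplicit false

namespace Pool.Agent.H10.RQ

theorem HasUse.congr {P : Set W → Prop} {T : ℕ} (h : HasUse P T) {O O' : Set W}
    (hO : ∀ x : W, x.length ≤ T → (x ∈ O ↔ x ∈ O')) : P O ↔ P O' := by
  constructor
  · intro hP
    obtain ⟨S, -, h2, h3⟩ := h O hP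
    exact h3 O' fun x hx => hO x (h2 x hx)
  · intro hP
    obtain ⟨S, -, h2, h3⟩ := h O' hP
    exact h3 O fun x hx => (hO x (h2 x hx)).symm

/-- a system of coded computations -/
structure Sys (P : Type) where
  T : P → ℕ
  acc : P → Set W → Prop
  use : ∀ p, HasUse (acc p) (T p)
  cw : P → Bool → W
  cw_inj : ∀ p b p' b', cw p b = cw p' b' → p = p' ∧ b = b'
  sq_le : ∀ p b, (T p + 1) ^ 2 ≤ (cw p b).length

variable {P : Type} (S : Sys P) (X : Set W)

theorem Sys.T_lt (p : P) (b : Bool) : S.T p < (S.cw p b).length := by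
  have := S.sq_le p b
  nlinarith

/-- the words of length `< n` of the oracle -/
def lvl : ℕ → Set W
  | 0 => ∅
  | n + 1 => lvl n ∪ {x | x.length = n ∧
      (x ∈ X ∨ ∃ p b, x = S.cw p b ∧ (b = true ↔ S.acc p (lvl n)))}

/-- the oracle -/
def orc : Set W := {x | x ∈ lvl S X (x.length + 1)}

theorem lvl_length {n : ℕ} {x : W} (h : x ∈ lvl S X n) : x.length < n := by
  induction n with
  | zero => exact absurd h (by simp [lvl])
  | succ n ih =>
    rcases h with h | h
    · have := ih h
      omega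
    · have := h.1
      omega

theorem lvl_succ_of_lt {n : ℕ} {x : W} (h : x.length < n) :
    x ∈ lvl S X (n + 1) ↔ x ∈ lvl S X n := by
  constructor
  · rintro (h' | h')
    · exact h'
    · exact absurd h'.1 (by omega)
  · exact fun h' => Or.inl h'

theorem lvl_of_lt {n m : ℕ} (hnm : n ≤ m) {x : W} (h : x.length < n) :
    x ∈ lvl S X m ↔ x ∈ lvl S X n := by
  induction m, hnm using Nat.le_induction with
  | base => exact Iff.rfl
  | succ m hm ih => rw [lvl_succ_of_lt S X (by omega), ih]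

theorem mem_lvl {n : ℕ} {x : W} : x ∈ lvl S X n ↔ x.length < n ∧ x ∈ orc S X := by
  constructor
  · intro h
    have h1 := lvl_length S X h
    exact ⟨h1, (lvl_of_lt S X (n := x.length + 1) (m := n) (by omega) (by omega)).mp h⟩
  · rintro ⟨h1, h2⟩
    exact (lvl_of_lt S X (n := x.length + 1) (m := n) (by omega) (by omega)).mpr h2

theorem acc_lvl {p : P} {n : ℕ} (h : S.T p < n) :
    S.acc p (lvl S X n) ↔ S.acc p (orc S X) := by
  refine (S.use p).congr fun x hx => ?_
  rw [mem_lvl]
  exact ⟨fun h' => h'.2, fun h' => ⟨by omega, h'⟩⟩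

theorem mem_orc {x : W} :
    x ∈ orc S X ↔ x ∈ X ∨ ∃ p b, x = S.cw p b ∧ (b = true ↔ S.acc p (orc S X)) := by
  have h0 : x ∈ orc S X ↔ x ∈ lvl S X (x.length + 1) := Iff.rfl
  rw [h0]
  constructor
  · rintro (h | ⟨-, h | ⟨p, b, h1, h2⟩⟩)
    · exact absurd (lvl_length S X h) (by omega)
    · exact Or.inl h
    · refine Or.inr ⟨p, b, h1, ?_⟩
      rw [← acc_lvl S X (n := x.length) (by rw [h1]; exact S.T_lt p b)]
      exact h2
  · rintro (h | ⟨p, b, h1, h2⟩)
    · exact Or.inr ⟨rfl, Or.inl h⟩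
    · refine Or.inr ⟨rfl, Or.inr ⟨p, b, h1, ?_⟩⟩
      rw [acc_lvl S X (n := x.length) (by rw [h1]; exact S.T_lt p b)]
      exact h2

theorem cw_mem_orc {p : P} {b : Bool} (h : S.cw p b ∉ X) :
    S.cw p b ∈ orc S X ↔ (b = true ↔ S.acc p (orc S X)) := by
  rw [mem_orc]
  constructor
  · rintro (h' | ⟨p', b', h1, h2⟩)
    · exact absurd h' h
    · obtain ⟨rfl, rfl⟩ := S.cw_inj _ _ _ _ h1
      exact h2
  · intro h'
    exact Or.inr ⟨p, b, rfl, h'⟩

theorem orc_congr {X X' : Set W} {n : ℕ} (h : ∀ x : W, x.length < n → (x ∈ X ↔ x ∈ X')) :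
    ∀ x : W, x.length < n → (x ∈ orc S X ↔ x ∈ orc S X') := by
  have key : ∀ m ≤ n, lvl S X m = lvl S X' m := by
    intro m
    induction m with
    | zero => intro _; rfl
    | succ m ih =>
      intro hm
      have e := ih (by omega)
      show lvl S X m ∪ _ = lvl S X' m ∪ _
      rw [e]
      congr 1
      ext x
      simp only [Set.mem_setOf_eq]
      constructor
      · rintro ⟨h1, h2⟩
        refine ⟨h1, ?_⟩
        rcases h2 with h2 | h2
        · exact Or.inl ((h x (by omega)).mp h2)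
        · exact Or.inr h2
      · rintro ⟨h1, h2⟩
        refine ⟨h1, ?_⟩
        rcases h2 with h2 | h2
        · exact Or.inl ((h x (by omega)).mpr h2)
        · exact Or.inr h2
  intro x hx
  have h1 : x ∈ lvl S X n ↔ x ∈ lvl S X' n := by rw [key n le_rfl]
  rw [mem_lvl, mem_lvl] at h1
  constructor
  · intro h2
    exact (h1.mp ⟨hx, h2⟩).2
  · intro h2
    exact (h1.mpr ⟨hx, h2⟩).2

end Pool.Agent.H10.RQ
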