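import Pool.Agent.H10.RQ.Main

/-!
# RQ Comp: all computable time bounds at once
-/

set_option autoImplicit false

namespace Pool.Agent.H10.RQ

theorem countable_computable : {t : ℕ → ℕ | Computable t}.Countable := by
  have h : ∀ t : {t : ℕ → ℕ | Computable t}, ∃ c : Nat.Partrec.Code,
      c.eval = fun n => Part.some (t.1 n) := by
    rintro ⟨t, ht⟩
    have h1 : Nat.Partrec (fun n => Part.some (t n)) := by
      have := ht.partrec
      exact Partrec.nat_iff.mp this
    exact Nat.Partrec.Code.exists_code.mp h1
  choose f hf using h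
  have hinj : Function.Injective f := by
    intro t t' htt
    have h1 := hf t
    have h2 := hf t'
    rw [htt, h2] at h1
    apply Subtype.ext
    funext n
    have h3 := congrFun h1 n
    exact (Part.some_inj.mp h3).symm
  exact Set.countable_coe_iff.mp hinj.countable

theorem main_computable (𝒯 : Set (ℕ → ℕ)) :
    ∃ O : Set (List Bool), ∀ t : ℕ → ℕ, Computable t → (∀ n, n ≤ t n) →
      (∀ (A : Type) [Finite A] [Nontrivial A],
        ONTIME O A t = OcoNTIME O A t ↔ Covered 𝒯 t) ∧
      (Covered 𝒯 t → ∀ (A : Type) [Finite A],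
        ONTIME O A t = OcoNTIME O A t ∧ ONTIME O A t = ODTIME O A t) := by
  obtain ⟨O, hO⟩ := main {t | Computable t} countable_computable 𝒯
  refine ⟨O, fun t ht hid => ⟨fun A _ _ => ⟨fun h => ?_, fun h => ((hO t ht hid).1 h A).1⟩,
    fun h A _ => (hO t ht hid).1 h A⟩⟩
  by_contra hcon
  exact (hO t ht hid).2 hcon A h

end Pool.Agent.H10.RQ
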