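import Pool.Agent.Lead.NTM

/-!
# RQ: relativised `NTIME(Pol t)` (definitions)

Oracle machines: the nondeterministic multitape machines of `Lead.NTM` with a write-only query tape
(its content is a word over `{0,1}`, erased by every query), the relativised classes
`NTIME^O(Pol t)`, `coNTIME^O(Pol t)`, `DTIME^O(Pol t)`, and the covering relation.
-/

set_option autoImplicit false

namespace Pool.Agent.H10.RQ

open Pool.Agent.Lead.NTM

/-- A nondeterministic multitape oracle Turing machine with input alphabet `A`. It has `k + 1`
two-way infinite tapes (the input is written on tape `0`) and a write-only query tape for words over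
`Bool`. The tape alphabet consists of the letters of `A`, the finitely many extra letters `G` and
the blank `none`. `δ q x` is the set of the possible actions in state `q` when `x` is the tuple of
scanned letters: new state, letters to write, head moves, and possibly a bit written on the query
tape. A triple `(q, q₁, q₂) ∈ ask` allows the machine to ask in state `q` whether the word on the
query tape belongs to the oracle; the new state is `q₁` if it does and `q₂` if it does not. -/
structure OMachine (A : Type) where
  /-- number of additional tapes -/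
  k : ℕ
  /-- states -/
  Q : Type
  finQ : Finite Q
  /-- additional tape letters -/
  G : Type
  finG : Finite G
  /-- start state -/
  start : Q
  /-- accepting states -/
  accepting : Set Q
  /-- ordinary transitions -/
  δ : Q → (Fin (k + 1) → Option (A ⊕ G)) →
    Set (Q × (Fin (k + 1) → Option (A ⊕ G)) × (Fin (k + 1) → Move) × Option Bool)
  /-- queries -/
  ask : Set (Q × Q × Q)

/-- A configuration: state, tape contents, head positions, content of the query tape. -/
structure OConfig {A : Type} (M : OMachine A) where
  state : M.Q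
  tape : Fin (M.k + 1) → ℤ → Option (A ⊕ M.G)
  pos : Fin (M.k + 1) → ℤ
  query : List Bool

/-- The starting configuration on input `w`. -/
def oStart {A : Type} (M : OMachine A) (w : List A) : OConfig M where
  state := M.start
  tape := fun i => if i = 0 then wordTape w else fun _ => none
  pos := fun _ => 0
  query := []

open Classical in
/-- One computation step relative to the oracle `O`. -/
def OStep {A : Type} (O : Set (List Bool)) (M : OMachine A) (c c' : OConfig M) : Prop :=
  (∃ r ∈ M.δ c.state (fun i => c.tape i (c.pos i)),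
    c'.state = r.1 ∧
    c'.tape = (fun i => Function.update (c.tape i) (c.pos i) (r.2.1 i)) ∧
    c'.pos = (fun i => c.pos i + (r.2.2.1 i).toInt) ∧
    c'.query = c.query ++ r.2.2.2.toList) ∨
  (∃ r ∈ M.ask, c.state = r.1 ∧
    c'.state = (if c.query ∈ O then r.2.1 else r.2.2) ∧
    c'.tape = c.tape ∧ c'.pos = c.pos ∧ c'.query = [])

/-- Relative to the oracle `O`, `M` has an accepting computation of exactly `s` steps on the input
`w`. -/
def OAcceptsIn {A : Type} (O : Set (List Bool)) (M : OMachine A) (w : List A) (s : ℕ) : Prop :=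
  ∃ c : ℕ → OConfig M, c 0 = oStart M w ∧ (∀ i < s, OStep O M (c i) (c (i + 1))) ∧
    (c s).state ∈ M.accepting

/-- The class `NTIME^O(Pol t)` of languages over the alphabet `A`: relative to `O` some
nondeterministic machine accepts exactly `L`, and for some polynomial `p` every `w ∈ L` has an
accepting computation of length at most `p(t(|w|))`. -/
def ONTIME (O : Set (List Bool)) (A : Type) (t : ℕ → ℕ) : Set (Set (List A)) :=
  {L | ∃ (M : OMachine A) (p : Polynomial ℕ), (∀ w, w ∈ L ↔ ∃ s, OAcceptsIn O M w s) ∧
    ∀ w ∈ L, ∃ s ≤ p.eval (t w.length), OAcceptsIn O M w s}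

/-- The class `coNTIME^O(Pol t)`: complements of the languages in `NTIME^O(Pol t)`. -/
def OcoNTIME (O : Set (List Bool)) (A : Type) (t : ℕ → ℕ) : Set (Set (List A)) :=
  {L | Lᶜ ∈ ONTIME O A t}

/-- `M` is deterministic: in every situation there is at most one action. -/
def OMachine.Det {A : Type} (M : OMachine A) : Prop :=
  (∀ q x, (M.δ q x).Subsingleton) ∧ (∀ q, {r ∈ M.ask | r.1 = q}.Subsingleton) ∧
    ∀ r ∈ M.ask, ∀ x, M.δ r.1 x = ∅

/-- The class `DTIME^O(Pol t)`. -/
def ODTIME (O : Set (List Bool)) (A : Type) (t : ℕ → ℕ) : Set (Set (List A)) :=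
  {L | ∃ (M : OMachine A) (p : Polynomial ℕ), M.Det ∧ (∀ w, w ∈ L ↔ ∃ s, OAcceptsIn O M w s) ∧
    ∀ w ∈ L, ∃ s ≤ p.eval (t w.length), OAcceptsIn O M w s}

/-- `t` is covered by the finite set `F` with constant `C`: every value `t n` is polynomially
related to a value `t' m` of a function `t' ∈ F` with `n ≤ C m + C`. -/
def CoveredBy (F : Finset (ℕ → ℕ)) (C : ℕ) (t : ℕ → ℕ) : Prop :=
  ∀ n, ∃ t' ∈ F, ∃ m, n ≤ C * m + C ∧ t' m ≤ t n ^ C + C ∧ t n ≤ t' m ^ C + C

/-- `t` is covered by the set `𝒯` of functions. -/
def Covered (𝒯 : Set (ℕ → ℕ)) (t : ℕ → ℕ) : Prop :=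
  ∃ (F : Finset (ℕ → ℕ)) (C : ℕ), (∀ t' ∈ F, t' ∈ 𝒯) ∧ CoveredBy F C t

/-- Words over `Bool`. -/
abbrev W := List Bool

/-- Acceptance within `T` steps. -/
def accWithin {A : Type} (O : Set W) (M : OMachine A) (w : List A) (T : ℕ) : Prop :=
  ∃ s ≤ T, OAcceptsIn O M w s

/-- The property `P` of oracles is determined, once it holds, by at most `T` answers to questions of
length at most `T`. -/
def HasUse (P : Set W → Prop) (T : ℕ) : Prop :=
  ∀ O, P O → ∃ S : Finset W, S.card ≤ T ∧ (∀ x ∈ S, x.length ≤ T) ∧
    ∀ O' : Set W, (∀ x ∈ S, (x ∈ O ↔ x ∈ O')) → P O'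

/-- self-delimiting code of a word whose letters are coded by numbers -/
def enc : List ℕ → W
  | [] => [false]
  | a :: l => true :: (List.replicate a true ++ false :: enc l)

/-- descriptions of the machines over `Fin a` with states `Fin q` and extra letters `Fin g` -/
structure MD (a : ℕ) where
  k : ℕ
  q : ℕ
  g : ℕ
  start : Fin q
  acc : Set (Fin q)
  δ : Fin q → (Fin (k + 1) → Option (Fin a ⊕ Fin g)) →
    Set (Fin q × (Fin (k + 1) → Option (Fin a ⊕ Fin g)) × (Fin (k + 1) → Move) × Option Bool)
  ask : Set (Fin q × Fin q × Fin q)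

/-- the machine described by `m` -/
def MD.toM {a : ℕ} (m : MD a) : OMachine (Fin a) where
  k := m.k
  Q := Fin m.q
  finQ := inferInstance
  G := Fin m.g
  finG := inferInstance
  start := m.start
  accepting := m.acc
  δ := m.δ
  ask := m.ask

end Pool.Agent.H10.RQ
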