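import Pool.Agent.H10.RQ.Defs

/-!
# RQ Det: the deterministic search machine

For `l' = 0, 1, 2, …` and `b'' = false, true` the machine asks whether
`u ++ (enc (w.map f) ++ b'' :: true^l')` belongs to the oracle. At the first positive answer it stops,
and accepts iff `b'' = b`.

Machine: two tapes (`k = 1`); tape `0`: the input; tape `1`: `l'` marks on the cells `0, …, l'-1`
(`G = Unit`). The states are triples (phase, word waiting to be written on the query tape, `b''`).
-/

set_option autoImplicit false

namespace Pool.Agent.H10.RQ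

open Pool.Agent.Lead.NTM

namespace Search

/-- phases of a round -/
inductive Ph where
  | rd
  | mk
  | ask
  | no
  | bk
  | acc
  | rej

/-- number of a phase -/
def Ph.num : Ph → Fin 7
  | .rd => 0
  | .mk => 1
  | .ask => 2
  | .no => 3
  | .bk => 4
  | .acc => 5
  | .rej => 6

theorem Ph.num_inj : Function.Injective Ph.num := by
  intro a b h
  cases a <;> cases b <;> simp_all [Ph.num]

/-- pending words -/
abbrev PW (N : ℕ) := {p : W // p.length ≤ N}

/-- states -/
abbrev St (N : ℕ) := Ph × PW N × Bool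

theorem finite_St (N : ℕ) : Finite (St N) := by
  have : Finite Ph := Finite.of_injective _ Ph.num_inj
  have : Finite (PW N) := (List.finite_length_le Bool N).to_subtype
  infer_instance

/-- `n` steps of a relation -/
inductive Run {α : Type} (R : α → α → Prop) : ℕ → α → α → Prop
  | refl (a : α) : Run R 0 a a
  | step {n : ℕ} {a b c : α} : R a b → Run R n b c → Run R (n + 1) a c

theorem Run.trans {α : Type} {R : α → α → Prop} {m n : ℕ} {a b c : α} (h1 : Run R m a b)
    (h2 : Run R n b c) : Run R (m + n) a c := by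
  induction h1 with
  | refl a => simpa using h2
  | @step m a b c' h _ ih =>
    have := Run.step h (ih h2)
    rwa [show m + n + 1 = m + 1 + n by omega] at this

theorem Run.one {α : Type} {R : α → α → Prop} {a b : α} (h : R a b) : Run R 1 a b :=
  Run.step h (Run.refl b)

theorem Run.seq {α : Type} {R : α → α → Prop} {n : ℕ} {a b : α} (h : Run R n a b) :
    ∃ c : ℕ → α, c 0 = a ∧ (∀ i < n, R (c i) (c (i + 1))) ∧ c n = b := by
  induction h with
  | refl a => exact ⟨fun _ => a, rfl, by intro i hi; omega, rfl⟩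
  | @step n a b c h _ ih =>
    obtain ⟨s, h0, h1, h2⟩ := ih
    refine ⟨fun i => match i with | 0 => a | (j + 1) => s j, rfl, ?_, h2⟩
    intro i hi
    cases i with
    | zero => simpa [h0] using h
    | succ j => exact h1 j (by omega)

/-- tape with `m` marks -/
def marks {A : Type} (m : ℕ) : ℤ → Option (A ⊕ Unit) :=
  fun z => if 0 ≤ z ∧ z < m then some (Sum.inr ()) else none

/-- rest of a pending word -/
def pt {N : ℕ} (p : PW N) : PW N := ⟨p.1.tail, by
  have := p.2
  rw [List.length_tail]
  omega⟩

/-- block of a number -/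
def blk (n : ℕ) : W := true :: (List.replicate n true ++ [false])

theorem blk_length (n : ℕ) : (blk n).length = n + 2 := by
  simp [blk]

/-- the action: new state, whether to write a mark on tape `1`, moves, bit for the query tape -/
def act {A : Type} (u : W) (f : A → ℕ) (F : ℕ) (hF : ∀ a, f a ≤ F) (q : St (u.length + F + 2))
    (x0 x1 : Option (A ⊕ Unit)) :
    Option (St (u.length + F + 2) × Bool × Move × Move × Option Bool) :=
  match q.1 with
  | .rd =>
    match q.2.1.1 with
    | x :: _ => some ((.rd, pt q.2.1, q.2.2), false, .stay, .stay, some x)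
    | [] =>
      match x0 with
      | some (Sum.inl a) => some ((.rd, ⟨blk (f a), by
          have := hF a
          rw [blk_length]
          omega⟩, q.2.2), false, .right, .stay, none)
      | _ => some ((.mk, ⟨[false, q.2.2], by simp⟩, q.2.2), false, .stay, .stay, none)
  | .mk =>
    match q.2.1.1 with
    | x :: _ => some ((.mk, pt q.2.1, q.2.2), false, .stay, .stay, some x)
    | [] =>
      match x1 with
      | some _ => some ((.mk, q.2.1, q.2.2), false, .stay, .right, some true)
      | none => some ((.ask, q.2.1, q.2.2), false, .stay, .stay, none)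
  | .ask => none
  | .no => some ((.bk, q.2.1, !q.2.2), q.2.2, .left, .left, none)
  | .bk =>
    match x0, x1 with
    | none, none => some ((.rd, ⟨u, by omega⟩, q.2.2), false, .right, .right, none)
    | some _, none => some ((.bk, q.2.1, q.2.2), false, .left, .stay, none)
    | none, some _ => some ((.bk, q.2.1, q.2.2), false, .stay, .left, none)
    | some _, some _ => some ((.bk, q.2.1, q.2.2), false, .left, .left, none)
  | .acc => none
  | .rej => none

/-- the machine -/
def mach {A : Type} (u : W) (f : A → ℕ) (b : Bool) (F : ℕ) (hF : ∀ a, f a ≤ F) : OMachine A where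
  k := 1
  Q := St (u.length + F + 2)
  finQ := finite_St _
  G := Unit
  finG := inferInstance
  start := (.rd, ⟨u, by omega⟩, false)
  accepting := {q | q.1 = .acc}
  δ := fun q x => {r | ∃ s, act u f F hF q (x 0) (x 1) = some s ∧
    r = (s.1, ![x 0, if s.2.1 then some (Sum.inr ()) else x 1], ![s.2.2.1, s.2.2.2.1],
      s.2.2.2.2)}
  ask := {r | r.1.1 = .ask ∧ r.2.1 = ((if r.1.2.2 = b then .acc else .rej), r.1.2.1, r.1.2.2) ∧
    r.2.2 = (.no, r.1.2.1, r.1.2.2)}

theorem mach_det {A : Type} (u : W) (f : A → ℕ) (b : Bool) (F : ℕ) (hF : ∀ a, f a ≤ F) :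
    (mach u f b F hF).Det := by
  refine ⟨?_, ?_, ?_⟩
  · rintro q x r ⟨s, hs, rfl⟩ r' ⟨s', hs', rfl⟩
    rw [hs] at hs'
    rw [Option.some.inj hs']
  · rintro q r ⟨⟨-, h1, h2⟩, h3⟩ r' ⟨⟨-, h1', h2'⟩, h3'⟩
    have e : r.1 = r'.1 := h3.trans h3'.symm
    refine Prod.ext e (Prod.ext ?_ ?_)
    · rw [h1, h1', e]
    · rw [h2, h2', e]
  · rintro r ⟨h1, -, -⟩ x
    refine Set.eq_empty_iff_forall_notMem.2 ?_
    rintro s ⟨s', hs', -⟩
    unfold act at hs'
    rw [h1] at hs'
    simp at hs'

/-- deterministic machines have deterministic steps -/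
theorem step_unique {A : Type} {O : Set W} {M : OMachine A} (hM : M.Det) {c c' c'' : OConfig M}
    (h1 : OStep O M c c') (h2 : OStep O M c c'') : c' = c'' := by
  obtain ⟨hd1, hd2, hd3⟩ := hM
  rcases h1 with ⟨r, hr, h1, h2', h3, h4⟩ | ⟨r, hr, h0, h1, h2', h3, h4⟩ <;>
  rcases h2 with ⟨s, hs, k1, k2, k3, k4⟩ | ⟨s, hs, k0, k1, k2, k3, k4⟩
  · have e := hd1 _ _ hr hs
    subst e
    cases c'; cases c''
    simp_all
  · exfalso
    rw [k0, hd3 s hs] at hr
    exact hr
  · exfalso
    rw [h0, hd3 r hr] at hs
    exact hs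
  · have e := hd2 c.state ⟨hr, h0.symm⟩ ⟨hs, k0.symm⟩
    subst e
    cases c'; cases c''
    simp_all

/-- the configurations of the machine -/
def cf {A : Type} (u : W) (f : A → ℕ) (b : Bool) (F : ℕ) (hF : ∀ a, f a ≤ F) (w : List A)
    (q : St (u.length + F + 2)) (m : ℕ) (p0 p1 : ℤ) (v : W) : OConfig (mach u f b F hF) where
  state := q
  tape := ![wordTape w, marks m]
  pos := ![p0, p1]
  query := v

theorem step_gen {A : Type} (u : W) (f : A → ℕ) (b : Bool) (F : ℕ) (hF : ∀ a, f a ≤ F)
    (O : Set W) (w : List A) {q q' : St (u.length + F + 2)} {m m' : ℕ} {p0 p1 : ℤ} {v : W}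
    {k : Bool} {m0 m1 : Move} {o : Option Bool}
    (h : act u f F hF q (wordTape w p0) (marks m p1) = some (q', k, m0, m1, o))
    (hk : k = true → p1 = m ∧ m' = m + 1) (hk' : k = false → m' = m) :
    OStep O (mach u f b F hF) (cf u f b F hF w q m p0 p1 v)
      (cf u f b F hF w q' m' (p0 + m0.toInt) (p1 + m1.toInt) (v ++ o.toList)) := by
  left
  refine ⟨_, ⟨_, h, rfl⟩, rfl, ?_, ?_, rfl⟩
  · funext i
    match i with
    | 0 =>
      exact (Function.update_eq_self _ _).symm
    | 1 =>
      cases k with
      | false =>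
        rw [hk' rfl]
        exact (Function.update_eq_self _ _).symm
      | true =>
        obtain ⟨h1, h2⟩ := hk rfl
        subst h1 h2
        funext z
        show marks (m + 1) z = Function.update (marks m) (m : ℤ) (some (Sum.inr ())) z
        by_cases hz : z = m
        · subst hz
          rw [Function.update_self]
          unfold marks
          rw [if_pos]
          constructor
          · exact Int.natCast_nonneg m
          · push_cast
            omega
        · rw [Function.update_of_ne hz]
          unfold marks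
          congr 1
          apply propext
          push_cast
          constructor
          · rintro ⟨h1, h2⟩
            exact ⟨h1, by omega⟩
          · rintro ⟨h1, h2⟩
            exact ⟨h1, by omega⟩
  · funext i
    match i with
    | 0 => rfl
    | 1 => rfl

/-- one step without a mark -/
theorem step_no {A : Type} (u : W) (f : A → ℕ) (b : Bool) (F : ℕ) (hF : ∀ a, f a ≤ F)
    (O : Set W) (w : List A) {q q' : St (u.length + F + 2)} {m : ℕ} {p0 p1 p0' p1' : ℤ} {v v' : W}
    {m0 m1 : Move} {o : Option Bool}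
    (h : act u f F hF q (wordTape w p0) (marks m p1) = some (q', false, m0, m1, o))
    (h0 : p0' = p0 + m0.toInt) (h1 : p1' = p1 + m1.toInt) (hv : v' = v ++ o.toList) :
    OStep O (mach u f b F hF) (cf u f b F hF w q m p0 p1 v)
      (cf u f b F hF w q' m p0' p1' v') := by
  subst h0 h1 hv
  exact step_gen u f b F hF O w h (by simp) (fun _ => rfl)

/-- the run relation of the machine -/
abbrev R {A : Type} (u : W) (f : A → ℕ) (b : Bool) (F : ℕ) (hF : ∀ a, f a ≤ F) (O : Set W) :
    ℕ → OConfig (mach u f b F hF) → OConfig (mach u f b F hF) → Prop :=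
  Run (OStep O (mach u f b F hF))

theorem run_pend_rd {A : Type} (u : W) (f : A → ℕ) (b : Bool) (F : ℕ) (hF : ∀ a, f a ≤ F)
    (O : Set W) (w : List A) (d : Bool) (m : ℕ) (p0 p1 : ℤ) : ∀ (p : W)
    (hp : p.length ≤ u.length + F + 2) (v : W),
    R u f b F hF O p.length (cf u f b F hF w (.rd, ⟨p, hp⟩, d) m p0 p1 v)
      (cf u f b F hF w (.rd, ⟨[], by simp⟩, d) m p0 p1 (v ++ p)) := by
  intro p
  induction p with
  | nil =>
    intro hp v
    rw [List.append_nil]
    exact Run.refl _
  | cons x p ih =>
    intro hp v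
    have h := ih (by simp at hp; omega) (v ++ [x])
    rw [List.append_assoc] at h
    refine Run.step ?_ h
    refine step_no u f b F hF O w (m0 := .stay) (m1 := .stay) (o := some x) ?_ ?_ ?_ ?_
    · rfl
    · simp [Move.toInt]
    · simp [Move.toInt]
    · simp

theorem run_pend_mk {A : Type} (u : W) (f : A → ℕ) (b : Bool) (F : ℕ) (hF : ∀ a, f a ≤ F)
    (O : Set W) (w : List A) (d : Bool) (m : ℕ) (p0 p1 : ℤ) : ∀ (p : W)
    (hp : p.length ≤ u.length + F + 2) (v : W),
    R u f b F hF O p.length (cf u f b F hF w (.mk, ⟨p, hp⟩, d) m p0 p1 v)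
      (cf u f b F hF w (.mk, ⟨[], by simp⟩, d) m p0 p1 (v ++ p)) := by
  intro p
  induction p with
  | nil =>
    intro hp v
    rw [List.append_nil]
    exact Run.refl _
  | cons x p ih =>
    intro hp v
    have h := ih (by simp at hp; omega) (v ++ [x])
    rw [List.append_assoc] at h
    refine Run.step ?_ h
    refine step_no u f b F hF O w (m0 := .stay) (m1 := .stay) (o := some x) ?_ ?_ ?_ ?_
    · rfl
    · simp [Move.toInt]
    · simp [Move.toInt]
    · simp

/-- the blocks of a word -/
def blks (l : List ℕ) : W := l.flatMap blk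

theorem enc_eq (l : List ℕ) : enc l = blks l ++ [false] := by
  induction l with
  | nil => rfl
  | cons a l ih =>
    rw [enc, ih]
    simp [blks, blk]

theorem wordTape_nat {A G : Type} (w : List A) (n : ℕ) :
    (wordTape w : ℤ → Option (A ⊕ G)) n = (w[n]?).map Sum.inl := by
  unfold wordTape
  rw [if_pos (Int.natCast_nonneg n), Int.toNat_natCast]

theorem wordTape_neg {A G : Type} (w : List A) :
    (wordTape w : ℤ → Option (A ⊕ G)) (-1) = none := by
  unfold wordTape
  rw [if_neg (by omega)]

theorem marks_neg {A : Type} (m : ℕ) : (marks m : ℤ → Option (A ⊕ Unit)) (-1) = none := by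
  unfold marks
  rw [if_neg (by omega)]

theorem marks_lt {A : Type} {m j : ℕ} (h : j < m) :
    (marks m : ℤ → Option (A ⊕ Unit)) j = some (Sum.inr ()) := by
  unfold marks
  rw [if_pos (by omega)]

theorem marks_self {A : Type} (m : ℕ) : (marks m : ℤ → Option (A ⊕ Unit)) m = none := by
  unfold marks
  rw [if_neg (by omega)]

theorem run_read {A : Type} (u : W) (f : A → ℕ) (b : Bool) (F : ℕ) (hF : ∀ a, f a ≤ F)
    (O : Set W) (w : List A) (d : Bool) (m : ℕ) (p1 : ℤ) : ∀ (w2 w1 : List A) (v : W),
    w = w1 ++ w2 → ∃ s ≤ (F + 3) * w2.length,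
    R u f b F hF O s (cf u f b F hF w (.rd, ⟨[], by simp⟩, d) m w1.length p1 v)
      (cf u f b F hF w (.rd, ⟨[], by simp⟩, d) m w.length p1 (v ++ blks (w2.map f))) := by
  intro w2
  induction w2 with
  | nil =>
    intro w1 v hw
    refine ⟨0, by simp, ?_⟩
    rw [hw]
    simp only [List.append_nil, List.map_nil, blks, List.flatMap_nil]
    exact Run.refl _
  | cons a w2 ih =>
    intro w1 v hw
    obtain ⟨s, hs, h⟩ := ih (w1 ++ [a]) (v ++ blk (f a)) (by rw [hw]; simp)
    have hlen : (blk (f a)).length ≤ u.length + F + 2 := by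
      have := hF a
      rw [blk_length]
      omega
    have h2 := run_pend_rd u f b F hF O w d m ((w1 ++ [a]).length : ℕ) p1 (blk (f a)) hlen v
    refine ⟨1 + (blk (f a)).length + s, ?_, ?_⟩
    · have := hF a
      rw [blk_length, List.length_cons, Nat.mul_succ]
      omega
    · have h3 := h2.trans h
      rw [Nat.add_assoc]
      have e : v ++ blk (f a) ++ blks (w2.map f) = v ++ blks ((a :: w2).map f) := by
        simp [blks]
      rw [e] at h3
      refine (Run.one ?_).trans h3
      refine step_no u f b F hF O w (m0 := .right) (m1 := .stay) (o := none) ?_ ?_ ?_ ?_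
      · have hx : (wordTape w : ℤ → Option (A ⊕ Unit)) w1.length = some (Sum.inl a) := by
          rw [wordTape_nat, hw]
          simp
        rw [hx]
        rfl
      · simp [Move.toInt]
      · simp [Move.toInt]
      · simp

theorem run_marks {A : Type} (u : W) (f : A → ℕ) (b : Bool) (F : ℕ) (hF : ∀ a, f a ≤ F)
    (O : Set W) (w : List A) (d : Bool) (m : ℕ) (p0 : ℤ) : ∀ (r j : ℕ) (v : W), j + r = m →
    R u f b F hF O r (cf u f b F hF w (.mk, ⟨[], by simp⟩, d) m p0 j v)
      (cf u f b F hF w (.mk, ⟨[], by simp⟩, d) m p0 m (v ++ List.replicate r true)) := by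
  intro r
  induction r with
  | zero =>
    intro j v hj
    have : j = m := by omega
    subst this
    rw [List.replicate_zero, List.append_nil]
    exact Run.refl _
  | succ r ih =>
    intro j v hj
    have h := ih (j + 1) (v ++ [true]) (by omega)
    rw [List.append_assoc] at h
    refine Run.step ?_ h
    refine step_no u f b F hF O w (m0 := .stay) (m1 := .right) (o := some true) ?_ ?_ ?_ ?_
    · rw [marks_lt (show j < m by omega)]
      rfl
    · simp [Move.toInt]
    · simp [Move.toInt]
    · simp

/-- from the beginning of a round to the query -/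
theorem run_ask {A : Type} (u : W) (f : A → ℕ) (b : Bool) (F : ℕ) (hF : ∀ a, f a ≤ F)
    (O : Set W) (w : List A) (d : Bool) (m : ℕ) :
    ∃ s ≤ u.length + (F + 3) * w.length + m + 4,
    R u f b F hF O s (cf u f b F hF w (.rd, ⟨u, by omega⟩, d) m 0 0 [])
      (cf u f b F hF w (.ask, ⟨[], by simp⟩, d) m w.length m
        (u ++ (enc (w.map f) ++ d :: List.replicate m true))) := by
  have h1 := run_pend_rd u f b F hF O w d m 0 0 u (by omega) []
  obtain ⟨s, hs, h2⟩ := run_read u f b F hF O w d m 0 w [] ([] ++ u) rfl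
  have h4 := run_pend_mk u f b F hF O w d m w.length 0 [false, d] (by simp)
    ([] ++ u ++ blks (w.map f))
  have h5 := run_marks u f b F hF O w d m w.length m 0 ([] ++ u ++ blks (w.map f) ++ [false, d])
    (by omega)
  have h3 : R u f b F hF O 1
      (cf u f b F hF w (.rd, ⟨[], by simp⟩, d) m w.length 0 ([] ++ u ++ blks (w.map f)))
      (cf u f b F hF w (.mk, ⟨[false, d], by simp⟩, d) m w.length 0
        ([] ++ u ++ blks (w.map f))) := by
    refine Run.one ?_
    refine step_no u f b F hF O w (m0 := .stay) (m1 := .stay) (o := none) ?_ ?_ ?_ ?_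
    · have hx : (wordTape w : ℤ → Option (A ⊕ Unit)) w.length = none := by
        rw [wordTape_nat]
        simp
      rw [hx]
      rfl
    · simp [Move.toInt]
    · simp [Move.toInt]
    · simp
  have h6 : R u f b F hF O 1
      (cf u f b F hF w (.mk, ⟨[], by simp⟩, d) m w.length m
        ([] ++ u ++ blks (w.map f) ++ [false, d] ++ List.replicate m true))
      (cf u f b F hF w (.ask, ⟨[], by simp⟩, d) m w.length m
        (u ++ (enc (w.map f) ++ d :: List.replicate m true))) := by
    refine Run.one ?_
    refine step_no u f b F hF O w (m0 := .stay) (m1 := .stay) (o := none) ?_ ?_ ?_ ?_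
    · rw [marks_self]
      rfl
    · simp [Move.toInt]
    · simp [Move.toInt]
    · rw [enc_eq]
      simp
  have h := ((((h1.trans h2).trans h3).trans h4).trans h5).trans h6
  refine ⟨_, ?_, h⟩
  simp only [List.length_cons, List.length_nil]
  omega

/-- the heads go back -/
theorem run_back {A : Type} (u : W) (f : A → ℕ) (b : Bool) (F : ℕ) (hF : ∀ a, f a ≤ F)
    (O : Set W) (w : List A) (d : Bool) (m : ℕ) (p : PW (u.length + F + 2)) (v : W) :
    ∀ (i j : ℕ), i ≤ w.length → j ≤ m → ∃ s ≤ i + j,
    R u f b F hF O s (cf u f b F hF w (.bk, p, d) m ((i : ℤ) - 1) ((j : ℤ) - 1) v)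
      (cf u f b F hF w (.bk, p, d) m (-1) (-1) v) := by
  have hw : ∀ i : ℕ, i < w.length → ∃ a, (wordTape w : ℤ → Option (A ⊕ Unit)) i = some a := by
    intro i hi
    rw [wordTape_nat, List.getElem?_eq_getElem hi]
    exact ⟨_, rfl⟩
  intro i
  induction i with
  | zero =>
    intro j
    induction j with
    | zero =>
      intro _ _
      refine ⟨0, le_rfl, ?_⟩
      simp only [Nat.cast_zero, zero_sub]
      exact Run.refl _
    | succ j ih =>
      intro h1 h2
      obtain ⟨s, hs, h⟩ := ih h1 (by omega)
      refine ⟨s + 1, by omega, Run.step ?_ h⟩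
      refine step_no u f b F hF O w (m0 := .stay) (m1 := .left) (o := none) ?_ ?_ ?_ ?_
      · rw [show ((0 : ℕ) : ℤ) - 1 = -1 by norm_num, wordTape_neg,
          show ((j + 1 : ℕ) : ℤ) - 1 = (j : ℕ) by push_cast; ring,
          marks_lt (show j < m by omega)]
        rfl
      · simp [Move.toInt]
      · simp [Move.toInt]
        ring
      · simp
  | succ i ih =>
    intro j h1 h2
    obtain ⟨a, ha⟩ := hw i (by omega)
    cases j with
    | zero =>
      obtain ⟨s, hs, h⟩ := ih 0 (by omega) (by omega)
      refine ⟨s + 1, by omega, Run.step ?_ h⟩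
      refine step_no u f b F hF O w (m0 := .left) (m1 := .stay) (o := none) ?_ ?_ ?_ ?_
      · rw [show ((0 : ℕ) : ℤ) - 1 = -1 by norm_num, marks_neg,
          show ((i + 1 : ℕ) : ℤ) - 1 = (i : ℕ) by push_cast; ring, ha]
        rfl
      · simp [Move.toInt]
        ring
      · simp [Move.toInt]
      · simp
    | succ j =>
      obtain ⟨s, hs, h⟩ := ih j (by omega) (by omega)
      refine ⟨s + 1, by omega, Run.step ?_ h⟩
      refine step_no u f b F hF O w (m0 := .left) (m1 := .left) (o := none) ?_ ?_ ?_ ?_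
      · rw [show ((j + 1 : ℕ) : ℤ) - 1 = (j : ℕ) by push_cast; ring,
          marks_lt (show j < m by omega),
          show ((i + 1 : ℕ) : ℤ) - 1 = (i : ℕ) by push_cast; ring, ha]
        rfl
      · simp [Move.toInt]
        ring
      · simp [Move.toInt]
        ring
      · simp

/-- a round with a negative answer -/
theorem round_no {A : Type} (u : W) (f : A → ℕ) (b : Bool) (F : ℕ) (hF : ∀ a, f a ≤ F)
    (O : Set W) (w : List A) (d : Bool) (m m' : ℕ) (hm : m' = if d then m + 1 else m)
    (hO : u ++ (enc (w.map f) ++ d :: List.replicate m true) ∉ O) :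
    ∃ s ≤ (u.length + F + 8) * (w.length + m + 1),
    R u f b F hF O s (cf u f b F hF w (.rd, ⟨u, by omega⟩, d) m 0 0 [])
      (cf u f b F hF w (.rd, ⟨u, by omega⟩, !d) m' 0 0 []) := by
  obtain ⟨s, hs, h1⟩ := run_ask u f b F hF O w d m
  have h2 : R u f b F hF O 1
      (cf u f b F hF w (.ask, ⟨[], by simp⟩, d) m w.length m
        (u ++ (enc (w.map f) ++ d :: List.replicate m true)))
      (cf u f b F hF w (.no, ⟨[], by simp⟩, d) m w.length m []) := by
    refine Run.one (Or.inr ⟨((.ask, ⟨[], by simp⟩, d), ((if d = b then .acc else .rej),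
      ⟨[], by simp⟩, d), (.no, ⟨[], by simp⟩, d)), ⟨rfl, rfl, rfl⟩, rfl, ?_, rfl, rfl, rfl⟩)
    exact (if_neg hO).symm
  have h3 : R u f b F hF O 1
      (cf u f b F hF w (.no, ⟨[], by simp⟩, d) m w.length m [])
      (cf u f b F hF w (.bk, ⟨[], by simp⟩, !d) m' ((w.length : ℤ) - 1) ((m : ℤ) - 1) []) := by
    refine Run.one ?_
    have := step_gen u f b F hF O w (q := (.no, ⟨[], by simp⟩, d)) (m := m) (m' := m')
      (p0 := w.length) (p1 := m) (v := []) (k := d) (m0 := .left) (m1 := .left) (o := none)
      (q' := (.bk, ⟨[], by simp⟩, !d)) rfl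
      (by intro h; subst h; exact ⟨rfl, by simpa using hm⟩)
      (by intro h; subst h; simpa using hm)
    simpa [Move.toInt, sub_eq_add_neg] using this
  have hmm : m ≤ m' := by
    rw [hm]
    split <;> omega
  obtain ⟨s', hs', h4⟩ := run_back u f b F hF O w (!d) m' ⟨[], by simp⟩ [] w.length m le_rfl hmm
  have h5 : R u f b F hF O 1
      (cf u f b F hF w (.bk, ⟨[], by simp⟩, !d) m' (-1) (-1) [])
      (cf u f b F hF w (.rd, ⟨u, by omega⟩, !d) m' 0 0 []) := by
    refine Run.one ?_
    refine step_no u f b F hF O w (m0 := .right) (m1 := .right) (o := none) ?_ ?_ ?_ ?_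
    · rw [wordTape_neg, marks_neg]
      rfl
    · simp [Move.toInt]
    · simp [Move.toInt]
    · simp
  refine ⟨_, ?_, (((h1.trans h2).trans h3).trans h4).trans h5⟩
  have e : (u.length + F + 8) * (w.length + m + 1) = (F + 3) * w.length + 5 * w.length +
      u.length * w.length + (u.length + F + 8) * m + (u.length + F + 8) := by ring
  have e2 : 8 * m ≤ (u.length + F + 8) * m := Nat.mul_le_mul_right _ (by omega)
  rw [e]
  omega

/-- a round with a positive answer -/
theorem round_yes {A : Type} (u : W) (f : A → ℕ) (b : Bool) (F : ℕ) (hF : ∀ a, f a ≤ F)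
    (O : Set W) (w : List A) (d : Bool) (m : ℕ)
    (hO : u ++ (enc (w.map f) ++ d :: List.replicate m true) ∈ O) :
    ∃ s ≤ (u.length + F + 8) * (w.length + m + 1),
    R u f b F hF O s (cf u f b F hF w (.rd, ⟨u, by omega⟩, d) m 0 0 [])
      (cf u f b F hF w ((if d = b then .acc else .rej), ⟨[], by simp⟩, d) m w.length m []) := by
  obtain ⟨s, hs, h1⟩ := run_ask u f b F hF O w d m
  have h2 : R u f b F hF O 1
      (cf u f b F hF w (.ask, ⟨[], by simp⟩, d) m w.length m
        (u ++ (enc (w.map f) ++ d :: List.replicate m true)))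
      (cf u f b F hF w ((if d = b then .acc else .rej), ⟨[], by simp⟩, d) m w.length m []) := by
    refine Run.one (Or.inr ⟨((.ask, ⟨[], by simp⟩, d), ((if d = b then .acc else .rej),
      ⟨[], by simp⟩, d), (.no, ⟨[], by simp⟩, d)), ⟨rfl, rfl, rfl⟩, rfl, ?_, rfl, rfl, rfl⟩)
    exact (if_pos hO).symm
  refine ⟨_, ?_, h1.trans h2⟩
  have e : (u.length + F + 8) * (w.length + m + 1) = (F + 3) * w.length + 5 * w.length +
      u.length * w.length + (u.length + F + 8) * m + (u.length + F + 8) := by ring
  have e2 : 8 * m ≤ (u.length + F + 8) * m := Nat.mul_le_mul_right _ (by omega)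
  rw [e]
  omega

/-- all rounds before `(l, b')` -/
theorem rounds {A : Type} (u : W) (f : A → ℕ) (b : Bool) (F : ℕ) (hF : ∀ a, f a ≤ F)
    (O : Set W) (w : List A) (l : ℕ)
    (hO : ∀ m < l, ∀ d, u ++ (enc (w.map f) ++ d :: List.replicate m true) ∉ O) :
    ∀ m ≤ l, ∃ s ≤ 2 * m * ((u.length + F + 8) * (w.length + l + 1)),
    R u f b F hF O s (cf u f b F hF w (.rd, ⟨u, by omega⟩, false) 0 0 0 [])
      (cf u f b F hF w (.rd, ⟨u, by omega⟩, false) m 0 0 []) := by
  intro m
  induction m with
  | zero =>
    intro _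
    exact ⟨0, by simp, Run.refl _⟩
  | succ m ih =>
    intro hm
    obtain ⟨s, hs, h⟩ := ih (by omega)
    obtain ⟨s1, hs1, h1⟩ := round_no u f b F hF O w false m m rfl (hO m (by omega) false)
    obtain ⟨s2, hs2, h2⟩ := round_no u f b F hF O w true m (m + 1) rfl (hO m (by omega) true)
    refine ⟨_, ?_, (h.trans h1).trans h2⟩
    have hle : (u.length + F + 8) * (w.length + m + 1) ≤
        (u.length + F + 8) * (w.length + l + 1) := Nat.mul_le_mul_left _ (by omega)
    have e : 2 * (m + 1) * ((u.length + F + 8) * (w.length + l + 1)) =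
        2 * m * ((u.length + F + 8) * (w.length + l + 1)) +
        2 * ((u.length + F + 8) * (w.length + l + 1)) := by ring
    rw [e]
    omega

/-- the whole computation -/
theorem total {A : Type} (u : W) (f : A → ℕ) (b : Bool) (F : ℕ) (hF : ∀ a, f a ≤ F)
    (O : Set W) (w : List A) (l : ℕ) (b' : Bool)
    (hO : ∀ (l' : ℕ) (b'' : Bool), u ++ (enc (w.map f) ++ b'' :: List.replicate l' true) ∈ O ↔
        l' = l ∧ b'' = b') :
    ∃ s ≤ 2 * (u.length + F + 8) * (w.length + l + 1) ^ 2,
    R u f b F hF O s (cf u f b F hF w (.rd, ⟨u, by omega⟩, false) 0 0 0 [])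
      (cf u f b F hF w ((if b' = b then .acc else .rej), ⟨[], by simp⟩, b') l w.length l []) := by
  obtain ⟨s, hs, h⟩ := rounds u f b F hF O w l
    (fun m hm d hmem => absurd ((hO m d).1 hmem).1 (by omega)) l le_rfl
  obtain ⟨s2, hs2, h2⟩ := round_yes u f b F hF O w b' l ((hO l b').2 ⟨rfl, rfl⟩)
  have e : 2 * (u.length + F + 8) * (w.length + l + 1) ^ 2 =
      2 * l * ((u.length + F + 8) * (w.length + l + 1)) +
      2 * ((u.length + F + 8) * (w.length + l + 1)) +
      2 * w.length * ((u.length + F + 8) * (w.length + l + 1)) := by ring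
  cases b' with
  | false =>
    refine ⟨_, ?_, h.trans h2⟩
    rw [e]
    omega
  | true =>
    obtain ⟨s1, hs1, h1⟩ := round_no u f b F hF O w false l l rfl
      (fun hmem => absurd ((hO l false).1 hmem).2 (by simp))
    refine ⟨_, ?_, (h.trans h1).trans h2⟩
    rw [e]
    omega

/-- a computation that starts like a run follows it -/
theorem follow {A : Type} {O : Set W} {M : OMachine A} (hM : M.Det) {n : ℕ} {a z : OConfig M}
    (h : Run (OStep O M) n a z) (hz : ∀ y, ¬ OStep O M z y) :
    ∀ (s : ℕ) (c : ℕ → OConfig M), c 0 = a → (∀ i < s, OStep O M (c i) (c (i + 1))) →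
      (∀ y, ¬ OStep O M (c s) y) → c s = z := by
  induction h with
  | refl a =>
    intro s c h0 hc _
    cases s with
    | zero => exact h0
    | succ s =>
      have := hc 0 (by omega)
      rw [h0] at this
      exact absurd this (hz _)
  | @step n a b' z h _ ih =>
    intro s c h0 hc hs
    cases s with
    | zero =>
      rw [h0] at hs
      exact absurd h (hs _)
    | succ s =>
      have h1 := hc 0 (by omega)
      rw [h0] at h1
      exact ih hz s (fun i => c (i + 1)) (step_unique hM h1 h)
        (fun i hi => hc (i + 1) (by omega)) hs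

theorem halt {A : Type} (u : W) (f : A → ℕ) (b : Bool) (F : ℕ) (hF : ∀ a, f a ≤ F)
    (O : Set W) {c : OConfig (mach u f b F hF)}
    (hc : (c.state : St (u.length + F + 2)).1 = .acc ∨
      (c.state : St (u.length + F + 2)).1 = .rej) (y : OConfig (mach u f b F hF)) :
    ¬ OStep O (mach u f b F hF) c y := by
  rintro (⟨r, ⟨s, hs, -⟩, -⟩ | ⟨r, ⟨h1, -, -⟩, h0, -⟩)
  · unfold act at hs
    rcases hc with hc | hc
    · rw [hc] at hs
      simp at hs
    · rw [hc] at hs
      simp at hs
  · rw [← h0] at h1
    rcases hc with hc | hc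
    · rw [hc] at h1
      exact absurd h1 (by simp)
    · rw [hc] at h1
      exact absurd h1 (by simp)

end Search

open Search in
theorem exists_search {A : Type} [Finite A] (u : W) (f : A → ℕ) (b : Bool) :
    ∃ (M : OMachine A) (c : ℕ), M.Det ∧ ∀ (O : Set W) (w : List A) (l : ℕ) (b' : Bool),
      (∀ (l' : ℕ) (b'' : Bool), u ++ (enc (w.map f) ++ b'' :: List.replicate l' true) ∈ O ↔
        l' = l ∧ b'' = b') →
      (b' = b → ∃ s ≤ c * (w.length + l + 1) ^ 2, OAcceptsIn O M w s) ∧
      (b' ≠ b → ∀ s, ¬ OAcceptsIn O M w s) := by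
  obtain ⟨F, hF'⟩ := (Set.finite_range f).bddAbove
  have hF : ∀ a, f a ≤ F := fun a => hF' ⟨a, rfl⟩
  refine ⟨mach u f b F hF, 2 * (u.length + F + 8), mach_det u f b F hF, ?_⟩
  intro O w l b' hO
  obtain ⟨s, hs, h⟩ := total u f b F hF O w l b' hO
  have hst : cf u f b F hF w (.rd, ⟨u, by omega⟩, false) 0 0 0 [] =
      oStart (mach u f b F hF) w := by
    unfold cf oStart
    congr 1
    · funext i
      match i with
      | 0 => rfl
      | 1 =>
        funext z
        show marks 0 z = none
        unfold marks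
        rw [if_neg (by omega)]
    · funext i
      match i with
      | 0 => rfl
      | 1 => rfl
  rw [hst] at h
  constructor
  · intro hb
    obtain ⟨c, h0, h1, h2⟩ := h.seq
    refine ⟨s, hs, c, h0, h1, ?_⟩
    rw [h2]
    show (if b' = b then Ph.acc else Ph.rej) = Ph.acc
    rw [if_pos hb]
  · rintro hb t ⟨c, h0, h1, h2⟩
    have e := follow (mach_det u f b F hF) h
      (halt u f b F hF O (Or.inr (if_neg hb))) t c h0 h1 (halt u f b F hF O (Or.inl h2))
    rw [e] at h2
    have h3 : (if b' = b then Ph.acc else Ph.rej) = Ph.acc := h2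
    rw [if_neg hb] at h3
    exact absurd h3 (by simp)

end Pool.Agent.H10.RQ
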