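import Pool.Agent.H10.RQ.GM
import Pool.Agent.H10.RQ.From

/-!
# RQ ToO: machines with arbitrary tapes as machines with `k + 1` numbered tapes

`g : GM A`. Choose `k` and an equivalence `g.ι ≃ Fin (k + 1)` that maps `g.inp` to `0`
(`Finite.exists_equiv_fin` and a swap). Take `G := Σ i : g.ι, g.Γ i`. A symbol `s : Option (A ⊕ G)`
scanned on the tape (number of) `i` is read as: `none` for `none`; `some γ` for
`some (inr ⟨i, γ⟩)`; `some (g.lt x)` for `some (inl x)` if `i = g.inp`; anything else (wrong tape) as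
`none`. The machine `M` has the same states; `M.δ q x` consists of the actions `r ∈ g.δ q (x read)`
with every symbol `γ` written on tape `i` as `inr ⟨i, γ⟩`; `ask` is the same.
A configuration of `M` is read as a configuration of `g` (all cells, positions renumbered). Then:
the start configuration is read as `gStart`; every step of `M` is read as a step of `g`; and if `c`
is read as `d` and `GStep O g d d'`, then there is a step of `M` from `c` to some `c'` read as `d'`.
(No cell of a wrong kind ever occurs, but this is not needed: junk is read as a blank.)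
So `GFrom O g s d ↔ OFrom O M s c` whenever `c` is read as `d`, by induction on `s`; combine with
`OAcceptsIn` (sequences of configurations; you may import `Pool.Agent.H10.RQ.From` and use
`oAcceptsIn_iff`, proved in a parallel row).
-/

set_option autoImplicit false

namespace Pool.Agent.H10.RQ

open Pool.Agent.Lead.NTM

open Classical in
/-- reading a letter on the tape `i` -/
private noncomputable def ToO_dec {A : Type} (g : GM A) (i : g.ι) :
    Option (A ⊕ (Σ j : g.ι, g.Γ j)) → Option (g.Γ i)
  | none => none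
  | some (Sum.inl x) => if h : g.inp = i then some (h ▸ g.lt x) else none
  | some (Sum.inr p) => if h : p.1 = i then some (h ▸ p.2) else none

/-- writing a letter on the tape `i` -/
private def ToO_en {A : Type} (g : GM A) (i : g.ι) (γ : Option (g.Γ i)) :
    Option (A ⊕ (Σ j : g.ι, g.Γ j)) := γ.map (fun x => Sum.inr ⟨i, x⟩)

private theorem ToO_dec_en {A : Type} (g : GM A) (i : g.ι) (γ : Option (g.Γ i)) :
    ToO_dec g i (ToO_en g i γ) = γ := by
  cases γ with
  | none => rfl
  | some x =>
    simp only [ToO_en, Option.map_some, ToO_dec, dif_pos]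

private theorem ToO_dec_inp {A : Type} (g : GM A) (x : A) :
    ToO_dec g g.inp (some (Sum.inl x)) = some (g.lt x) := by
  simp only [ToO_dec, dif_pos]

/-- the machine with numbered tapes -/
private noncomputable def ToO_M {A : Type} (g : GM A) (k : ℕ) (e : g.ι ≃ Fin (k + 1)) :
    OMachine A where
  k := k
  Q := g.Q
  finQ := g.finQ
  G := Σ j : g.ι, g.Γ j
  finG := by
    have := g.finι
    have := g.finΓ
    infer_instance
  start := g.start
  accepting := g.acc
  δ := fun q x => {r | ∃ r' ∈ g.δ q (fun i => ToO_dec g i (x (e i))), r.1 = r'.1 ∧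
    r.2.1 = (fun j => ToO_en g (e.symm j) (r'.2.1 (e.symm j))) ∧
    r.2.2.1 = (fun j => r'.2.2.1 (e.symm j)) ∧ r.2.2.2 = r'.2.2.2}
  ask := g.ask

/-- a configuration, read -/
private noncomputable def ToO_rd {A : Type} (g : GM A) (k : ℕ) (e : g.ι ≃ Fin (k + 1))
    (c : OConfig (ToO_M g k e)) : GC g where
  state := c.state
  tape := fun i z => ToO_dec g i (c.tape (e i) z)
  pos := fun i => c.pos (e i)
  query := c.query

private theorem ToO_start {A : Type} (g : GM A) (k : ℕ) (e : g.ι ≃ Fin (k + 1)) (he : e g.inp = 0)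
    (w : List A) : ToO_rd g k e (oStart (ToO_M g k e) w) = gStart g w := by
  classical
  unfold ToO_rd gStart
  congr 1
  funext i z
  show ToO_dec g i ((if e i = 0 then wordTape w else fun _ => none :
    ℤ → Option (A ⊕ (Σ j : g.ι, g.Γ j))) z) = _
  by_cases hi : i = g.inp
  · subst hi
    rw [if_pos he, Function.update_self]
    unfold wordTape
    split_ifs with hz
    · cases h : w[z.toNat]? with
      | none => rfl
      | some x => exact ToO_dec_inp g x
    · rfl
  · have h1 : e i ≠ 0 := by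
      intro h
      exact hi (e.injective (h.trans he.symm))
    rw [if_neg h1, Function.update_of_ne hi]
    rfl

private theorem ToO_upd {A : Type} (g : GM A) (i : g.ι) (T : ℤ → Option (A ⊕ (Σ j : g.ι, g.Γ j)))
    (p z : ℤ) (v : Option (A ⊕ (Σ j : g.ι, g.Γ j))) (γ : Option (g.Γ i)) (hv : v = ToO_en g i γ) :
    ToO_dec g i (Function.update T p v z) =
      Function.update (fun z => ToO_dec g i (T z)) p γ z := by
  by_cases hz : z = p
  · subst hz
    rw [Function.update_self, Function.update_self, hv, ToO_dec_en]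
  · rw [Function.update_of_ne hz, Function.update_of_ne hz]

/-- the configuration of the machine with numbered tapes after the action `r'` -/
private noncomputable def ToO_next {A : Type} (g : GM A) (k : ℕ) (e : g.ι ≃ Fin (k + 1))
    (c : OConfig (ToO_M g k e))
    (r' : g.Q × ((i : g.ι) → Option (g.Γ i)) × (g.ι → Move) × Option Bool) :
    OConfig (ToO_M g k e) where
  state := r'.1
  tape := fun j => Function.update (c.tape j) (c.pos j) (ToO_en g (e.symm j) (r'.2.1 (e.symm j)))
  pos := fun j => c.pos j + (r'.2.2.1 (e.symm j)).toInt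
  query := c.query ++ r'.2.2.2.toList

private theorem ToO_rd_next {A : Type} (g : GM A) (k : ℕ) (e : g.ι ≃ Fin (k + 1))
    (c : OConfig (ToO_M g k e))
    (r' : g.Q × ((i : g.ι) → Option (g.Γ i)) × (g.ι → Move) × Option Bool) :
    (ToO_rd g k e (ToO_next g k e c r')).state = r'.1 ∧
    (ToO_rd g k e (ToO_next g k e c r')).tape = (fun i => Function.update
      ((ToO_rd g k e c).tape i) ((ToO_rd g k e c).pos i) (r'.2.1 i)) ∧
    (ToO_rd g k e (ToO_next g k e c r')).pos =
      (fun i => (ToO_rd g k e c).pos i + (r'.2.2.1 i).toInt) ∧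
    (ToO_rd g k e (ToO_next g k e c r')).query = (ToO_rd g k e c).query ++ r'.2.2.2.toList := by
  refine ⟨rfl, ?_, ?_, rfl⟩
  · funext i z
    have h1 : ToO_en g (e.symm (e i)) (r'.2.1 (e.symm (e i))) = ToO_en g i (r'.2.1 i) :=
      congrArg (fun j => ToO_en g j (r'.2.1 j)) (e.symm_apply_apply i)
    exact ToO_upd g i (c.tape (e i)) (c.pos (e i)) z _ (r'.2.1 i) h1
  · funext i
    show c.pos (e i) + (r'.2.2.1 (e.symm (e i))).toInt = c.pos (e i) + (r'.2.2.1 i).toInt
    rw [e.symm_apply_apply]

private theorem ToO_GC_ext {A : Type} {g : GM A} {c d : GC g} (h1 : c.state = d.state)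
    (h2 : c.tape = d.tape) (h3 : c.pos = d.pos) (h4 : c.query = d.query) : c = d := by
  obtain ⟨a1, a2, a3, a4⟩ := c
  obtain ⟨b1, b2, b3, b4⟩ := d
  simp only at h1 h2 h3 h4
  subst h1 h2 h3 h4
  rfl

private theorem ToO_OC_ext {A : Type} {g : OMachine A} {c d : OConfig g} (h1 : c.state = d.state)
    (h2 : c.tape = d.tape) (h3 : c.pos = d.pos) (h4 : c.query = d.query) : c = d := by
  obtain ⟨a1, a2, a3, a4⟩ := c
  obtain ⟨b1, b2, b3, b4⟩ := d
  simp only at h1 h2 h3 h4
  subst h1 h2 h3 h4
  rfl

/-- every step is read as a step -/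
private theorem ToO_fwd {A : Type} (O : Set (List Bool)) (g : GM A) (k : ℕ) (e : g.ι ≃ Fin (k + 1))
    (c c' : OConfig (ToO_M g k e)) (h : OStep O (ToO_M g k e) c c') :
    GStep O g (ToO_rd g k e c) (ToO_rd g k e c') := by
  rcases h with ⟨r, ⟨r', hr', e1, e2, e3, e4⟩, h1, h2, h3, h4⟩ | ⟨r, hr, h0, h1, h2, h3, h4⟩
  · left
    have hc' : c' = ToO_next g k e c r' := by
      refine ToO_OC_ext ?_ ?_ ?_ ?_
      · rw [h1, e1]; rfl
      · rw [h2, e2]; rfl
      · rw [h3, e3]; rfl
      · rw [h4, e4]; rfl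
    subst hc'
    exact ⟨r', hr', ToO_rd_next g k e c r'⟩
  · right
    refine ⟨r, hr, h0, h1, ?_, ?_, h4⟩
    · funext i z
      show ToO_dec g i (c'.tape (e i) z) = ToO_dec g i (c.tape (e i) z)
      rw [h2]
    · funext i
      show c'.pos (e i) = c.pos (e i)
      rw [h3]

/-- every step from a read configuration is the reading of a step -/
private theorem ToO_bwd {A : Type} (O : Set (List Bool)) (g : GM A) (k : ℕ) (e : g.ι ≃ Fin (k + 1))
    (c : OConfig (ToO_M g k e)) (d' : GC g) (h : GStep O g (ToO_rd g k e c) d') :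
    ∃ c', OStep O (ToO_M g k e) c c' ∧ ToO_rd g k e c' = d' := by
  rcases h with ⟨r', hr', h1, h2, h3, h4⟩ | ⟨r, hr, h0, h1, h2, h3, h4⟩
  · refine ⟨ToO_next g k e c r', Or.inl ⟨(r'.1, (fun j => ToO_en g (e.symm j) (r'.2.1 (e.symm j))),
      (fun j => r'.2.2.1 (e.symm j)), r'.2.2.2), ⟨r', hr', rfl, rfl, rfl, rfl⟩,
      rfl, rfl, rfl, rfl⟩, ?_⟩
    obtain ⟨g1, g2, g3, g4⟩ := ToO_rd_next g k e c r'
    exact ToO_GC_ext (g1.trans h1.symm) (g2.trans h2.symm) (g3.trans h3.symm) (g4.trans h4.symm)
  · refine ⟨⟨d'.state, c.tape, c.pos, []⟩, Or.inr ⟨r, hr, h0, h1, rfl, rfl, rfl⟩, ?_⟩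
    exact ToO_GC_ext rfl h2.symm h3.symm h4.symm

private theorem ToO_from {A : Type} (O : Set (List Bool)) (g : GM A) (k : ℕ)
    (e : g.ι ≃ Fin (k + 1)) (s : ℕ) : ∀ c : OConfig (ToO_M g k e),
    (OFrom O (ToO_M g k e) s c ↔ GFrom O g s (ToO_rd g k e c)) := by
  induction s with
  | zero => exact fun c => Iff.rfl
  | succ s ih =>
    intro c
    constructor
    · rintro ⟨c', h1, h2⟩
      exact ⟨_, ToO_fwd O g k e c c' h1, (ih c').1 h2⟩
    · rintro ⟨d', h1, h2⟩
      obtain ⟨c', h3, rfl⟩ := ToO_bwd O g k e c d' h1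
      exact ⟨c', h3, (ih c').2 h2⟩

theorem exists_toO {A : Type} (g : GM A) : ∃ M : OMachine A,
    ∀ (O : Set (List Bool)) (w : List A) (s : ℕ), OAcceptsIn O M w s ↔ GAcc O g w s := by
  have := g.finι
  obtain ⟨n, ⟨e0⟩⟩ := Finite.exists_equiv_fin g.ι
  obtain ⟨k, rfl⟩ : ∃ k, n = k + 1 := by
    cases n with
    | zero => exact (e0 g.inp).elim0
    | succ k => exact ⟨k, rfl⟩
  refine ⟨ToO_M g k (e0.trans (Equiv.swap (e0 g.inp) 0)), fun O w s => ?_⟩
  rw [oAcceptsIn_iff, ToO_from, ToO_start]
  · rfl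
  · simp

end Pool.Agent.H10.RQ
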