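import Pool.Agent.H10.RQ.GM
import Pool.Agent.H10.RQ.From

/-!
# RQ Union: union of two oracle machines

In its first step the new machine chooses one of the two machines, then it simulates it.
Suggestion: use a machine `g : GM A` (`exists_toO` turns it into an `OMachine`) with the tapes
`inp` | `a (i : Fin M₁.k)` | `b (i : Fin M₂.k)`: the input tape is shared (tape `0` of both), `a i` is
tape `i.succ` of `M₁`, `b i` is tape `i.succ` of `M₂`; alphabet of `inp`: `A ⊕ (M₁.G ⊕ M₂.G)` (a
symbol of the wrong machine is read as a blank, it never occurs), of `a i`: `A ⊕ M₁.G`, of `b i`: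
`A ⊕ M₂.G`. States: `Unit ⊕ M₁.Q ⊕ M₂.Q`.
Then `GFrom O g s (configuration simulating c)` ↔ `OFrom O M₁ s c`, by induction on `s`, and the same
for `M₂`; the first step (no change of tapes and heads) goes to the starting configuration of `M₁` or
`M₂`; the starting state is not accepting.
(Any other construction is welcome, e.g. copying is not needed.)
-/

set_option autoImplicit false

namespace Pool.Agent.H10.RQ

open Pool.Agent.Lead.NTM

/-- The data of a simulation of `N` by `M`. -/
private structure UnionData {A : Type} (M N : OMachine A) where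
  e : Fin (N.k + 1) → Fin (M.k + 1)
  he : Function.Injective e
  σ : N.Q → M.Q
  hσ : Function.Injective σ
  rd : Option (A ⊕ M.G) → Option (A ⊕ N.G)
  wr : Option (A ⊕ N.G) → Option (A ⊕ M.G)
  hrw : ∀ y, rd (wr y) = y
  hδ : ∀ q x r, r ∈ M.δ (σ q) x ↔ ∃ r' ∈ N.δ q (fun i => rd (x (e i))), r.1 = σ r'.1 ∧
    (∀ i, r.2.1 (e i) = wr (r'.2.1 i)) ∧ (∀ i, r.2.2.1 (e i) = r'.2.2.1 i) ∧
      r.2.2.2 = r'.2.2.2
  hask : ∀ q, ∀ r ∈ M.ask, r.1 = σ q → ∃ a ∈ N.ask, a.1 = q ∧ r.2.1 = σ a.2.1 ∧ r.2.2 = σ a.2.2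
  hask' : ∀ a ∈ N.ask, (σ a.1, σ a.2.1, σ a.2.2) ∈ M.ask
  hacc : ∀ q, σ q ∈ M.accepting ↔ q ∈ N.accepting

/-- `c` simulates `d`. -/
private def UnionData.Sim {A : Type} {M N : OMachine A} (D : UnionData M N) (c : OConfig M)
    (d : OConfig N) : Prop :=
  c.state = D.σ d.state ∧ (∀ i z, D.rd (c.tape (D.e i) z) = d.tape i z) ∧
    (∀ i, c.pos (D.e i) = d.pos i) ∧ c.query = d.query

private theorem UnionData.sim_tape {A : Type} {M N : OMachine A} (D : UnionData M N)
    {c : OConfig M} {d : OConfig N} (h : D.Sim c d) {y : Fin (M.k + 1) → Option (A ⊕ M.G)}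
    {y' : Fin (N.k + 1) → Option (A ⊕ N.G)} (hy : ∀ i, y (D.e i) = D.wr (y' i))
    (i : Fin (N.k + 1)) (z : ℤ) :
    D.rd (Function.update (c.tape (D.e i)) (c.pos (D.e i)) (y (D.e i)) z) =
      Function.update (d.tape i) (d.pos i) (y' i) z := by
  obtain ⟨_, h2, h3, _⟩ := h
  rw [h3 i]
  by_cases hz : z = d.pos i
  · subst hz
    rw [Function.update_self, Function.update_self, hy, D.hrw]
  · rw [Function.update_of_ne hz, Function.update_of_ne hz, h2]

private theorem UnionData.step {A : Type} {M N : OMachine A} (D : UnionData M N)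
    (O : Set (List Bool)) {c c' : OConfig M} {d : OConfig N} (h : D.Sim c d)
    (hc : OStep O M c c') : ∃ d', OStep O N d d' ∧ D.Sim c' d' := by
  classical
  have h' := h
  obtain ⟨h1, h2, h3, h4⟩ := h
  rcases hc with ⟨r, hr, e1, e2, e3, e4⟩ | ⟨r, hr, e0, e1, e2, e3, e4⟩
  · rw [h1, D.hδ] at hr
    obtain ⟨r', hr', k1, k2, k3, k4⟩ := hr
    have h5 : (fun i => D.rd (c.tape (D.e i) (c.pos (D.e i)))) = fun i => d.tape i (d.pos i) := by
      funext i
      rw [h2, h3]
    rw [h5] at hr'
    refine ⟨⟨r'.1, fun i => Function.update (d.tape i) (d.pos i) (r'.2.1 i),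
      fun i => d.pos i + (r'.2.2.1 i).toInt, d.query ++ r'.2.2.2.toList⟩,
      Or.inl ⟨r', hr', rfl, rfl, rfl, rfl⟩, ?_, ?_, ?_, ?_⟩
    · rw [e1, k1]
    · intro i z
      rw [e2]
      exact D.sim_tape h' k2 i z
    · intro i
      rw [e3]
      show c.pos (D.e i) + (r.2.2.1 (D.e i)).toInt = d.pos i + (r'.2.2.1 i).toInt
      rw [h3, k3]
    · rw [e4, h4, k4]
  · rw [h1] at e0
    obtain ⟨a, ha, k1, k2, k3⟩ := D.hask d.state r hr e0.symm
    refine ⟨⟨if d.query ∈ O then a.2.1 else a.2.2, d.tape, d.pos, []⟩,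
      Or.inr ⟨a, ha, k1.symm, rfl, rfl, rfl, rfl⟩, ?_, ?_, ?_, ?_⟩
    · rw [e1, h4, k2, k3]
      show (if d.query ∈ O then D.σ a.2.1 else D.σ a.2.2) =
        D.σ (if d.query ∈ O then a.2.1 else a.2.2)
      split_ifs <;> rfl
    · intro i z
      rw [e2]
      exact h2 i z
    · intro i
      rw [e3]
      exact h3 i
    · exact e4

private theorem UnionData.step' {A : Type} {M N : OMachine A} (D : UnionData M N)
    (O : Set (List Bool)) {c : OConfig M} {d d' : OConfig N} (h : D.Sim c d)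
    (hd : OStep O N d d') : ∃ c', OStep O M c c' ∧ D.Sim c' d' := by
  classical
  have h' := h
  obtain ⟨h1, h2, h3, h4⟩ := h
  rcases hd with ⟨r', hr', e1, e2, e3, e4⟩ | ⟨a, ha, e0, e1, e2, e3, e4⟩
  · have h5 : (fun i => D.rd (c.tape (D.e i) (c.pos (D.e i)))) = fun i => d.tape i (d.pos i) := by
      funext i
      rw [h2, h3]
    rw [← h5] at hr'
    have y1 : ∀ i, Function.extend D.e (fun i => D.wr (r'.2.1 i)) (fun _ => none) (D.e i) =
        D.wr (r'.2.1 i) := fun i => D.he.extend_apply _ _ i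
    have y2 : ∀ i, Function.extend D.e r'.2.2.1 (fun _ => Move.stay) (D.e i) = r'.2.2.1 i :=
      fun i => D.he.extend_apply _ _ i
    have hr : (D.σ r'.1, Function.extend D.e (fun i => D.wr (r'.2.1 i)) (fun _ => none),
        Function.extend D.e r'.2.2.1 (fun _ => Move.stay), r'.2.2.2) ∈
        M.δ c.state (fun i => c.tape i (c.pos i)) := by
      rw [h1, D.hδ]
      exact ⟨r', hr', rfl, y1, y2, rfl⟩
    refine ⟨⟨D.σ r'.1, fun i => Function.update (c.tape i) (c.pos i)
      (Function.extend D.e (fun i => D.wr (r'.2.1 i)) (fun _ => none) i),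
      fun i => c.pos i + (Function.extend D.e r'.2.2.1 (fun _ => Move.stay) i).toInt,
      c.query ++ r'.2.2.2.toList⟩, Or.inl ⟨_, hr, rfl, rfl, rfl, rfl⟩, ?_, ?_, ?_, ?_⟩
    · rw [e1]
    · intro i z
      rw [e2]
      exact D.sim_tape h' y1 i z
    · intro i
      rw [e3]
      show c.pos (D.e i) + (Function.extend D.e r'.2.2.1 (fun _ => Move.stay) (D.e i)).toInt =
        d.pos i + (r'.2.2.1 i).toInt
      rw [h3, y2]
    · rw [e4, ← h4]
  · refine ⟨⟨if c.query ∈ O then D.σ a.2.1 else D.σ a.2.2, c.tape, c.pos, []⟩,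
      Or.inr ⟨_, D.hask' a ha, ?_, rfl, rfl, rfl, rfl⟩, ?_, ?_, ?_, ?_⟩
    · rw [h1, e0]
    · rw [e1, h4]
      show (if d.query ∈ O then D.σ a.2.1 else D.σ a.2.2) =
        D.σ (if d.query ∈ O then a.2.1 else a.2.2)
      split_ifs <;> rfl
    · intro i z
      rw [e2]
      exact h2 i z
    · intro i
      rw [e3]
      exact h3 i
    · exact e4.symm

private theorem UnionData.from {A : Type} {M N : OMachine A} (D : UnionData M N)
    (O : Set (List Bool)) : ∀ (s : ℕ) (c : OConfig M) (d : OConfig N), D.Sim c d →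
      (OFrom O M s c ↔ OFrom O N s d) := by
  intro s
  induction s with
  | zero =>
    intro c d h
    show c.state ∈ M.accepting ↔ d.state ∈ N.accepting
    rw [h.1]
    exact D.hacc _
  | succ s ih =>
    intro c d h
    constructor
    · rintro ⟨c', h1, h2⟩
      obtain ⟨d', h3, h4⟩ := D.step O h h1
      exact ⟨d', h3, (ih c' d' h4).1 h2⟩
    · rintro ⟨d', h1, h2⟩
      obtain ⟨c', h3, h4⟩ := D.step' O h h1
      exact ⟨c', h3, (ih c' d' h4).2 h2⟩

/-- Reading and writing. -/
private def Union_rd₁ {A G₁ G₂ : Type} : Option (A ⊕ (G₁ ⊕ G₂)) → Option (A ⊕ G₁)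
  | some (Sum.inl a) => some (Sum.inl a)
  | some (Sum.inr (Sum.inl g)) => some (Sum.inr g)
  | _ => none

private def Union_wr₁ {A G₁ G₂ : Type} : Option (A ⊕ G₁) → Option (A ⊕ (G₁ ⊕ G₂))
  | some (Sum.inl a) => some (Sum.inl a)
  | some (Sum.inr g) => some (Sum.inr (Sum.inl g))
  | none => none

private def Union_rd₂ {A G₁ G₂ : Type} : Option (A ⊕ (G₁ ⊕ G₂)) → Option (A ⊕ G₂)
  | some (Sum.inl a) => some (Sum.inl a)
  | some (Sum.inr (Sum.inr g)) => some (Sum.inr g)
  | _ => none

private def Union_wr₂ {A G₁ G₂ : Type} : Option (A ⊕ G₂) → Option (A ⊕ (G₁ ⊕ G₂))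
  | some (Sum.inl a) => some (Sum.inl a)
  | some (Sum.inr g) => some (Sum.inr (Sum.inr g))
  | none => none

/-- The actions of the simulated machine. -/
private def Union_act {A G : Type} {k : ℕ} {Q : Type} (N : OMachine A)
    (e : Fin (N.k + 1) → Fin (k + 1)) (σ : N.Q → Q) (rd : Option (A ⊕ G) → Option (A ⊕ N.G))
    (wr : Option (A ⊕ N.G) → Option (A ⊕ G)) (q : N.Q) (x : Fin (k + 1) → Option (A ⊕ G)) :
    Set (Q × (Fin (k + 1) → Option (A ⊕ G)) × (Fin (k + 1) → Move) × Option Bool) :=
  {r | ∃ r' ∈ N.δ q (fun i => rd (x (e i))), r.1 = σ r'.1 ∧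
    (∀ i, r.2.1 (e i) = wr (r'.2.1 i)) ∧ (∀ i, r.2.2.1 (e i) = r'.2.2.1 i) ∧
      r.2.2.2 = r'.2.2.2}

/-- The union. -/
private def unionM {A : Type} (M₁ M₂ : OMachine A) : OMachine A where
  k := max M₁.k M₂.k
  Q := Option (M₁.Q ⊕ M₂.Q)
  finQ := by
    have := M₁.finQ
    have := M₂.finQ
    infer_instance
  G := M₁.G ⊕ M₂.G
  finG := by
    have := M₁.finG
    have := M₂.finG
    infer_instance
  start := none
  accepting := {q | (∃ a ∈ M₁.accepting, q = some (Sum.inl a)) ∨
    ∃ a ∈ M₂.accepting, q = some (Sum.inr a)}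
  δ := fun q x => match q with
    | none => {r | (r.1 = some (Sum.inl M₁.start) ∨ r.1 = some (Sum.inr M₂.start)) ∧ r.2.1 = x ∧
        (r.2.2.1 = fun _ => Move.stay) ∧ r.2.2.2 = none}
    | some (Sum.inl q) => Union_act M₁ (Fin.castLE (by omega)) (fun a => some (Sum.inl a))
        Union_rd₁ Union_wr₁ q x
    | some (Sum.inr q) => Union_act M₂ (Fin.castLE (by omega)) (fun a => some (Sum.inr a))
        Union_rd₂ Union_wr₂ q x
  ask := {r | (∃ a ∈ M₁.ask, r = (some (Sum.inl a.1), some (Sum.inl a.2.1), some (Sum.inl a.2.2))) ∨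
    ∃ a ∈ M₂.ask, r = (some (Sum.inr a.1), some (Sum.inr a.2.1), some (Sum.inr a.2.2))}

private def Union_D₁ {A : Type} (M₁ M₂ : OMachine A) : UnionData (unionM M₁ M₂) M₁ where
  e := Fin.castLE (Nat.succ_le_succ (le_max_left M₁.k M₂.k))
  he := Fin.castLE_injective _
  σ := fun a => some (Sum.inl a)
  hσ := fun a b h => Sum.inl_injective (Option.some_injective _ h)
  rd := Union_rd₁
  wr := Union_wr₁
  hrw := by
    rintro (_ | (a | g)) <;> rfl
  hδ := fun q x r => Iff.rfl
  hask := by
    rintro q r (⟨a, ha, rfl⟩ | ⟨a, ha, rfl⟩) h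
    · refine ⟨a, ha, ?_, rfl, rfl⟩
      exact Sum.inl_injective (Option.some_injective _ h)
    · exact absurd (Option.some_injective _ h) (by simp)
  hask' := fun a ha => Or.inl ⟨a, ha, rfl⟩
  hacc := by
    intro q
    constructor
    · rintro (⟨a, ha, h⟩ | ⟨a, ha, h⟩)
      · have := Sum.inl_injective (Option.some_injective _ h)
        rwa [this]
      · exact absurd (Option.some_injective _ h) (by simp)
    · intro h
      exact Or.inl ⟨q, h, rfl⟩

private def Union_D₂ {A : Type} (M₁ M₂ : OMachine A) : UnionData (unionM M₁ M₂) M₂ where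
  e := Fin.castLE (Nat.succ_le_succ (le_max_right M₁.k M₂.k))
  he := Fin.castLE_injective _
  σ := fun a => some (Sum.inr a)
  hσ := fun a b h => Sum.inr_injective (Option.some_injective _ h)
  rd := Union_rd₂
  wr := Union_wr₂
  hrw := by
    rintro (_ | (a | g)) <;> rfl
  hδ := fun q x r => Iff.rfl
  hask := by
    rintro q r (⟨a, ha, rfl⟩ | ⟨a, ha, rfl⟩) h
    · exact absurd (Option.some_injective _ h) (by simp)
    · refine ⟨a, ha, ?_, rfl, rfl⟩
      exact Sum.inr_injective (Option.some_injective _ h)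
  hask' := fun a ha => Or.inr ⟨a, ha, rfl⟩
  hacc := by
    intro q
    constructor
    · rintro (⟨a, ha, h⟩ | ⟨a, ha, h⟩)
      · exact absurd (Option.some_injective _ h) (by simp)
      · have := Sum.inr_injective (Option.some_injective _ h)
        rwa [this]
    · intro h
      exact Or.inr ⟨q, h, rfl⟩

/-- The configuration after the first step. -/
private theorem UnionData.start {A : Type} {M N : OMachine A} (D : UnionData M N)
    (h0 : ∀ i, D.e i = 0 ↔ i = 0) (hn : D.rd none = none)
    (ha : ∀ a, D.rd (some (Sum.inl a)) = some (Sum.inl a)) (w : List A) :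
    D.Sim ⟨D.σ N.start, (oStart M w).tape, (oStart M w).pos, []⟩ (oStart N w) := by
  refine ⟨rfl, fun i z => ?_, fun i => rfl, rfl⟩
  show D.rd ((if D.e i = 0 then wordTape w else fun _ => none) z) =
    (if i = 0 then wordTape w else fun _ => none) z
  by_cases hi : i = 0
  · rw [if_pos hi, if_pos ((h0 i).2 hi)]
    unfold wordTape
    split_ifs with hz
    · cases w[z.toNat]? with
      | none => exact hn
      | some a => exact ha a
    · exact hn
  · rw [if_neg hi, if_neg (fun h => hi ((h0 i).1 h))]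
    exact hn

theorem exists_union {A : Type} (M₁ M₂ : OMachine A) : ∃ M : OMachine A,
    ∀ (O : Set (List Bool)) (w : List A) (s : ℕ), OAcceptsIn O M w s ↔
      ∃ s', s = s' + 1 ∧ (OAcceptsIn O M₁ w s' ∨ OAcceptsIn O M₂ w s') := by
  refine ⟨unionM M₁ M₂, fun O w s => ?_⟩
  simp only [oAcceptsIn_iff]
  have hS₁ := (Union_D₁ M₁ M₂).start (fun i => by
    rw [Fin.ext_iff, Fin.ext_iff]
    exact Iff.rfl) rfl (fun _ => rfl) w
  have hS₂ := (Union_D₂ M₁ M₂).start (fun i => by
    rw [Fin.ext_iff, Fin.ext_iff]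
    exact Iff.rfl) rfl (fun _ => rfl) w
  cases s with
  | zero =>
    constructor
    · rintro (⟨a, _, h⟩ | ⟨a, _, h⟩)
      · exact absurd h (by
          show (none : Option (M₁.Q ⊕ M₂.Q)) ≠ _
          simp)
      · exact absurd h (by
          show (none : Option (M₁.Q ⊕ M₂.Q)) ≠ _
          simp)
    · rintro ⟨s', h, _⟩
      exact absurd h (by omega)
  | succ s =>
    have key : ∀ c', OStep O (unionM M₁ M₂) (oStart (unionM M₁ M₂) w) c' ↔
        c' = ⟨(Union_D₁ M₁ M₂).σ M₁.start, (oStart (unionM M₁ M₂) w).tape,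
          (oStart (unionM M₁ M₂) w).pos, []⟩ ∨
        c' = ⟨(Union_D₂ M₁ M₂).σ M₂.start, (oStart (unionM M₁ M₂) w).tape,
          (oStart (unionM M₁ M₂) w).pos, []⟩ := by
      intro c'
      constructor
      · rintro (⟨r, hr, e1, e2, e3, e4⟩ | ⟨r, hr, e0, _⟩)
        · obtain ⟨hr1, hr2, hr3, hr4⟩ := hr
          have t1 : c'.tape = (oStart (unionM M₁ M₂) w).tape := by
            rw [e2, hr2]
            funext i
            exact Function.update_eq_self _ _
          have t2 : c'.pos = (oStart (unionM M₁ M₂) w).pos := by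
            rw [e3, hr3]
            funext i
            exact add_zero _
          have t3 : c'.query = [] := by
            rw [e4, hr4]
            rfl
          obtain ⟨st, tp, ps, qu⟩ := c'
          simp only at e1 t1 t2 t3
          subst t1 t2 t3
          rcases hr1 with hr1 | hr1
          · left
            rw [e1, hr1]
            rfl
          · right
            rw [e1, hr1]
            rfl
        · rcases hr with ⟨a, _, rfl⟩ | ⟨a, _, rfl⟩
          · exact absurd e0 (by
              show (none : Option (M₁.Q ⊕ M₂.Q)) ≠ _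
              simp)
          · exact absurd e0 (by
              show (none : Option (M₁.Q ⊕ M₂.Q)) ≠ _
              simp)
      · rintro (rfl | rfl)
        · refine Or.inl ⟨(some (Sum.inl M₁.start), fun i => (oStart (unionM M₁ M₂) w).tape i
            ((oStart (unionM M₁ M₂) w).pos i), fun _ => Move.stay, none),
            ⟨Or.inl rfl, rfl, rfl, rfl⟩, rfl, ?_, ?_, rfl⟩
          · funext i
            exact (Function.update_eq_self _ _).symm
          · funext i
            exact (add_zero _).symm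
        · refine Or.inl ⟨(some (Sum.inr M₂.start), fun i => (oStart (unionM M₁ M₂) w).tape i
            ((oStart (unionM M₁ M₂) w).pos i), fun _ => Move.stay, none),
            ⟨Or.inr rfl, rfl, rfl, rfl⟩, rfl, ?_, ?_, rfl⟩
          · funext i
            exact (Function.update_eq_self _ _).symm
          · funext i
            exact (add_zero _).symm
    constructor
    · rintro ⟨c', h1, h2⟩
      refine ⟨s, rfl, ?_⟩
      rcases (key c').1 h1 with rfl | rfl
      · exact Or.inl (((Union_D₁ M₁ M₂).from O s _ _ hS₁).1 h2)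
      · exact Or.inr (((Union_D₂ M₁ M₂).from O s _ _ hS₂).1 h2)
    · rintro ⟨s', hs, h⟩
      obtain rfl : s = s' := by omega
      rcases h with h | h
      · exact ⟨_, (key _).2 (Or.inl rfl), ((Union_D₁ M₁ M₂).from O s _ _ hS₁).2 h⟩
      · exact ⟨_, (key _).2 (Or.inr rfl), ((Union_D₂ M₁ M₂).from O s _ _ hS₂).2 h⟩

end Pool.Agent.H10.RQ
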