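import Pool.Agent.H10.RQ.BMFin
import Pool.Agent.H10.RQ.ToO
import Pool.Agent.H10.RQ.Union
import Pool.Agent.H10.RQ.Arith

/-!
# RQ Lift: closure is inherited by covered honest bounds, relative to every oracle
-/

set_option autoImplicit false

namespace Pool.Agent.H10.RQ

open Pool.Agent.Lead.NTM

/-- `G` is honest: up to a polynomial it is the running time of a machine on the words `1ⁿ`. That
is, some machine (without oracle) accepts every word `1ⁿ`, all its accepting computations on `1ⁿ`
have the same length `τ n`, and `G n ≤ τ n ≤ p (G n)` for some polynomial `p`. -/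
def Honest (G : ℕ → ℕ) : Prop :=
  ∃ (E : Machine Unit) (τ : ℕ → ℕ) (p : Polynomial ℕ),
    (∀ n s, AcceptsIn E (List.replicate n ()) s ↔ s = τ n) ∧
    ∀ n, G n ≤ τ n ∧ τ n ≤ p.eval (G n)

/-- relative to `O` the class `NTIME(Pol t)` (over all finite alphabets) is closed under
complementation -/
def Closed (O : Set (List Bool)) (t : ℕ → ℕ) : Prop :=
  ∀ (A : Type) [Finite A], ONTIME O A t = OcoNTIME O A t

theorem peval_mono (p : Polynomial ℕ) {x y : ℕ} (h : x ≤ y) : p.eval x ≤ p.eval y := by
  rw [Polynomial.eval_eq_sum_range, Polynomial.eval_eq_sum_range]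
  exact Finset.sum_le_sum fun i _ => Nat.mul_le_mul_left _ (Nat.pow_le_pow_left h i)

theorem exists_exp (p : Polynomial ℕ) : ∃ k : ℕ, ∀ x y : ℕ, 1 ≤ x → x ≤ y →
    p.eval x < (y + 1) ^ k := by
  obtain ⟨k0, -, hk0⟩ := poly_le_pow p
  refine ⟨2 * k0 + 1, fun x y hx hxy => ?_⟩
  have h1 := hk0 x
  have h2 : x ^ k0 ≤ (x + 1) ^ k0 := Nat.pow_le_pow_left (by omega) _
  have h3 : 2 ^ (k0 + 1) ≤ (x + 1) ^ (k0 + 1) := Nat.pow_le_pow_left (by omega) _
  have h4 : k0 + 1 < 2 ^ (k0 + 1) := Nat.lt_two_pow_self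
  have h5 : 1 ≤ (x + 1) ^ k0 := Nat.one_le_pow _ _ (by omega)
  have h6 : (x + 1) ^ (2 * k0 + 1) = (x + 1) ^ k0 * (x + 1) ^ (k0 + 1) := by
    rw [← pow_add]
    congr 1
    omega
  have h7 : (x + 1) ^ k0 + (k0 + 1) ≤ (x + 1) ^ k0 * (x + 1) ^ (k0 + 1) := by
    have h8 : k0 + 2 ≤ (x + 1) ^ (k0 + 1) := by omega
    calc (x + 1) ^ k0 + (k0 + 1) ≤ (x + 1) ^ k0 + (x + 1) ^ k0 * (k0 + 1) := by
          have : 1 * (k0 + 1) ≤ (x + 1) ^ k0 * (k0 + 1) := Nat.mul_le_mul_right _ h5
          omega
      _ = (x + 1) ^ k0 * (k0 + 2) := by ring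
      _ ≤ _ := Nat.mul_le_mul_left _ h8
  calc p.eval x ≤ x ^ k0 + k0 := h1
    _ < (x + 1) ^ (2 * k0 + 1) := by rw [h6]; omega
    _ ≤ (y + 1) ^ (2 * k0 + 1) := Nat.pow_le_pow_left (by omega) _

/-- blocks -/
abbrev Blk (A : Type) (c : ℕ) : Type := {u : List A // u.length ≤ c}

theorem finite_blk (A : Type) [Finite A] (c : ℕ) : Finite (Blk A c) := by
  have h1 : Finite {l : List A // l.length < c + 1} := (List.finite_length_lt A (c + 1)).to_subtype
  exact Finite.of_injective (fun u : Blk A c => (⟨u.1, Nat.lt_succ_of_le u.2⟩ :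
    {l : List A // l.length < c + 1})) (by
      intro u v h
      simp only [Subtype.mk.injEq] at h
      exact Subtype.ext h)

/-- the word of a list of blocks -/
def flt {A : Type} {c : ℕ} (v : List (Blk A c)) : List A := (v.map Subtype.val).flatten

theorem flt_length_le {A : Type} {c : ℕ} (v : List (Blk A c)) :
    (flt v).length ≤ c * v.length := by
  induction v with
  | nil => simp [flt]
  | cons b v ih =>
    have h1 : flt (b :: v) = b.1 ++ flt v := by simp [flt]
    rw [h1, List.length_append, List.length_cons, Nat.mul_add]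
    have := b.2
    omega

theorem exists_blocks {A : Type} (c : ℕ) (m : ℕ) (w : List A) (h : w.length ≤ c * m) :
    ∃ v : List (Blk A c), v.length = m ∧ flt v = w := by
  induction m generalizing w with
  | zero =>
    refine ⟨[], rfl, ?_⟩
    have : w.length = 0 := by simpa using h
    rw [List.length_eq_zero_iff.mp this]
    rfl
  | succ m ih =>
    obtain ⟨v, hv1, hv2⟩ := ih (w.drop c) (by
      rw [List.length_drop]
      rw [Nat.mul_add] at h
      omega)
    refine ⟨⟨w.take c, by rw [List.length_take]; omega⟩ :: v, by simp [hv1], ?_⟩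
    have h1 : flt ((⟨w.take c, by rw [List.length_take]; omega⟩ : Blk A c) :: v) =
      w.take c ++ flt v := by simp [flt]
    rw [h1, hv2, List.take_append_drop]

theorem sum_len {A : Type} {c : ℕ} (v : List (Blk A c)) :
    (v.map (fun b => b.1.length)).sum = (flt v).length := by
  induction v with
  | nil => rfl
  | cons b v ih =>
    have h1 : flt (b :: v) = b.1 ++ flt v := by simp [flt]
    rw [h1, List.map_cons, List.sum_cons, ih, List.length_append]

theorem flatten_single {B : Type} (v : List B) : (v.map (fun b => [b])).flatten = v := by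
  induction v with
  | nil => rfl
  | cons b v ih =>
    rw [List.map_cons, List.flatten_cons, ih]
    rfl

theorem sum_one {B : Type} (v : List B) : (v.map (fun _ => 1)).sum = v.length := by
  induction v with
  | nil => rfl
  | cons b v ih => rw [List.map_cons, List.sum_cons, ih, List.length_cons, Nat.add_comm]

/-- the machine that runs `M` on the word of a list of blocks -/
def par1 {A : Type} (c k : ℕ) (E E' : Machine Unit) (M : OMachine A) [Finite A] :
    Par (Blk A c) A where
  I := Blk A c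
  finI := finite_blk A c
  α := fun b => [b]
  β := fun b => b.1
  γ := fun b => b.1.length
  γ' := fun _ => 1
  c := c + 1
  hα := fun b => by simp
  hβ := fun b => by have := b.2; omega
  hγ := fun b => by have := b.2; omega
  hγ' := fun _ => by omega
  E := E
  E' := E'
  M := M
  k := k

/-- the machine that cuts a word into blocks and runs `M` on them -/
def par2 {A : Type} (c k : ℕ) (E E' : Machine Unit) [Finite A] (M : OMachine (Blk A c)) :
    Par A (Blk A c) where
  I := Blk A c
  finI := finite_blk A c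
  α := fun b => b.1
  β := fun b => [b]
  γ := fun b => b.1.length
  γ' := fun _ => 1
  c := c + 1
  hα := fun b => by have := b.2; omega
  hβ := fun b => by simp
  hγ := fun b => by have := b.2; omega
  hγ' := fun _ => by omega
  E := E
  E' := E'
  M := M
  k := k

theorem cost_le {A : Type} {c : ℕ} (f : Blk A c → ℕ) (hf : ∀ b, f b ≤ 2 * c + 3)
    (v : List (Blk A c)) : (v.map f).sum ≤ (2 * c + 3) * v.length := by
  induction v with
  | nil => simp
  | cons b v ih =>
    rw [List.map_cons, List.sum_cons, List.length_cons, Nat.mul_add]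
    have := hf b
    omega

theorem cost1_le {A : Type} [Finite A] (c k : ℕ) (E E' : Machine Unit) (M : OMachine A)
    (v : List (Blk A c)) : (v.map (par1 c k E E' M).cost).sum ≤ (2 * c + 3) * v.length := by
  refine cost_le (f := (par1 c k E E' M).cost) (fun b => ?_) v
  have h1 : (par1 c k E E' M).cost b = 1 + 1 + b.1.length + b.1.length + 1 := rfl
  rw [h1]
  have := b.2
  omega

theorem cost2_le {A : Type} [Finite A] (c k : ℕ) (E E' : Machine Unit)
    (M : OMachine (Blk A c)) (v : List (Blk A c)) :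
    (v.map (par2 c k E E' M).cost).sum ≤ (2 * c + 3) * v.length := by
  refine cost_le (f := (par2 c k E E' M).cost) (fun b => ?_) v
  have h1 : (par2 c k E E' M).cost b = 1 + b.1.length + 1 + b.1.length + 1 := rfl
  rw [h1]
  have := b.2
  omega

/-- one function of the covering family -/
theorem one (O : Set (List Bool)) (A : Type) [Finite A] (t t' : ℕ → ℕ)
    (hid' : ∀ n, n ≤ t' n) {E : Machine Unit} {τ : ℕ → ℕ} {pE : Polynomial ℕ}
    (hE : ∀ n s, AcceptsIn E (List.replicate n ()) s ↔ s = τ n)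
    (hτ : ∀ n, t n ≤ τ n ∧ τ n ≤ pE.eval (t n)) (hon' : Honest t') (hcl : Closed O t')
    {L : Set (List A)} (hL : L ∈ ONTIME O A t) (c : ℕ) :
    ∃ (N : OMachine A) (Q : Polynomial ℕ), (∀ w s, OAcceptsIn O N w s → w ∉ L) ∧
      ∀ w, w ∉ L → ∀ m, 1 ≤ m → w.length ≤ c * m → t' m ≤ t w.length ^ c + c →
        t w.length ≤ t' m ^ c + c → ∃ s ≤ Q.eval (t w.length), OAcceptsIn O N w s := by
  obtain ⟨M, p, hM1, hM2⟩ := hL
  obtain ⟨E', τ', pE', hE', hτ'⟩ := hon'
  obtain ⟨k, hk⟩ := exists_exp (pE.comp (Polynomial.X ^ c + Polynomial.C c))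
  have hfin := finite_blk A c
  -- the language of block words
  obtain ⟨N1, hN1⟩ := exists_toO (par1 c k E E' M).bm
  set L' : Set (List (Blk A c)) :=
    {v | flt v ∈ L ∧ τ (flt v).length < (τ' v.length + 1) ^ k} with hL'
  have hN1acc : ∀ v s, OAcceptsIn O N1 v s ↔ ∃ s', OAcceptsIn O M (flt v) s' ∧
      τ (flt v).length < (τ' v.length + 1) ^ k ∧
      s = (v.map (par1 c k E E' M).cost).sum + 1 +
        (max (flt v).length (max v.length (flt v).length) + 1) +
        (τ' v.length + 1 + (τ (flt v).length + 1 + s')) := by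
    intro v s
    rw [hN1, Par.bm_acc]
    constructor
    · rintro ⟨is, sA, sE, s', h1, h2, h3, h4, h5, h6⟩
      have e1 : v = is := h1.trans (flatten_single is)
      subst e1
      have e2 : (v.map (par1 c k E E' M).γ').sum = v.length := sum_one v
      have e3 : (v.map (par1 c k E E' M).γ).sum = (flt v).length := sum_len v
      have e4 : (v.map (par1 c k E E' M).β).flatten = flt v := rfl
      rw [e2] at h2 h6
      rw [e3] at h3 h6
      rw [e4] at h5 h6
      have e5 : sA = τ' v.length := (hE' _ _).mp h2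
      have e6 : sE = τ (flt v).length := (hE _ _).mp h3
      subst e5 e6
      exact ⟨s', h5, h4, h6⟩
    · rintro ⟨s', h1, h2, h3⟩
      have e2 : (v.map (par1 c k E E' M).γ').sum = v.length := sum_one v
      have e3 : (v.map (par1 c k E E' M).γ).sum = (flt v).length := sum_len v
      have e4 : (v.map (par1 c k E E' M).β).flatten = flt v := rfl
      refine ⟨v, τ' v.length, τ (flt v).length, s', (flatten_single v).symm, ?_, ?_, h2, ?_, ?_⟩
      · rw [e2]
        exact (hE' _ _).mpr rfl
      · rw [e3]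
        exact (hE _ _).mpr rfl
      · rw [e4]
        exact h1
      · rw [e2, e3, e4]
        exact h3
  have hL'mem : L' ∈ ONTIME O (Blk A c) t' := by
    refine ⟨N1, (Polynomial.C (2 * c + 3) * Polynomial.X + 1 +
      (Polynomial.C (c + 1) * Polynomial.X + 1) +
      (pE' + 1 + ((pE' + 1) ^ k + 1 + p.comp ((pE' + 1) ^ k)))), ?_, ?_⟩
    · intro v
      constructor
      · rintro ⟨h1, h2⟩
        obtain ⟨s', hs'⟩ := (hM1 _).mp h1
        exact ⟨_, (hN1acc v _).mpr ⟨s', hs', h2, rfl⟩⟩
      · rintro ⟨s, hs⟩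
        obtain ⟨s', h1, h2, -⟩ := (hN1acc v s).mp hs
        exact ⟨(hM1 _).mpr ⟨s', h1⟩, h2⟩
    · rintro v ⟨h1, h2⟩
      obtain ⟨s', hs', hacc⟩ := hM2 _ h1
      refine ⟨_, ?_, (hN1acc v _).mpr ⟨s', hacc, h2, rfl⟩⟩
      have b1 := cost1_le c k E E' M v
      have b2 := flt_length_le v
      have b3 := hid' v.length
      have b4 := (hτ' v.length).2
      have b5 : (τ' v.length + 1) ^ k ≤ (pE'.eval (t' v.length) + 1) ^ k :=
        Nat.pow_le_pow_left (by omega) k
      have b6 : t (flt v).length ≤ (pE'.eval (t' v.length) + 1) ^ k := by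
        have := (hτ (flt v).length).1
        omega
      have b7 := peval_mono p b6
      have b8 : (2 * c + 3) * v.length ≤ (2 * c + 3) * t' v.length := Nat.mul_le_mul_left _ b3
      have b9 : c * v.length ≤ c * t' v.length := Nat.mul_le_mul_left _ b3
      have b10 : max (flt v).length (max v.length (flt v).length) ≤ (c + 1) * t' v.length := by
        rw [Nat.add_mul]
        omega
      simp only [Polynomial.eval_add, Polynomial.eval_mul, Polynomial.eval_C, Polynomial.eval_X,
        Polynomial.eval_one, Polynomial.eval_pow, Polynomial.eval_comp]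
      omega
  have hL'co : L'ᶜ ∈ ONTIME O (Blk A c) t' := by
    have h1 := hcl (Blk A c)
    rw [h1] at hL'mem
    exact hL'mem
  obtain ⟨M', p', hM'1, hM'2⟩ := hL'co
  obtain ⟨N2, hN2⟩ := exists_toO (par2 c k E E' M').bm
  set Y : Polynomial ℕ := Polynomial.X ^ c + Polynomial.C c with hY
  have hYe : ∀ x : ℕ, Y.eval x = x ^ c + c := by
    intro x
    simp [hY]
  refine ⟨N2, (Polynomial.C (2 * c + 3) * Y + 1 + (Polynomial.C (c + 1) * Y + 1) +
    (pE'.comp Y + 1 + (pE + 1 + p'.comp Y))), ?_, ?_⟩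
  · intro w s hs
    rw [hN2, Par.bm_acc] at hs
    obtain ⟨v, sA, sE, s', h1, h2, h3, h4, h5, -⟩ := hs
    have e1 : w = flt v := h1
    have e2 : (v.map (par2 c k E E' M').γ').sum = v.length := sum_one v
    have e3 : (v.map (par2 c k E E' M').γ).sum = (flt v).length := sum_len v
    have e4 : (v.map (par2 c k E E' M').β).flatten = v := flatten_single v
    rw [e2] at h2
    rw [e3] at h3
    rw [e4] at h5
    have e5 : sA = τ' v.length := (hE' _ _).mp h2
    have e6 : sE = τ (flt v).length := (hE _ _).mp h3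
    have h6 : v ∈ L'ᶜ := (hM'1 v).mpr ⟨s', h5⟩
    intro hw
    apply h6
    rw [e1] at hw
    rw [e5, e6] at h4
    exact ⟨hw, h4⟩
  · intro w hw m hm hwm h1 h2
    obtain ⟨v, hv1, hv2⟩ := exists_blocks c m w hwm
    have h3 : v ∈ L'ᶜ := by
      rintro ⟨h4, -⟩
      rw [hv2] at h4
      exact hw h4
    obtain ⟨s', hs', hacc⟩ := hM'2 v h3
    have h5 : τ w.length < (τ' v.length + 1) ^ k := by
      have h6 := (hτ w.length).2
      have h7 := peval_mono pE h2
      have h8 := hk (t' m) (τ' m) (hm.trans (hid' m)) (hτ' m).1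
      rw [Polynomial.eval_comp, hYe] at h8
      rw [hv1]
      omega
    have e2 : (v.map (par2 c k E E' M').γ').sum = v.length := sum_one v
    have e3 : (v.map (par2 c k E E' M').γ).sum = (flt v).length := sum_len v
    have e4 : (v.map (par2 c k E E' M').β).flatten = v := flatten_single v
    refine ⟨(v.map (par2 c k E E' M').cost).sum + 1 +
        (max (flt v).length (max v.length v.length) + 1) +
        (τ' v.length + 1 + (τ w.length + 1 + s')), ?_, ?_⟩
    · have b1 := cost2_le c k E E' M' v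
      have b2 := flt_length_le v
      have b3 := hid' m
      have b4 : τ' v.length ≤ pE'.eval (t w.length ^ c + c) := by
        rw [hv1]
        exact (hτ' m).2.trans (peval_mono pE' h1)
      have b5 := (hτ w.length).2
      have b6 : s' ≤ p'.eval (t w.length ^ c + c) := by
        rw [hv1] at hs'
        exact hs'.trans (peval_mono p' h1)
      have b7 : v.length ≤ t w.length ^ c + c := by omega
      have b8 : (2 * c + 3) * v.length ≤ (2 * c + 3) * (t w.length ^ c + c) :=
        Nat.mul_le_mul_left _ b7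
      have b9 : c * v.length ≤ c * (t w.length ^ c + c) := Nat.mul_le_mul_left _ b7
      have b10 : max (flt v).length (max v.length v.length) ≤
          (c + 1) * (t w.length ^ c + c) := by
        rw [Nat.add_mul c 1]
        omega
      simp only [hY, Polynomial.eval_add, Polynomial.eval_mul, Polynomial.eval_C,
        Polynomial.eval_X, Polynomial.eval_one, Polynomial.eval_pow, Polynomial.eval_comp]
      omega
    · rw [hN2, Par.bm_acc]
      refine ⟨v, τ' v.length, τ (flt v).length, s', hv2.symm, ?_, ?_, ?_, ?_, ?_⟩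
      · rw [e2]
        exact (hE' _ _).mpr rfl
      · rw [e3]
        exact (hE _ _).mpr rfl
      · rw [hv2]
        exact h5
      · rw [e4]
        exact hacc
      · rw [e2, e3, e4, hv2]

theorem union_finset {κ A : Type} (F : Finset κ) (hne : F.Nonempty) (N : κ → OMachine A) :
    ∃ (M : OMachine A) (c : ℕ), ∀ (O : Set (List Bool)) (w : List A),
      (∀ s, OAcceptsIn O M w s → ∃ i ∈ F, ∃ s', OAcceptsIn O (N i) w s') ∧
      ∀ i ∈ F, ∀ s, OAcceptsIn O (N i) w s → ∃ s' ≤ s + c, OAcceptsIn O M w s' := by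
  classical
  induction hne using Finset.Nonempty.cons_induction with
  | singleton i =>
    refine ⟨N i, 0, fun O w => ⟨fun s hs => ⟨i, by simp, s, hs⟩, fun j hj s hs => ?_⟩⟩
    rw [Finset.mem_singleton] at hj
    subst hj
    exact ⟨s, le_rfl, hs⟩
  | cons i F hi hF ih =>
    obtain ⟨M, c, hM⟩ := ih
    obtain ⟨M', hM'⟩ := exists_union (N i) M
    refine ⟨M', c + 1, fun O w => ⟨fun s hs => ?_, fun j hj s hs => ?_⟩⟩
    · obtain ⟨s', -, h | h⟩ := (hM' O w s).mp hs
      · exact ⟨i, Finset.mem_cons_self i F, s', h⟩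
      · obtain ⟨j, hj, s2, h2⟩ := (hM O w).1 s' h
        exact ⟨j, Finset.mem_cons_of_mem hj, s2, h2⟩
    · rw [Finset.mem_cons] at hj
      rcases hj with rfl | hj
      · exact ⟨s + 1, by omega, (hM' O w _).mpr ⟨s, rfl, Or.inl hs⟩⟩
      · obtain ⟨s', h1, h2⟩ := (hM O w).2 j hj s hs
        exact ⟨s' + 1, by omega, (hM' O w _).mpr ⟨s', rfl, Or.inr h2⟩⟩

theorem covered_pos {F : Finset (ℕ → ℕ)} {C : ℕ} {t : ℕ → ℕ} (h : CoveredBy F C t) :
    ∃ c : ℕ, ∀ n, ∃ t' ∈ F, ∃ m, 1 ≤ m ∧ n ≤ c * m ∧ t' m ≤ t n ^ c + c ∧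
      t n ≤ t' m ^ c + c := by
  classical
  set c : ℕ := 2 * C + ∑ n ∈ Finset.range (C + 1), t n + ∑ t' ∈ F, t' 1 + 1 with hc
  have hmono : ∀ x : ℕ, x ^ C + C ≤ x ^ c + c := by
    intro x
    rcases Nat.eq_zero_or_pos C with h0 | h0
    · rw [h0, pow_zero]
      omega
    · exact pow_add_mono x h0 (by omega)
  refine ⟨c, fun n => ?_⟩
  obtain ⟨t', ht', m, h1, h2, h3⟩ := h n
  rcases Nat.eq_zero_or_pos m with hm | hm
  · subst hm
    have h4 : n ≤ C := by simpa using h1
    have h5 : t n ≤ ∑ n ∈ Finset.range (C + 1), t n :=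
      Finset.single_le_sum (f := t) (fun i _ => Nat.zero_le _) (Finset.mem_range.mpr (by omega))
    have h6 : t' 1 ≤ ∑ t' ∈ F, t' 1 :=
      Finset.single_le_sum (f := fun t' : ℕ → ℕ => t' 1) (fun i _ => Nat.zero_le _) ht'
    refine ⟨t', ht', 1, le_rfl, by omega, ?_, ?_⟩
    · have : t' 1 ≤ c := by omega
      omega
    · have : t n ≤ c := by omega
      omega
  · refine ⟨t', ht', m, hm, ?_, h2.trans (hmono _), h3.trans (hmono _)⟩
    have h4 : C * m + C ≤ 2 * C * m := by nlinarith
    have h5 : 2 * C * m ≤ c * m := Nat.mul_le_mul_right m (by omega)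
    omega

/-- **Lifting**: relative to every oracle, closure is inherited by covered honest bounds. -/
theorem lift (O : Set (List Bool)) {F : Finset (ℕ → ℕ)} {C : ℕ} {t : ℕ → ℕ}
    (hF : ∀ t' ∈ F, Honest t' ∧ (∀ n, n ≤ t' n) ∧ Closed O t') (ht : Honest t)
    (hcov : CoveredBy F C t) : Closed O t := by
  classical
  obtain ⟨c, hc⟩ := covered_pos hcov
  obtain ⟨E, τ, pE, hE, hτ⟩ := ht
  have hne : F.Nonempty := by
    obtain ⟨t', ht', -⟩ := hc 0
    exact ⟨t', ht'⟩
  intro A _
  have key : ∀ L ∈ ONTIME O A t, Lᶜ ∈ ONTIME O A t := by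
    intro L hL
    have h1 : ∀ t' : ℕ → ℕ, ∃ (N : OMachine A) (Q : Polynomial ℕ), t' ∈ F →
        (∀ w s, OAcceptsIn O N w s → w ∉ L) ∧
        ∀ w, w ∉ L → ∀ m, 1 ≤ m → w.length ≤ c * m → t' m ≤ t w.length ^ c + c →
          t w.length ≤ t' m ^ c + c → ∃ s ≤ Q.eval (t w.length), OAcceptsIn O N w s := by
      intro t'
      by_cases h : t' ∈ F
      · obtain ⟨N, Q, h2⟩ := one O A t t' (hF t' h).2.1 hE hτ (hF t' h).1 (hF t' h).2.2 hL c
        exact ⟨N, Q, fun _ => h2⟩
      · obtain ⟨M, -, -⟩ := hL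
        exact ⟨M, 0, fun h' => absurd h' h⟩
    choose N Q hNQ using h1
    obtain ⟨M, c', hM⟩ := union_finset F hne N
    refine ⟨M, (∑ t' ∈ F, Q t') + Polynomial.C c', ?_, ?_⟩
    · intro w
      constructor
      · intro hw
        obtain ⟨t', ht', m, h1, h2, h3, h4⟩ := hc w.length
        obtain ⟨s, -, hs⟩ := (hNQ t' ht').2 w hw m h1 h2 h3 h4
        obtain ⟨s', -, hs'⟩ := (hM O w).2 t' ht' s hs
        exact ⟨s', hs'⟩
      · rintro ⟨s, hs⟩
        obtain ⟨t', ht', s', hs'⟩ := (hM O w).1 s hs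
        exact (hNQ t' ht').1 w s' hs'
    · intro w hw
      obtain ⟨t', ht', m, h1, h2, h3, h4⟩ := hc w.length
      obtain ⟨s, hs0, hs⟩ := (hNQ t' ht').2 w hw m h1 h2 h3 h4
      obtain ⟨s', hs1, hs'⟩ := (hM O w).2 t' ht' s hs
      refine ⟨s', hs1.trans ?_, hs'⟩
      rw [Polynomial.eval_add, Polynomial.eval_C, Polynomial.eval_finset_sum]
      have h5 : (Q t').eval (t w.length) ≤ ∑ t' ∈ F, (Q t').eval (t w.length) :=
        Finset.single_le_sum (f := fun t' => (Q t').eval (t w.length))
          (fun i _ => Nat.zero_le _) ht'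
      omega
  refine Set.Subset.antisymm (fun L hL => key L hL) (fun L hL => ?_)
  have h1 := key _ hL
  rw [compl_compl] at h1
  exact h1

end Pool.Agent.H10.RQ
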