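import Pool.Agent.H10.RQ.Comp
import Pool.Agent.H10.RQ.Lift

/-!
# RQ Final: the classification
-/

set_option autoImplicit false

namespace Pool.Agent.H10.RQ

/-- computable honest time bounds `t ≥ id` -/
def HonestBound (t : ℕ → ℕ) : Prop := Computable t ∧ (∀ n, n ≤ t n) ∧ Honest t

/-- every honest bound that is covered by `𝒜` belongs to `𝒜` -/
def CoverClosed (𝒜 : Set (ℕ → ℕ)) : Prop := ∀ t, HonestBound t → Covered 𝒜 t → t ∈ 𝒜

theorem covered_of_mem {𝒜 : Set (ℕ → ℕ)} {t : ℕ → ℕ} (h : t ∈ 𝒜) : Covered 𝒜 t := by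
  refine ⟨{t}, 1, fun t' ht' => ?_, fun n => ⟨t, Finset.mem_singleton_self t, n, ?_, ?_, ?_⟩⟩
  · rw [Finset.mem_singleton] at ht'
    rw [ht']
    exact h
  · omega
  · rw [pow_one]
    omega
  · rw [pow_one]
    omega

theorem classification (𝒜 : Set (ℕ → ℕ)) (h𝒜 : ∀ t ∈ 𝒜, HonestBound t) :
    (∃ O : Set (List Bool), 𝒜 = {t | HonestBound t ∧ Closed O t}) ↔ CoverClosed 𝒜 := by
  constructor
  · rintro ⟨O, hO⟩ t ht ⟨F, C, hF, hcov⟩
    have h1 : Closed O t := by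
      refine lift O (F := F) (C := C) (fun t' ht' => ?_) ht.2.2 hcov
      have h2 := hF t' ht'
      rw [hO] at h2
      exact ⟨h2.1.2.2, h2.1.2.1, h2.2⟩
    rw [hO]
    exact ⟨ht, h1⟩
  · intro hcl
    obtain ⟨O, hO⟩ := main_computable 𝒜
    refine ⟨O, ?_⟩
    ext t
    constructor
    · intro ht
      have h1 := h𝒜 t ht
      refine ⟨h1, fun A _ => ?_⟩
      exact ((hO t h1.1 h1.2.1).2 (covered_of_mem ht) A).1
    · rintro ⟨h1, h2⟩
      exact hcl t h1 (((hO t h1.1 h1.2.1).1 Bool).mp (h2 Bool))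

end Pool.Agent.H10.RQ
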