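import Pool.Agent.H10.RQ.Defs

/-!
# RQ GM: oracle machines with an arbitrary finite set of tapes, each with its own alphabet
(definitions)
-/

set_option autoImplicit false

namespace Pool.Agent.H10.RQ

open Pool.Agent.Lead.NTM

/-- oracle machines with an arbitrary finite set of tapes, each tape with its own alphabet -/
structure GM (X : Type) where
  ι : Type
  finι : Finite ι
  inp : ι
  Γ : ι → Type
  finΓ : ∀ i, Finite (Γ i)
  /-- letters on the input tape -/
  lt : X → Γ inp
  Q : Type
  finQ : Finite Q
  start : Q
  acc : Set Q
  δ : Q → ((i : ι) → Option (Γ i)) →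
    Set (Q × ((i : ι) → Option (Γ i)) × (ι → Move) × Option Bool)
  ask : Set (Q × Q × Q)

/-- configurations -/
structure GC {X : Type} (M : GM X) where
  state : M.Q
  tape : (i : M.ι) → ℤ → Option (M.Γ i)
  pos : M.ι → ℤ
  query : List Bool

open Classical in
/-- start configuration -/
noncomputable def gStart {X : Type} (M : GM X) (w : List X) : GC M where
  state := M.start
  tape := Function.update (fun _ _ => none) M.inp
    (fun z => if 0 ≤ z then (w[z.toNat]?).map M.lt else none)
  pos := fun _ => 0
  query := []

open Classical in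
/-- one step -/
def GStep {X : Type} (O : Set (List Bool)) (M : GM X) (c c' : GC M) : Prop :=
  (∃ r ∈ M.δ c.state (fun i => c.tape i (c.pos i)),
    c'.state = r.1 ∧
    c'.tape = (fun i => Function.update (c.tape i) (c.pos i) (r.2.1 i)) ∧
    c'.pos = (fun i => c.pos i + (r.2.2.1 i).toInt) ∧
    c'.query = c.query ++ r.2.2.2.toList) ∨
  (∃ r ∈ M.ask, c.state = r.1 ∧
    c'.state = (if c.query ∈ O then r.2.1 else r.2.2) ∧
    c'.tape = c.tape ∧ c'.pos = c.pos ∧ c'.query = [])

/-- an accepting state can be reached from the configuration in exactly `s` steps -/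
def GFrom {X : Type} (O : Set (List Bool)) (M : GM X) : ℕ → GC M → Prop
  | 0, c => c.state ∈ M.acc
  | s + 1, c => ∃ c', GStep O M c c' ∧ GFrom O M s c'

/-- acceptance in exactly `s` steps -/
def GAcc {X : Type} (O : Set (List Bool)) (M : GM X) (w : List X) (s : ℕ) : Prop :=
  GFrom O M s (gStart M w)

/-- the same for oracle machines: an accepting state can be reached from the configuration in
exactly `s` steps -/
def OFrom {A : Type} (O : Set (List Bool)) (M : OMachine A) : ℕ → OConfig M → Prop
  | 0, c => c.state ∈ M.accepting
  | s + 1, c => ∃ c', OStep O M c c' ∧ OFrom O M s c'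

/-- the same for plain machines -/
def PFrom {A : Type} (M : Machine A) : ℕ → Config M → Prop
  | 0, c => c.state ∈ M.accepting
  | s + 1, c => ∃ c', Step M c c' ∧ PFrom M s c'

/-- plain machines as oracle machines without queries -/
def ofPlain {A : Type} (M : Machine A) : OMachine A where
  k := M.k
  Q := M.Q
  finQ := M.finQ
  G := M.G
  finG := M.finG
  start := M.start
  accepting := M.accepting
  δ := fun q x => {r | (r.1, r.2.1, r.2.2.1) ∈ M.δ q x ∧ r.2.2.2 = none}
  ask := ∅

end Pool.Agent.H10.RQ
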