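import Pool.Agent.H10.RQ.Defs

/-!
# RQ Guess: the guess machine

Machine with one tape (`k = 0`), no extra letters (`G = Empty`), states for example
`pre i` (`i < |u|`, writes the bit `u[i]`), `rd` (reads the input cell: at a letter `a` it writes
`true` on the query tape, moves right and goes to `blk (f a)`-like states which write
`true^(f a)` and `false` (the values `f a`, `a : A`, are bounded since `A` is finite), at the blank it
writes `false` and goes to `gs`), `gs` (writes any bit and stays in `gs`, or asks: `(gs, acc, dead)`).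
`accepting = {acc}`; `acc`, `dead` have no transitions.
After the phases `pre`, `rd` the query tape contains `u ++ enc (w.map f)`, in `gs` it contains
`u ++ (enc (w.map f) ++ z)` for an arbitrary `z`.
Time: `|u| + ∑_{a in w} (f a + 2) + 1 + |z| + 1`, plus a bounded number of steps.

(You may choose the machine differently, e.g. states = lists of bits still to be written:
`Q = {l : List Bool // l.length ≤ N} ⊕ ...`: in state `l = b :: l'` write `b` and go to `l'`.)
-/

set_option autoImplicit false

namespace Pool.Agent.H10.RQ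

open Pool.Agent.Lead.NTM

section GuessMachine

variable {A : Type}

/-- the states: a list of bits still to be written; guessing, accepting, dead -/
private abbrev GuessQ (N : ℕ) : Type := {l : List Bool // l.length ≤ N} ⊕ Fin 3

/-- the code of a letter -/
private def guessWord (f : A → ℕ) (a : A) : List Bool :=
  true :: (List.replicate (f a) true ++ [false])

/-- the transitions -/
private inductive GuessTr (f : A → ℕ) (N : ℕ) :
    GuessQ N → Option (A ⊕ Empty) → GuessQ N → Move → Option Bool → Prop
  | wr (q q' : {l : List Bool // l.length ≤ N}) (b : Bool) (x : Option (A ⊕ Empty))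
      (h : q.1 = b :: q'.1) : GuessTr f N (Sum.inl q) x (Sum.inl q') Move.stay (some b)
  | rd (q q' : {l : List Bool // l.length ≤ N}) (a : A) (h : q.1 = []) (h' : q'.1 = guessWord f a) :
      GuessTr f N (Sum.inl q) (some (Sum.inl a)) (Sum.inl q') Move.right none
  | bl (q : {l : List Bool // l.length ≤ N}) (h : q.1 = []) :
      GuessTr f N (Sum.inl q) none (Sum.inr 0) Move.stay (some false)
  | gs (b : Bool) (x : Option (A ⊕ Empty)) :
      GuessTr f N (Sum.inr 0) x (Sum.inr 0) Move.stay (some b)

/-- the machine -/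
private def guessM (f : A → ℕ) (N : ℕ) (u : List Bool) (hu : u.length ≤ N) : OMachine A where
  k := 0
  Q := GuessQ N
  finQ := by
    have : Finite {l : List Bool // l.length ≤ N} := (List.finite_length_le Bool N).to_subtype
    infer_instance
  G := Empty
  finG := inferInstance
  start := Sum.inl ⟨u, hu⟩
  accepting := {Sum.inr 1}
  δ q x := {r | r.2.1 = x ∧ GuessTr f N q (x 0) r.1 (r.2.2.1 0) r.2.2.2}
  ask := {(Sum.inr 0, Sum.inr 1, Sum.inr 2)}

/-- a configuration -/
private def guessC (f : A → ℕ) (N : ℕ) (u : List Bool) (hu : u.length ≤ N) (w : List A)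
    (q : GuessQ N) (p : ℤ) (y : List Bool) : OConfig (guessM f N u hu) where
  state := q
  tape := fun i => if i = 0 then wordTape w else fun _ => none
  pos := fun _ => p
  query := y

variable {f : A → ℕ} {N : ℕ} {u : List Bool} {hu : u.length ≤ N} {w : List A} {O : Set (List Bool)}

/-- the letter at the position `p` of the input tape -/
private theorem guess_tape (w : List A) (p : ℕ) :
    (wordTape w (p : ℤ) : Option (A ⊕ Empty)) = (w[p]?).map Sum.inl := by
  unfold wordTape
  rw [if_pos (Int.natCast_nonneg p), Int.toNat_natCast]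

private theorem guess_step {q q' : GuessQ N} {p : ℤ} {y : List Bool} {m : Move} {o : Option Bool}
    (h : GuessTr f N q (wordTape w p) q' m o) :
    OStep O (guessM f N u hu) (guessC f N u hu w q p y)
      (guessC f N u hu w q' (p + m.toInt) (y ++ o.toList)) := by
  refine Or.inl ⟨(q', fun i => (guessC f N u hu w q p y).tape i p, fun _ => m, o), ?_, rfl, ?_, rfl,
    rfl⟩
  · refine ⟨rfl, ?_⟩
    show GuessTr f N q ((guessC f N u hu w q p y).tape 0 p) q' m o
    have e : (guessC f N u hu w q p y).tape 0 p = wordTape w p := rfl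
    rw [e]
    exact h
  · funext i
    exact (Function.update_eq_self _ _).symm

private theorem guess_ask {p : ℤ} {y : List Bool} (h : y ∈ O) :
    OStep O (guessM f N u hu) (guessC f N u hu w (Sum.inr 0) p y)
      (guessC f N u hu w (Sum.inr 1) p []) := by
  refine Or.inr ⟨(Sum.inr 0, Sum.inr 1, Sum.inr 2), rfl, rfl, ?_, rfl, rfl, rfl⟩
  have h' : (guessC f N u hu w (Sum.inr 0) p y).query ∈ O := h
  rw [if_pos h']
  rfl

/-- `n` steps lead from `c` to `c'` -/
private def GuessR (O : Set (List Bool)) (M : OMachine A) : ℕ → OConfig M → OConfig M → Prop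
  | 0, c, c' => c = c'
  | n + 1, c, c' => ∃ d, GuessR O M n c d ∧ OStep O M d c'

private theorem GuessR_trans {M : OMachine A} {m : ℕ} {a b : OConfig M} (h : GuessR O M m a b) :
    ∀ (n : ℕ) (c : OConfig M), GuessR O M n b c → GuessR O M (m + n) a c := by
  intro n
  induction n with
  | zero =>
    intro c h'
    have e : b = c := h'
    rw [← e]
    exact h
  | succ n ih =>
    intro c h'
    obtain ⟨d, h1, h2⟩ := h'
    exact ⟨d, ih d h1, h2⟩

private theorem GuessR_one {M : OMachine A} {a b : OConfig M} (h : OStep O M a b) :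
    GuessR O M 1 a b := ⟨a, rfl, h⟩

private theorem GuessR_run {M : OMachine A} (a : OConfig M) : ∀ (n : ℕ) (b : OConfig M),
    GuessR O M n a b → ∃ c : ℕ → OConfig M, c 0 = a ∧ (∀ i < n, OStep O M (c i) (c (i + 1))) ∧
      c n = b := by
  intro n
  induction n with
  | zero =>
    intro b h
    exact ⟨fun _ => a, rfl, fun i hi => absurd hi (Nat.not_lt_zero i), h⟩
  | succ n ih =>
    intro b h
    obtain ⟨d, h1, h2⟩ := h
    obtain ⟨c, h3, h4, h5⟩ := ih d h1
    refine ⟨fun i => if i ≤ n then c i else b, ?_, ?_, ?_⟩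
    · simp only [Nat.zero_le, if_true]
      exact h3
    · intro i hi
      by_cases hin : i + 1 ≤ n
      · simp only [hin, if_true, (by omega : i ≤ n)]
        exact h4 i (by omega)
      · have e : i = n := by omega
        subst e
        simp only [le_refl, if_true, hin, if_false]
        rw [h5]
        exact h2
    · exact if_neg (by omega)

/-- writing a list of bits -/
private theorem guess_write (p : ℤ) : ∀ (l : List Bool) (h : l.length ≤ N) (y : List Bool),
    GuessR O (guessM f N u hu) l.length (guessC f N u hu w (Sum.inl ⟨l, h⟩) p y)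
      (guessC f N u hu w (Sum.inl ⟨[], Nat.zero_le _⟩) p (y ++ l)) := by
  intro l
  induction l with
  | nil =>
    intro h y
    rw [List.append_nil]
    rfl
  | cons b l ih =>
    intro h y
    have h' : l.length ≤ N := by
      rw [List.length_cons] at h
      omega
    have h1 := guess_step (f := f) (u := u) (hu := hu) (O := O) (y := y)
      (GuessTr.wr (f := f) (N := N) ⟨b :: l, h⟩ ⟨l, h'⟩ b (wordTape w p) rfl)
    have e1 : p + Move.stay.toInt = p := add_zero p
    have e2 : y ++ (some b).toList = y ++ [b] := rfl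
    rw [e1, e2] at h1
    have h2 := GuessR_trans (GuessR_one h1) _ _ (ih h' (y ++ [b]))
    rw [List.append_assoc, List.singleton_append] at h2
    rw [List.length_cons, add_comm]
    exact h2

/-- guessing -/
private theorem guess_gs (p : ℤ) : ∀ (z : List Bool) (y : List Bool),
    GuessR O (guessM f N u hu) z.length (guessC f N u hu w (Sum.inr 0) p y)
      (guessC f N u hu w (Sum.inr 0) p (y ++ z)) := by
  intro z
  induction z with
  | nil =>
    intro y
    rw [List.append_nil]
    rfl
  | cons b z ih =>
    intro y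
    have h1 := guess_step (f := f) (u := u) (hu := hu) (O := O) (y := y)
      (GuessTr.gs (f := f) (N := N) b (wordTape w p))
    have e1 : p + Move.stay.toInt = p := add_zero p
    have e2 : y ++ (some b).toList = y ++ [b] := rfl
    rw [e1, e2] at h1
    have h2 := GuessR_trans (GuessR_one h1) _ _ (ih (y ++ [b]))
    rw [List.append_assoc, List.singleton_append] at h2
    rw [List.length_cons, add_comm]
    exact h2

private theorem guess_enc (a : A) (v : List A) :
    enc ((a :: v).map f) = guessWord f a ++ enc (v.map f) := by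
  unfold guessWord
  rw [List.map_cons]
  show true :: (List.replicate (f a) true ++ false :: enc (v.map f)) = _
  simp

/-- reading the input -/
private theorem guess_read {F : ℕ} (hF : ∀ a, f a ≤ F) (hN : F + 2 ≤ N) :
    ∀ (v : List A) (p : ℕ) (y : List Bool), w.drop p = v →
      ∃ (n : ℕ) (p' : ℤ), n ≤ v.length * (F + 3) + 1 ∧
        GuessR O (guessM f N u hu) n
          (guessC f N u hu w (Sum.inl ⟨[], Nat.zero_le _⟩) (p : ℤ) y)
          (guessC f N u hu w (Sum.inr 0) p' (y ++ enc (v.map f))) := by
  intro v
  induction v with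
  | nil =>
    intro p y hv
    have hp : w[p]? = none := by
      rw [List.getElem?_eq_none_iff]
      exact List.drop_eq_nil_iff.1 hv
    have ht : (wordTape w (p : ℤ) : Option (A ⊕ Empty)) = none := by
      rw [guess_tape, hp]
      rfl
    have h0 : GuessTr f N (Sum.inl ⟨[], Nat.zero_le _⟩) (wordTape w (p : ℤ)) (Sum.inr 0) Move.stay
        (some false) := by
      rw [ht]
      exact GuessTr.bl _ rfl
    have h1 := guess_step (f := f) (u := u) (hu := hu) (O := O) (y := y) h0
    exact ⟨1, _, by simp, GuessR_one h1⟩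
  | cons a v ih =>
    intro p y hv
    have hp : w[p]? = some a := by
      have h1 : (w.drop p)[0]? = some a := by rw [hv]; rfl
      rwa [List.getElem?_drop, add_zero] at h1
    have hd : w.drop (p + 1) = v := by
      have h1 : (w.drop p).drop 1 = v := by rw [hv]; rfl
      rwa [List.drop_drop] at h1
    have ht : (wordTape w (p : ℤ) : Option (A ⊕ Empty)) = some (Sum.inl a) := by
      rw [guess_tape, hp]
      rfl
    have hlen : (guessWord f a).length = f a + 2 := by
      unfold guessWord
      simp
    have hl : (guessWord f a).length ≤ N := by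
      have := hF a
      omega
    have h0 : GuessTr f N (Sum.inl ⟨[], Nat.zero_le _⟩) (wordTape w (p : ℤ))
        (Sum.inl ⟨guessWord f a, hl⟩) Move.right none := by
      rw [ht]
      exact GuessTr.rd _ _ a rfl rfl
    have h1 := guess_step (f := f) (u := u) (hu := hu) (O := O) (y := y) h0
    have e1 : (p : ℤ) + Move.right.toInt = ((p + 1 : ℕ) : ℤ) := by
      push_cast
      rfl
    have e2 : y ++ (none : Option Bool).toList = y := List.append_nil y
    rw [e1, e2] at h1
    have h2 := GuessR_trans (GuessR_one h1) _ _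
      (guess_write (O := O) (f := f) (hu := hu) (w := w) ((p + 1 : ℕ) : ℤ) (guessWord f a) hl y)
    obtain ⟨n, p', hn, h3⟩ := ih (p + 1) (y ++ guessWord f a) hd
    refine ⟨1 + (guessWord f a).length + n, p', ?_, ?_⟩
    · rw [hlen, List.length_cons]
      have := hF a
      have e : (v.length + 1) * (F + 3) = v.length * (F + 3) + (F + 3) := by ring
      omega
    · rw [guess_enc, ← List.append_assoc]
      exact GuessR_trans h2 _ _ h3

/-- the invariant -/
private def GuessInv (O : Set (List Bool)) (f : A → ℕ) (N : ℕ) (u : List Bool)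
    (hu : u.length ≤ N) (w : List A) (c : OConfig (guessM f N u hu)) : Prop :=
  (∀ z, c.tape (0 : Fin 1) z = wordTape w z) ∧
  (∀ q : {l : List Bool // l.length ≤ N}, c.state = Sum.inl q → ∃ p : ℕ, p ≤ w.length ∧
    c.pos (0 : Fin 1) = p ∧ c.query ++ (q.1 ++ enc ((w.drop p).map f)) = u ++ enc (w.map f)) ∧
  (c.state = Sum.inr 0 → ∃ z, c.query = u ++ (enc (w.map f) ++ z)) ∧
  (c.state = Sum.inr 1 → ∃ z, u ++ (enc (w.map f) ++ z) ∈ O)

private theorem guess_inv_start : GuessInv O f N u hu w (oStart (guessM f N u hu) w) := by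
  refine ⟨fun z => rfl, ?_, ?_, ?_⟩
  · intro q hq
    refine ⟨0, Nat.zero_le _, rfl, ?_⟩
    have h1 : (Sum.inl ⟨u, hu⟩ : GuessQ N) = Sum.inl q := hq
    have h2 := Sum.inl.inj h1
    rw [← h2]
    rfl
  · intro h
    have h1 : (Sum.inl ⟨u, hu⟩ : GuessQ N) = Sum.inr 0 := h
    exact absurd h1 (by simp)
  · intro h
    have h1 : (Sum.inl ⟨u, hu⟩ : GuessQ N) = Sum.inr 1 := h
    exact absurd h1 (by simp)

private theorem guess_inv_tr {q q' : GuessQ N} {x : Option (A ⊕ Empty)} {m : Move}
    {o : Option Bool} (h : GuessTr f N q x q' m o) {P : ℤ} (hx : x = wordTape w P) {y : List Bool}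
    (h1 : ∀ r : {l : List Bool // l.length ≤ N}, q = Sum.inl r → ∃ p : ℕ, p ≤ w.length ∧
      P = p ∧ y ++ (r.1 ++ enc ((w.drop p).map f)) = u ++ enc (w.map f))
    (h2 : q = Sum.inr 0 → ∃ z, y = u ++ (enc (w.map f) ++ z)) :
    (∀ r : {l : List Bool // l.length ≤ N}, q' = Sum.inl r → ∃ p : ℕ, p ≤ w.length ∧
      P + m.toInt = p ∧
        (y ++ o.toList) ++ (r.1 ++ enc ((w.drop p).map f)) = u ++ enc (w.map f)) ∧
    (q' = Sum.inr 0 → ∃ z, y ++ o.toList = u ++ (enc (w.map f) ++ z)) ∧
    q' ≠ Sum.inr 1 := by
  cases h with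
  | wr q q' b x h =>
    obtain ⟨p, hp, hP, he⟩ := h1 q rfl
    refine ⟨?_, by simp, by simp⟩
    intro r hr
    have hr' := Sum.inl.inj hr
    subst hr'
    refine ⟨p, hp, by rw [hP]; exact add_zero _, ?_⟩
    rw [← he, h]
    simp
  | rd q q' a h h' =>
    obtain ⟨p, hp, hP, he⟩ := h1 q rfl
    refine ⟨?_, by simp, by simp⟩
    intro r hr
    have hr' := Sum.inl.inj hr
    subst hr'
    rw [hP, guess_tape] at hx
    have hpa : w[p]? = some a := by
      cases hc : w[p]? with
      | none =>
        rw [hc] at hx
        simp at hx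
      | some a' =>
        rw [hc] at hx
        simp only [Option.map_some, Option.some.injEq, Sum.inl.injEq] at hx
        rw [hx]
    have hlt : p < w.length := by
      by_contra hcon
      rw [List.getElem?_eq_none_iff.2 (by omega)] at hpa
      simp at hpa
    have hdrop : w.drop p = a :: w.drop (p + 1) := by
      rw [List.drop_eq_getElem_cons hlt]
      congr 1
      rw [List.getElem?_eq_getElem hlt] at hpa
      exact Option.some.inj hpa
    refine ⟨p + 1, hlt, ?_, ?_⟩
    · rw [hP]
      push_cast
      rfl
    · rw [← he, h, h', hdrop, guess_enc]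
      simp
  | bl q h =>
    obtain ⟨p, hp, hP, he⟩ := h1 q rfl
    refine ⟨by simp, ?_, by simp⟩
    intro _
    rw [hP, guess_tape] at hx
    have hpa : w[p]? = none := by
      cases hc : w[p]? with
      | none => rfl
      | some a' =>
        rw [hc] at hx
        simp at hx
    have hdrop : w.drop p = [] := List.drop_eq_nil_iff.2 (List.getElem?_eq_none_iff.1 hpa)
    refine ⟨[], ?_⟩
    rw [List.append_nil, ← he, h, hdrop]
    rfl
  | gs b x =>
    refine ⟨by simp, ?_, by simp⟩
    intro _
    obtain ⟨z, hz⟩ := h2 rfl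
    refine ⟨z ++ [b], ?_⟩
    rw [hz]
    simp

private theorem guess_inv_step {c c' : OConfig (guessM f N u hu)}
    (hc : GuessInv O f N u hu w c) (h : OStep O (guessM f N u hu) c c') :
    GuessInv O f N u hu w c' := by
  obtain ⟨h1, h2, h3, h4⟩ := hc
  rcases h with ⟨r, hr, hs, ht, hp, hq⟩ | ⟨r, hr, hs, hs', ht, hp, hq⟩
  · obtain ⟨hr1, hr2⟩ := hr
    have hx : c.tape (0 : Fin 1) (c.pos (0 : Fin 1)) = wordTape w (c.pos (0 : Fin 1)) := h1 _
    obtain ⟨k1, k2, k3⟩ := guess_inv_tr (f := f) (N := N) (u := u) (w := w) hr2 hx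
      (y := c.query) h2 h3
    have hpos : c'.pos (0 : Fin 1) = c.pos (0 : Fin 1) + (r.2.2.1 (0 : Fin 1)).toInt := by
      rw [hp]
    refine ⟨?_, ?_, ?_, ?_⟩
    · intro z
      rw [ht]
      show Function.update (c.tape (0 : Fin 1)) (c.pos (0 : Fin 1)) (r.2.1 (0 : Fin 1)) z = _
      have e : r.2.1 (0 : Fin 1) = c.tape (0 : Fin 1) (c.pos (0 : Fin 1)) := by rw [hr1]
      rw [e, Function.update_eq_self]
      exact h1 z
    · intro q hq'
      rw [hs] at hq'
      rw [hpos, hq]
      exact k1 q hq'
    · intro h0
      rw [hs] at h0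
      rw [hq]
      exact k2 h0
    · intro h0
      rw [hs] at h0
      exact absurd h0 k3
  · have hr' : r = (Sum.inr 0, Sum.inr 1, Sum.inr 2) := hr
    subst hr'
    obtain ⟨z, hz⟩ := h3 hs
    refine ⟨?_, ?_, ?_, ?_⟩
    · intro z
      rw [ht]
      exact h1 z
    · intro q hq'
      rw [hs'] at hq'
      split_ifs at hq'
    · intro h0
      rw [hs'] at h0
      split_ifs at h0 <;> exact absurd (Sum.inr.inj h0) (by decide)
    · intro h0
      rw [hs'] at h0
      split_ifs at h0 with hin
      · exact ⟨z, by rw [← hz]; exact hin⟩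
      · exact absurd (Sum.inr.inj h0) (by decide)

end GuessMachine

theorem exists_guess {A : Type} [Finite A] (u : W) (f : A → ℕ) :
    ∃ (M : OMachine A) (c : ℕ), ∀ (O : Set W) (w : List A),
      (∀ s, OAcceptsIn O M w s → ∃ z : W, u ++ (enc (w.map f) ++ z) ∈ O) ∧
      ∀ z : W, u ++ (enc (w.map f) ++ z) ∈ O →
        ∃ s ≤ c * (w.length + z.length + 1), OAcceptsIn O M w s := by
  obtain ⟨F, hF'⟩ := (Set.finite_range f).bddAbove
  have hF : ∀ a, f a ≤ F := fun a => hF' ⟨a, rfl⟩
  set N := max u.length (F + 2) with hN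
  have hu : u.length ≤ N := le_max_left _ _
  have hN2 : F + 2 ≤ N := le_max_right _ _
  refine ⟨guessM f N u hu, u.length + F + 5, fun O w => ⟨?_, ?_⟩⟩
  · rintro s ⟨c, hc0, hcs, hacc⟩
    have hinv : ∀ i ≤ s, GuessInv O f N u hu w (c i) := by
      intro i
      induction i with
      | zero =>
        intro _
        rw [hc0]
        exact guess_inv_start
      | succ i ih =>
        intro hi
        exact guess_inv_step (ih (by omega)) (hcs i (by omega))
    exact (hinv s le_rfl).2.2.2 hacc
  · intro z hz
    have h1 := guess_write (O := O) (f := f) (N := N) (hu := hu) (w := w) 0 u hu []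
    obtain ⟨n, p', hn, h2⟩ := guess_read (O := O) (f := f) (N := N) (u := u) (hu := hu) (w := w)
      hF hN2 w 0 ([] ++ u) rfl
    have h3 := GuessR_trans h1 _ _ h2
    have h4 := GuessR_trans h3 _ _ (guess_gs (O := O) (f := f) (N := N) (hu := hu) (w := w) p' z
      (([] ++ u) ++ enc (w.map f)))
    have e : (([] ++ u) ++ enc (w.map f)) ++ z = u ++ (enc (w.map f) ++ z) := by simp
    rw [e] at h4
    have h5 := GuessR_trans h4 _ _ (GuessR_one (guess_ask hz))
    obtain ⟨c, hc0, hcs, hcn⟩ := GuessR_run _ _ _ h5
    refine ⟨u.length + n + z.length + 1, ?_, c, ?_, hcs, ?_⟩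
    · have e1 : (u.length + F + 5) * (w.length + z.length + 1) =
          w.length * (F + 3) + (u.length + 2) * w.length + (u.length + F + 5) * z.length +
            (u.length + F + 5) := by ring
      have e2 : z.length ≤ (u.length + F + 5) * z.length :=
        Nat.le_mul_of_pos_left _ (by omega)
      have e3 : 0 ≤ (u.length + 2) * w.length := Nat.zero_le _
      omega
    · rw [hc0]
      rfl
    · rw [hcn]
      rfl

end Pool.Agent.H10.RQ
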