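import Pool.Agent.H10.RQ.Defs

/-!
# RQ Iso: every oracle machine over a finite alphabet has a description

`exists_md`: choose `q, g` and bijections `M.Q ≃ Fin q`, `M.G ≃ Fin g` (`Finite.equivFin`) and carry
everything over (states, letters: `Option (A ⊕ M.G) ≃ Option (Fin a ⊕ Fin g)`, e.g. by
`Equiv.optionCongr (Equiv.sumCongr e eG)`). Suggestion: define a bijection between `OConfig M` and
`OConfig m.toM` (or only the two maps), show that it maps the starting configuration for `w` to the
one for `w.map e` (`wordTape`), and that `OStep O M c c'` holds iff `OStep O m.toM (φ c) (φ c')`.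
(The number of tapes is `M.k`, so nothing happens there.)

`countable_md`: `MD a` injects into a sigma type over `(k, q, g)` of finite types.
-/

set_option autoImplicit false

namespace Pool.Agent.H10.RQ

open Pool.Agent.Lead.NTM

/-- the bijection of the tape letters -/
def isoL {A : Type} {a g : ℕ} {G : Type} (e : A ≃ Fin a) (eG : G ≃ Fin g) :
    Option (A ⊕ G) ≃ Option (Fin a ⊕ Fin g) :=
  Equiv.optionCongr (Equiv.sumCongr e eG)

/-- the description of `M` -/
def isoMD {A : Type} {a q g : ℕ} (e : A ≃ Fin a) (M : OMachine A) (eQ : M.Q ≃ Fin q)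
    (eG : M.G ≃ Fin g) : MD a where
  k := M.k
  q := q
  g := g
  start := eQ M.start
  acc := {s | eQ.symm s ∈ M.accepting}
  δ := fun s x => {r | (eQ.symm r.1, (fun i => (isoL e eG).symm (r.2.1 i)), r.2.2.1, r.2.2.2) ∈
    M.δ (eQ.symm s) (fun i => (isoL e eG).symm (x i))}
  ask := {r | (eQ.symm r.1, eQ.symm r.2.1, eQ.symm r.2.2) ∈ M.ask}

/-- transport of configurations -/
def isoPhi {A : Type} {a q g : ℕ} (e : A ≃ Fin a) (M : OMachine A) (eQ : M.Q ≃ Fin q)
    (eG : M.G ≃ Fin g) (c : OConfig M) : OConfig (isoMD e M eQ eG).toM where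
  state := eQ c.state
  tape := fun i z => isoL e eG (c.tape i z)
  pos := c.pos
  query := c.query

/-- transport of configurations, backwards -/
def isoPsi {A : Type} {a q g : ℕ} (e : A ≃ Fin a) (M : OMachine A) (eQ : M.Q ≃ Fin q)
    (eG : M.G ≃ Fin g) (c : OConfig (isoMD e M eQ eG).toM) : OConfig M where
  state := eQ.symm c.state
  tape := fun i z => (isoL e eG).symm (c.tape i z)
  pos := c.pos
  query := c.query

theorem isoL_wordTape {A : Type} {a g : ℕ} {G : Type} (e : A ≃ Fin a) (eG : G ≃ Fin g)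
    (w : List A) (z : ℤ) :
    isoL e eG (wordTape w z) = wordTape (w.map e) z := by
  unfold wordTape isoL
  split_ifs with h
  · simp only [List.getElem?_map, Equiv.optionCongr_apply, Option.map_map]
    rfl
  · simp

theorem isoL_startTape {A : Type} {a g : ℕ} {G : Type} (e : A ≃ Fin a) (eG : G ≃ Fin g)
    (w : List A) (k : ℕ) (i : Fin (k + 1)) (z : ℤ) :
    isoL e eG ((if i = 0 then wordTape w else fun _ => none) z) =
      (if i = 0 then wordTape (w.map e) else fun _ => none) z := by
  by_cases hi : i = 0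
  · rw [if_pos hi, if_pos hi]
    exact isoL_wordTape e eG w z
  · rw [if_neg hi, if_neg hi]
    simp [isoL]

theorem isoPhi_start {A : Type} {a q g : ℕ} (e : A ≃ Fin a) (M : OMachine A) (eQ : M.Q ≃ Fin q)
    (eG : M.G ≃ Fin g) (w : List A) :
    isoPhi e M eQ eG (oStart M w) = oStart (isoMD e M eQ eG).toM (w.map e) := by
  unfold isoPhi oStart
  congr 1
  funext i z
  exact isoL_startTape e eG w M.k i z

theorem isoPsi_phi {A : Type} {a q g : ℕ} (e : A ≃ Fin a) (M : OMachine A) (eQ : M.Q ≃ Fin q)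
    (eG : M.G ≃ Fin g) (c : OConfig M) :
    isoPsi e M eQ eG (isoPhi e M eQ eG c) = c := by
  unfold isoPsi isoPhi
  simp

theorem isoStep {A : Type} {a q g : ℕ} (e : A ≃ Fin a) (M : OMachine A) (eQ : M.Q ≃ Fin q)
    (eG : M.G ≃ Fin g) (O : Set (List Bool)) (c c' : OConfig M) (h : OStep O M c c') :
    OStep O (isoMD e M eQ eG).toM (isoPhi e M eQ eG c) (isoPhi e M eQ eG c') := by
  classical
  rcases h with ⟨r, hr, h1, h2, h3, h4⟩ | ⟨r, hr, h1, h2, h3, h4, h5⟩
  · left
    refine ⟨(eQ r.1, fun i => isoL e eG (r.2.1 i), r.2.2.1, r.2.2.2), ?_, ?_, ?_, ?_, ?_⟩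
    · change (eQ.symm (eQ r.1), (fun i => (isoL e eG).symm (isoL e eG (r.2.1 i))), r.2.2.1,
        r.2.2.2) ∈ M.δ (eQ.symm (eQ c.state))
          (fun i => (isoL e eG).symm (isoL e eG (c.tape i (c.pos i))))
      simpa using hr
    · change eQ c'.state = eQ r.1
      rw [h1]
    · change (fun i z => isoL e eG (c'.tape i z)) = (fun i => Function.update
        (fun z => isoL e eG (c.tape i z)) (c.pos i) (isoL e eG (r.2.1 i)))
      rw [h2]
      funext i z
      by_cases hz : z = c.pos i
      · subst hz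
        simp
      · simp [Function.update_of_ne hz]
    · exact h3
    · exact h4
  · right
    refine ⟨(eQ r.1, eQ r.2.1, eQ r.2.2), ?_, ?_, ?_, ?_, ?_, ?_⟩
    · change (eQ.symm (eQ r.1), eQ.symm (eQ r.2.1), eQ.symm (eQ r.2.2)) ∈ M.ask
      simpa using hr
    · change eQ c.state = eQ r.1
      rw [h1]
    · change eQ c'.state = if c.query ∈ O then eQ r.2.1 else eQ r.2.2
      rw [h2]
      split_ifs <;> rfl
    · change (fun i z => isoL e eG (c'.tape i z)) = (fun i z => isoL e eG (c.tape i z))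
      rw [h3]
    · exact h4
    · exact h5

theorem isoStep' {A : Type} {a q g : ℕ} (e : A ≃ Fin a) (M : OMachine A) (eQ : M.Q ≃ Fin q)
    (eG : M.G ≃ Fin g) (O : Set (List Bool)) (c c' : OConfig (isoMD e M eQ eG).toM)
    (h : OStep O (isoMD e M eQ eG).toM c c') :
    OStep O M (isoPsi e M eQ eG c) (isoPsi e M eQ eG c') := by
  classical
  rcases h with ⟨r, hr, h1, h2, h3, h4⟩ | ⟨r, hr, h1, h2, h3, h4, h5⟩
  · left
    refine ⟨(eQ.symm r.1, fun i => (isoL e eG).symm (r.2.1 i), r.2.2.1, r.2.2.2), hr,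
      ?_, ?_, ?_, ?_⟩
    · change eQ.symm c'.state = eQ.symm r.1
      rw [h1]
    · change (fun i z => (isoL e eG).symm (c'.tape i z)) = (fun i => Function.update
        (fun z => (isoL e eG).symm (c.tape i z)) (c.pos i) ((isoL e eG).symm (r.2.1 i)))
      rw [h2]
      funext i z
      by_cases hz : z = c.pos i
      · subst hz
        simp
      · simp [Function.update_of_ne hz]
    · exact h3
    · exact h4
  · right
    refine ⟨(eQ.symm r.1, eQ.symm r.2.1, eQ.symm r.2.2), hr, ?_, ?_, ?_, ?_, ?_⟩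
    · change eQ.symm c.state = eQ.symm r.1
      rw [h1]
    · change eQ.symm c'.state = if c.query ∈ O then eQ.symm r.2.1 else eQ.symm r.2.2
      rw [h2]
      split_ifs <;> rfl
    · change (fun i z => (isoL e eG).symm (c'.tape i z)) =
        (fun i z => (isoL e eG).symm (c.tape i z))
      rw [h3]
    · exact h4
    · exact h5

theorem exists_md {A : Type} {a : ℕ} (e : A ≃ Fin a) (M : OMachine A) :
    ∃ m : MD a, ∀ (O : Set W) (w : List A) (s : ℕ),
      OAcceptsIn O M w s ↔ OAcceptsIn O m.toM (w.map e) s := by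
  have := M.finQ
  have := M.finG
  obtain ⟨q, ⟨eQ⟩⟩ := Finite.exists_equiv_fin M.Q
  obtain ⟨g, ⟨eG⟩⟩ := Finite.exists_equiv_fin M.G
  refine ⟨isoMD e M eQ eG, fun O w s => ⟨?_, ?_⟩⟩
  · rintro ⟨c, h0, hs, ha⟩
    refine ⟨fun i => isoPhi e M eQ eG (c i), ?_, fun i hi => isoStep e M eQ eG O _ _ (hs i hi), ?_⟩
    · change isoPhi e M eQ eG (c 0) = _
      rw [h0, isoPhi_start]
    · change eQ.symm (eQ (c s).state) ∈ M.accepting
      simpa using ha
  · rintro ⟨c, h0, hs, ha⟩
    refine ⟨fun i => isoPsi e M eQ eG (c i), ?_, fun i hi => isoStep' e M eQ eG O _ _ (hs i hi), ?_⟩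
    · change isoPsi e M eQ eG (c 0) = _
      rw [h0, ← isoPhi_start, isoPsi_phi]
    · exact ha

theorem finite_move : Finite Move := by
  refine Finite.of_injective
    (fun m : Move => (match m with | .left => (0 : Fin 3) | .stay => 1 | .right => 2)) ?_
  intro x y h
  cases x <;> cases y <;> simp_all

theorem countable_md (a : ℕ) : Countable (MD a) := by
  have := finite_move
  let T : ℕ → ℕ → ℕ → Type := fun k q g =>
    Fin q × Set (Fin q) × (Fin q → (Fin (k + 1) → Option (Fin a ⊕ Fin g)) →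
      Set (Fin q × (Fin (k + 1) → Option (Fin a ⊕ Fin g)) × (Fin (k + 1) → Move) × Option Bool)) ×
      Set (Fin q × Fin q × Fin q)
  have : ∀ k q g, Countable (T k q g) := fun k q g => by
    have h1 : Finite (Fin q × (Fin (k + 1) → Option (Fin a ⊕ Fin g)) × (Fin (k + 1) → Move) ×
      Option Bool) := inferInstance
    have h2 : Finite (Set (Fin q × (Fin (k + 1) → Option (Fin a ⊕ Fin g)) ×
      (Fin (k + 1) → Move) × Option Bool)) := inferInstance
    have h3 : Finite ((Fin (k + 1) → Option (Fin a ⊕ Fin g)) → Set (Fin q ×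
      (Fin (k + 1) → Option (Fin a ⊕ Fin g)) × (Fin (k + 1) → Move) × Option Bool)) := Pi.finite
    have h4 : Finite (Fin q → (Fin (k + 1) → Option (Fin a ⊕ Fin g)) → Set (Fin q ×
      (Fin (k + 1) → Option (Fin a ⊕ Fin g)) × (Fin (k + 1) → Move) × Option Bool)) := Pi.finite
    have h5 : Finite (T k q g) := by
      unfold T
      exact Finite.instProd
    exact Finite.to_countable
  let f : MD a → Σ k, Σ q, Σ g, T k q g := fun m => ⟨m.k, m.q, m.g, (m.start, m.acc, m.δ, m.ask)⟩
  refine Function.Injective.countable (f := f) ?_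
  rintro ⟨k, q, g, s, ac, d, as⟩ ⟨k', q', g', s', ac', d', as'⟩ h
  simp only [f, Sigma.mk.injEq] at h
  obtain ⟨rfl, h⟩ := h
  simp only [heq_eq_eq, Sigma.mk.injEq] at h
  obtain ⟨rfl, h⟩ := h
  simp only [heq_eq_eq, Sigma.mk.injEq] at h
  obtain ⟨rfl, h⟩ := h
  simp only [heq_eq_eq, Prod.mk.injEq] at h
  obtain ⟨rfl, rfl, rfl, rfl⟩ := h
  rfl

end Pool.Agent.H10.RQ
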