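import Pool.Agent.H10.RQ.Defs

/-!
# RQ Sanity: for the empty oracle the classes are those of Q1

`ONTIME ∅ A t = NTIMEPol A t`. `⊆`: given an oracle machine `M`, the plain machine has the same
states and tapes; action sets `{(r.1, r.2.1, r.2.2.1) | r ∈ M.δ q x} ∪ {(q₂, x, stay) | (q, q₁, q₂) ∈
M.ask}` (every answer is no; forget the query tape; conversely the query tape of a computation is
reconstructed step by step from the chosen actions). `⊇`: the oracle machine with
`δ q x = {(r.1, r.2.1, r.2.2, none) | r ∈ M.δ q x}` and `ask = ∅`; its query tape is always empty.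
(In the step `(q₂, x, stay)` the tapes are unchanged: `Function.update (tape i) (pos i) (tape i (pos i))
= tape i`.)
-/

set_option autoImplicit false

namespace Pool.Agent.H10.RQ

open Pool.Agent.Lead.NTM

/-- the plain machine of an oracle machine: all answers are no -/
private def Sanity_plain {A : Type} (M : OMachine A) : Machine A where
  k := M.k
  Q := M.Q
  finQ := M.finQ
  G := M.G
  finG := M.finG
  start := M.start
  accepting := M.accepting
  δ := fun q x => {r | (∃ r' ∈ M.δ q x, r = (r'.1, r'.2.1, r'.2.2.1)) ∨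
    (∃ a ∈ M.ask, a.1 = q ∧ r = (a.2.2, x, fun _ => Move.stay))}

/-- forget the query tape -/
private def Sanity_proj {A : Type} {M : OMachine A} (c : OConfig M) : Config (Sanity_plain M) where
  state := c.state
  tape := c.tape
  pos := c.pos

/-- add a query tape -/
private def Sanity_lift {A : Type} {M : OMachine A} (c : Config (Sanity_plain M)) (q : List Bool) :
    OConfig M where
  state := c.state
  tape := c.tape
  pos := c.pos
  query := q

private theorem Sanity_step1 {A : Type} {M : OMachine A} {c c' : OConfig M} (h : OStep ∅ M c c') :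
    Step (Sanity_plain M) (Sanity_proj c) (Sanity_proj c') := by
  rcases h with ⟨r, hr, h1, h2, h3, _⟩ | ⟨r, hr, h1, h2, h3, h4, _⟩
  · exact ⟨(r.1, r.2.1, r.2.2.1), Or.inl ⟨r, hr, rfl⟩, h1, h2, h3⟩
  · refine ⟨(r.2.2, (fun i => c.tape i (c.pos i)), fun _ => Move.stay), Or.inr ⟨r, hr, h1.symm, rfl⟩,
      ?_, ?_, ?_⟩
    · show c'.state = r.2.2
      rw [h2, if_neg (Set.notMem_empty _)]
    · show c'.tape = _
      rw [h3]
      funext i
      exact (Function.update_eq_self _ _).symm
    · show c'.pos = _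
      rw [h4]
      funext i
      exact (add_zero _).symm

private theorem Sanity_step2 {A : Type} {M : OMachine A} {c c' : Config (Sanity_plain M)}
    (h : Step (Sanity_plain M) c c') : ∃ f : List Bool → List Bool,
      ∀ q, OStep ∅ M (Sanity_lift c q) (Sanity_lift c' (f q)) := by
  obtain ⟨r, hr, h1, h2, h3⟩ := h
  rcases hr with ⟨r', hr', rfl⟩ | ⟨a, ha, ha1, rfl⟩
  · exact ⟨fun q => q ++ r'.2.2.2.toList, fun q => Or.inl ⟨r', hr', h1, h2, h3, rfl⟩⟩
  · refine ⟨fun _ => [], fun q => Or.inr ⟨a, ha, ha1.symm, ?_, ?_, ?_, rfl⟩⟩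
    · rw [if_neg (Set.notMem_empty _)]
      exact h1
    · show c'.tape = c.tape
      rw [h2]
      funext i
      exact Function.update_eq_self _ _
    · show c'.pos = c.pos
      rw [h3]
      funext i
      exact add_zero _

private theorem Sanity_acc1 {A : Type} (M : OMachine A) (w : List A) (s : ℕ) :
    OAcceptsIn ∅ M w s ↔ AcceptsIn (Sanity_plain M) w s := by
  constructor
  · rintro ⟨c, h0, hs, ha⟩
    refine ⟨fun i => Sanity_proj (c i), ?_, fun i hi => Sanity_step1 (hs i hi), ha⟩
    show Sanity_proj (c 0) = _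
    rw [h0]
    rfl
  · rintro ⟨c, h0, hs, ha⟩
    have hf : ∀ i, ∃ f : List Bool → List Bool, i < s →
        ∀ q, OStep ∅ M (Sanity_lift (c i) q) (Sanity_lift (c (i + 1)) (f q)) := by
      intro i
      by_cases hi : i < s
      · obtain ⟨f, hf⟩ := Sanity_step2 (hs i hi)
        exact ⟨f, fun _ => hf⟩
      · exact ⟨id, fun h => absurd h hi⟩
    choose f hf using hf
    refine ⟨fun i => Sanity_lift (c i) (Nat.rec [] (fun j q => f j q) i), ?_, ?_, ha⟩
    · show Sanity_lift (c 0) [] = _
      rw [h0]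
      rfl
    · intro i hi
      exact hf i hi _

/-- the oracle machine of a plain machine -/
private def Sanity_orac {A : Type} (M : Machine A) : OMachine A where
  k := M.k
  Q := M.Q
  finQ := M.finQ
  G := M.G
  finG := M.finG
  start := M.start
  accepting := M.accepting
  δ := fun q x => {r | (r.1, r.2.1, r.2.2.1) ∈ M.δ q x ∧ r.2.2.2 = none}
  ask := ∅

private def Sanity_proj2 {A : Type} {M : Machine A} (c : OConfig (Sanity_orac M)) : Config M where
  state := c.state
  tape := c.tape
  pos := c.pos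

private def Sanity_lift2 {A : Type} {M : Machine A} (c : Config M) : OConfig (Sanity_orac M) where
  state := c.state
  tape := c.tape
  pos := c.pos
  query := []

private theorem Sanity_acc2 {A : Type} (M : Machine A) (w : List A) (s : ℕ) :
    OAcceptsIn ∅ (Sanity_orac M) w s ↔ AcceptsIn M w s := by
  constructor
  · rintro ⟨c, h0, hs, ha⟩
    refine ⟨fun i => Sanity_proj2 (c i), ?_, ?_, ha⟩
    · show Sanity_proj2 (c 0) = _
      rw [h0]
      rfl
    · intro i hi
      rcases hs i hi with ⟨r, hr, h1, h2, h3, _⟩ | ⟨r, hr, _⟩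
      · exact ⟨(r.1, r.2.1, r.2.2.1), hr.1, h1, h2, h3⟩
      · exact absurd hr (Set.notMem_empty _)
  · rintro ⟨c, h0, hs, ha⟩
    refine ⟨fun i => Sanity_lift2 (c i), ?_, ?_, ha⟩
    · show Sanity_lift2 (c 0) = _
      rw [h0]
      rfl
    · intro i hi
      obtain ⟨r, hr, h1, h2, h3⟩ := hs i hi
      exact Or.inl ⟨(r.1, r.2.1, r.2.2, none), ⟨hr, rfl⟩, h1, h2, h3, rfl⟩

theorem ontime_empty (A : Type) (t : ℕ → ℕ) : ONTIME ∅ A t = NTIMEPol A t := by
  ext L
  constructor
  · rintro ⟨M, p, h1, h2⟩
    refine ⟨Sanity_plain M, p, fun w => ?_, fun w hw => ?_⟩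
    · rw [h1 w]
      exact exists_congr fun s => Sanity_acc1 M w s
    · obtain ⟨s, hs, h3⟩ := h2 w hw
      exact ⟨s, hs, (Sanity_acc1 M w s).1 h3⟩
  · rintro ⟨M, p, h1, h2⟩
    refine ⟨Sanity_orac M, p, fun w => ?_, fun w hw => ?_⟩
    · rw [h1 w]
      exact exists_congr fun s => (Sanity_acc2 M w s).symm
    · obtain ⟨s, hs, h3⟩ := h2 w hw
      exact ⟨s, hs, (Sanity_acc2 M w s).2 h3⟩

theorem oconTime_empty (A : Type) (t : ℕ → ℕ) : OcoNTIME ∅ A t = coNTIMEPol A t := by
  unfold OcoNTIME coNTIMEPol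
  rw [ontime_empty]

end Pool.Agent.H10.RQ
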