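import Pool.Agent.H10.RQ.Defs

/-!
# RQ Use: the use principle

An accepting computation of length `s ≤ T` relative to `O` contains at most `s` queries; the word on
the query tape after `i` steps has length `≤ i`. Let `S` be the set of the words `(c i).query`,
`i < s` (all of them, or only those at query steps): at most `s ≤ T` words, all of length `≤ T`. If
`O'` agrees with `O` on `S`, then the same sequence of configurations is an accepting computation
relative to `O'` (in `OStep` the only use of `O` is the question `c.query ∈ O` for `c = c i`, `i < s`).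
-/

set_option autoImplicit false

namespace Pool.Agent.H10.RQ

theorem query_length_le {A : Type} {O : Set W} {M : OMachine A} {w : List A} {s : ℕ}
    {c : ℕ → OConfig M} (h0 : c 0 = oStart M w) (hs : ∀ i < s, OStep O M (c i) (c (i + 1))) :
    ∀ i ≤ s, (c i).query.length ≤ i := by
  intro i
  induction i with
  | zero =>
    intro _
    rw [h0]
    simp [oStart]
  | succ i ih =>
    intro hi
    have h1 := ih (by omega)
    rcases hs i (by omega) with ⟨r, _, _, _, _, hq⟩ | ⟨r, _, _, _, _, _, hq⟩
    · rw [hq, List.length_append]
      have h2 : r.2.2.2.toList.length ≤ 1 := by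
        cases r.2.2.2 <;> simp
      omega
    · rw [hq]
      simp

theorem hasUse_accWithin {A : Type} (M : OMachine A) (w : List A) (T : ℕ) :
    HasUse (fun O => accWithin O M w T) T := by
  classical
  rintro O ⟨s, hsT, c, h0, hs, hacc⟩
  refine ⟨(Finset.range s).image (fun i => (c i).query), ?_, ?_, ?_⟩
  · exact (Finset.card_image_le.trans (by simp)).trans hsT
  · intro x hx
    rw [Finset.mem_image] at hx
    obtain ⟨i, hi, rfl⟩ := hx
    have hi' : i < s := Finset.mem_range.mp hi
    exact (query_length_le h0 hs i hi'.le).trans (hi'.le.trans hsT)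
  · intro O' hO'
    refine ⟨s, hsT, c, h0, fun i hi => ?_, hacc⟩
    have hq : (c i).query ∈ O ↔ (c i).query ∈ O' :=
      hO' _ (Finset.mem_image_of_mem _ (Finset.mem_range.mpr hi))
    rcases hs i hi with h | ⟨r, h1, h2, h3, h4, h5, h6⟩
    · exact Or.inl h
    · refine Or.inr ⟨r, h1, h2, ?_, h4, h5, h6⟩
      rw [h3]
      exact if_congr hq rfl rfl

end Pool.Agent.H10.RQ
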