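import Pool.Agent.H10.RQ.Asm
import Pool.Agent.H10.RQ.Use
import Pool.Agent.H10.RQ.Iso
import Pool.Agent.H10.RQ.Guess
import Pool.Agent.H10.RQ.Det
import Pool.Agent.H10.RQ.Sanity

/-!
# RQ Main: the relativised answers
-/

set_option autoImplicit false

namespace Pool.Agent.H10.RQ

theorem odtime_subset (O : Set W) (A : Type) (t : ℕ → ℕ) : ODTIME O A t ⊆ ONTIME O A t := by
  rintro L ⟨M, p, -, h1, h2⟩
  exact ⟨M, p, h1, h2⟩

section

variable (H : Set (ℕ → ℕ)) (𝒯 : Set (ℕ → ℕ))

/-- the covered functions of the family -/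
abbrev HC : Type := {t : ℕ → ℕ // t ∈ H ∧ (∀ n, n ≤ t n) ∧ Covered 𝒯 t}

/-- the uncovered functions of the family -/
abbrev HU : Type := {t : ℕ → ℕ // t ∈ H ∧ (∀ n, n ≤ t n) ∧ ¬ Covered 𝒯 t}

/-- tasks -/
abbrev TaskT : Type := HC H 𝒯 × (Σ a : ℕ, MD a) × ℕ

/-- requirements -/
abbrev ReqT : Type := HU H 𝒯 × (Σ a : ℕ, MD (a + 2)) × ℕ

theorem countable_HC (hH : H.Countable) : Countable (HC H 𝒯) := by
  have : Countable H := hH.to_subtype
  exact Function.Injective.countable (f := fun t : HC H 𝒯 => (⟨t.1, t.2.1⟩ : H)) (by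
    intro a b h
    simp only [Subtype.mk.injEq] at h
    exact Subtype.ext h)

theorem countable_HU (hH : H.Countable) : Countable (HU H 𝒯) := by
  have : Countable H := hH.to_subtype
  exact Function.Injective.countable (f := fun t : HU H 𝒯 => (⟨t.1, t.2.1⟩ : H)) (by
    intro a b h
    simp only [Subtype.mk.injEq] at h
    exact Subtype.ext h)

theorem countable_TaskT (hH : H.Countable) : Countable (TaskT H 𝒯) := by
  have := countable_HC H 𝒯 hH
  have : ∀ a, Countable (MD a) := countable_md
  infer_instance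

theorem countable_ReqT (hH : H.Countable) : Countable (ReqT H 𝒯) := by
  have := countable_HU H 𝒯 hH
  have : ∀ a : ℕ, Countable (MD (a + 2)) := fun a => countable_md (a + 2)
  infer_instance

/-- the context of the construction -/
noncomputable def ctx (idx : TaskT H 𝒯 → ℕ) (hidx : Function.Injective idx)
    (idf : HU H 𝒯 × ℕ → ℕ) (hidf : Function.Injective idf)
    (rq : ℕ → Option (ReqT H 𝒯)) (hrq : Function.Surjective rq) : Ctx where
  ι := TaskT H 𝒯
  idx := idx
  idx_inj := hidx
  al := fun j => j.2.1.1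
  ex := fun j => j.2.2 + 1
  ex_pos := fun j => by omega
  tf := fun j => j.1.1
  acc := fun j v O => accWithin O j.2.1.2.toM v (j.1.1 v.length ^ (j.2.2 + 1) + (j.2.2 + 1))
  acc_use := fun j v => hasUse_accWithin _ _ _
  𝒯 := 𝒯
  cov := fun j => j.1.2.2.2
  ρ := ReqT H 𝒯
  rq := rq
  rq_surj := fun r => hrq (some r)
  a := fun r => r.2.1.1 + 2
  a_two := fun r => by omega
  e := fun r => r.1.1
  e_id := fun r => r.1.2.2.1
  uncov := fun r => r.1.2.2.2
  k := fun r => r.2.2 + 1
  k_pos := fun r => by omega
  fam := fun r => idf (r.1, r.2.1.1)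
  fam_e := fun r r' h => by
    have := hidf h
    simp only [Prod.mk.injEq] at this
    rw [this.1]
  D := fun r w O => accWithin O r.2.1.2.toM w (r.1.1 w.length ^ (r.2.2 + 1) + (r.2.2 + 1))
  D_use := fun r w => hasUse_accWithin _ _ _

end

theorem main (H : Set (ℕ → ℕ)) (hH : H.Countable) (𝒯 : Set (ℕ → ℕ)) :
    ∃ O : Set W, ∀ t ∈ H, (∀ n, n ≤ t n) →
      (Covered 𝒯 t → ∀ (A : Type) [Finite A],
        ONTIME O A t = OcoNTIME O A t ∧ ONTIME O A t = ODTIME O A t) ∧
      (¬ Covered 𝒯 t → ∀ (A : Type) [Finite A] [Nontrivial A],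
        ONTIME O A t ≠ OcoNTIME O A t) := by
  classical
  have hc1 := countable_TaskT H 𝒯 hH
  have hc2 := countable_ReqT H 𝒯 hH
  have hc3 := countable_HU H 𝒯 hH
  obtain ⟨idx, hidx⟩ := exists_injective_nat (TaskT H 𝒯)
  obtain ⟨idf, hidf⟩ := exists_injective_nat (HU H 𝒯 × ℕ)
  obtain ⟨rq, hrq⟩ := exists_surjective_nat (Option (ReqT H 𝒯))
  set c : Ctx := ctx H 𝒯 idx hidx idf hidf rq hrq with hc
  refine ⟨c.O, fun t ht hid => ⟨fun hcov A _ => ?_, fun hun A _ _ => ?_⟩⟩
  · -- covered
    have key : ∀ L ∈ ONTIME c.O A t, ∀ b : Bool,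
        {w | (w ∈ L ↔ b = true)} ∈ ODTIME c.O A t := by
      rintro L ⟨M, p, hL1, hL2⟩ b
      obtain ⟨a, ⟨e⟩⟩ := Finite.exists_equiv_fin A
      obtain ⟨m, hm⟩ := exists_md e M
      obtain ⟨k, hk1, hk2⟩ := poly_le_pow p
      have hk : k - 1 + 1 = k := by omega
      let j : TaskT H 𝒯 := (⟨t, ht, hid, hcov⟩, ⟨a, m⟩, k - 1)
      have hacc : ∀ w : List A, accWithin c.O m.toM (w.map e)
          (t (w.map e).length ^ (k - 1 + 1) + (k - 1 + 1)) ↔ w ∈ L := by
        intro w
        constructor
        · rintro ⟨s, -, hs⟩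
          rw [hL1]
          exact ⟨s, (hm _ _ _).mpr hs⟩
        · intro hw
          obtain ⟨s, hs, h⟩ := hL2 w hw
          refine ⟨s, ?_, (hm _ _ _).mp h⟩
          rw [List.length_map, hk]
          exact hs.trans (hk2 _)
      let f : A → ℕ := fun x => (e x).val
      have hf : ∀ w : List A, (w.map e).map (fun x : Fin a => x.val) = w.map f := by
        intro w
        rw [List.map_map]
        rfl
      obtain ⟨M', cst, hdet, hM'⟩ := exists_search (pre (idx j) false) f b
      have hspec : ∀ w : List A, ∀ (l' : ℕ) (b'' : Bool),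
          pre (idx j) false ++ (enc (w.map f) ++ b'' :: List.replicate l' true) ∈ c.O ↔
            l' = c.lam j w.length ∧ b'' = decide (w ∈ L) := by
        intro w l' b''
        have h1 := c.coding ⟨j, w.map e⟩ (b'' :: List.replicate l' true)
        have h2 : pre (c.idx j) false ++ (enc ((w.map e).map (fun x => x.val)) ++
            b'' :: List.replicate l' true) ∈ c.O ↔
          pre (idx j) false ++ (enc (w.map f) ++ b'' :: List.replicate l' true) ∈ c.O := by
          rw [← hf w]
          rfl
        refine (h2.symm.trans h1).trans ?_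
        constructor
        · rintro ⟨b0, h3, h4⟩
          simp only [List.cons.injEq] at h3
          obtain ⟨h5, h6⟩ := h3
          have h7 := congrArg List.length h6
          simp only [List.length_replicate, List.length_map] at h7
          refine ⟨h7, ?_⟩
          have h8 : (b0 = true ↔ w ∈ L) := h4.trans (hacc w)
          rw [h5]
          by_cases hw : w ∈ L
          · rw [h8.mpr hw, decide_eq_true hw]
          · rw [decide_eq_false hw]
            cases b0
            · rfl
            · exact absurd (h8.mp rfl) hw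
        · rintro ⟨h3, h4⟩
          refine ⟨b'', ?_, ?_⟩
          · rw [h3]
            simp
          · have h8 : c.acc j (w.map e) c.O ↔ w ∈ L := hacc w
            show b'' = true ↔ c.acc j (w.map e) c.O
            rw [h8, h4, decide_eq_true_iff]
      have hval : ∀ w : List A, (decide (w ∈ L) = b ↔ (w ∈ L ↔ b = true)) := by
        intro w
        by_cases hw : w ∈ L
        · rw [decide_eq_true hw]
          simp only [hw, true_iff]
          exact eq_comm
        · rw [decide_eq_false hw]
          simp only [hw, false_iff]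
          cases b <;> simp
      refine ⟨M', Polynomial.C cst * (Polynomial.X + ((Polynomial.X ^ k + Polynomial.C k + 1) ^ 2 +
        Polynomial.C (c.Bd (idx j))) + 1) ^ 2, hdet, ?_, ?_⟩
      · intro w
        obtain ⟨h1, h2⟩ := hM' c.O w (c.lam j w.length) (decide (w ∈ L)) (hspec w)
        constructor
        · intro hw
          obtain ⟨s, -, hs⟩ := h1 ((hval w).mpr hw)
          exact ⟨s, hs⟩
        · rintro ⟨s, hs⟩
          by_contra hcon
          exact h2 (fun h => hcon ((hval w).mp h)) s hs
      · intro w hw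
        obtain ⟨h1, -⟩ := hM' c.O w (c.lam j w.length) (decide (w ∈ L)) (hspec w)
        obtain ⟨s, hs, h⟩ := h1 ((hval w).mpr hw)
        refine ⟨s, hs.trans ?_, h⟩
        have hlam : c.lam j w.length = (t w.length ^ k + k + 1) ^ 2 + c.Bd (idx j) := by
          show (t w.length ^ (k - 1 + 1) + (k - 1 + 1) + 1) ^ 2 + c.Bd (idx j) = _
          rw [hk]
        simp only [Polynomial.eval_mul, Polynomial.eval_C, Polynomial.eval_pow,
          Polynomial.eval_add, Polynomial.eval_X, Polynomial.eval_one]
        rw [hlam]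
        refine Nat.mul_le_mul_left _ (Nat.pow_le_pow_left ?_ 2)
        have := hid w.length
        omega
    have hcompl : ∀ L ∈ ONTIME c.O A t, Lᶜ ∈ ONTIME c.O A t := by
      intro L hL
      have h1 := odtime_subset _ _ _ (key L hL false)
      have h2 : {w | (w ∈ L ↔ false = true)} = Lᶜ := by
        ext w
        simp
      rw [h2] at h1
      exact h1
    refine ⟨Set.Subset.antisymm (fun L hL => hcompl L hL) (fun L hL => ?_),
      Set.Subset.antisymm (fun L hL => ?_) (odtime_subset _ _ _)⟩
    · have h1 := hcompl _ hL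
      rw [compl_compl] at h1
      exact h1
    · have h1 := key L hL true
      have h2 : {w | (w ∈ L ↔ true = true)} = L := by
        ext w
        simp
      rw [h2] at h1
      exact h1
  · -- uncovered
    intro heq
    obtain ⟨a, ⟨e⟩⟩ := Finite.exists_equiv_fin A
    have ha : 2 ≤ a := by
      have h1 : 1 < Nat.card A := Finite.one_lt_card
      rw [Nat.card_congr e, Nat.card_eq_fintype_card, Fintype.card_fin] at h1
      exact h1
    obtain ⟨a', rfl⟩ : ∃ a', a = a' + 2 := ⟨a - 2, by omega⟩
    let th : HU H 𝒯 := ⟨t, ht, hid, hun⟩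
    let f : A → ℕ := fun x => (e x).val
    have hf : ∀ w : List A, (w.map e).map (fun x : Fin (a' + 2) => x.val) = w.map f := by
      intro w
      rw [List.map_map]
      rfl
    obtain ⟨M, cst, hM⟩ := exists_guess (pre (idf (th, a')) true) f
    set L : Set (List A) := {w | ∃ z : W, pre (idf (th, a')) true ++ (enc (w.map f) ++ z) ∈ c.O}
      with hL
    have hLmem : L ∈ ONTIME c.O A t := by
      refine ⟨M, Polynomial.C cst * (Polynomial.X + Polynomial.X + 1), ?_, ?_⟩
      · intro w
        constructor
        · rintro ⟨z, hz⟩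
          obtain ⟨s, -, hs⟩ := (hM c.O w).2 z hz
          exact ⟨s, hs⟩
        · rintro ⟨s, hs⟩
          exact (hM c.O w).1 s hs
      · rintro w ⟨z, hz⟩
        obtain ⟨s, hs, h⟩ := (hM c.O w).2 z hz
        refine ⟨s, hs.trans ?_, h⟩
        obtain ⟨m0, -⟩ := exists_md e M
        have h1 := c.test_length ((th, ⟨a', m0⟩, 0) : ReqT H 𝒯) (w.map f) z hz
        have h2 : z.length = t (w.map f).length := h1
        rw [List.length_map] at h2
        simp only [Polynomial.eval_mul, Polynomial.eval_C, Polynomial.eval_add,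
          Polynomial.eval_X, Polynomial.eval_one]
        rw [h2]
        refine Nat.mul_le_mul_left _ ?_
        have := hid w.length
        omega
    rw [heq] at hLmem
    obtain ⟨M', p, hp1, hp2⟩ := hLmem
    obtain ⟨m, hm⟩ := exists_md e M'
    obtain ⟨k, hk1, hk2⟩ := poly_le_pow p
    have hk : k - 1 + 1 = k := by omega
    obtain ⟨w, hw⟩ := c.requirement ((th, ⟨a', m⟩, k - 1) : ReqT H 𝒯)
    apply hw
    let w' : List (Fin (a' + 2)) := w
    set w0 : List A := w'.map e.symm with hw0
    have hw0e : w0.map e = w' := by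
      rw [hw0, List.map_map]
      simp
    have h1 : c.D ((th, ⟨a', m⟩, k - 1) : ReqT H 𝒯) w c.O ↔ w0 ∈ Lᶜ := by
      show accWithin c.O m.toM w' (t w'.length ^ (k - 1 + 1) + (k - 1 + 1)) ↔ w0 ∈ Lᶜ
      rw [hk]
      constructor
      · rintro ⟨s, -, hs⟩
        rw [hp1]
        refine ⟨s, ?_⟩
        rw [hm, hw0e]
        exact hs
      · intro h
        obtain ⟨s, hs, h'⟩ := hp2 w0 h
        refine ⟨s, ?_, ?_⟩
        · have : w0.length = w'.length := by rw [hw0, List.length_map]
          rw [this] at hs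
          exact hs.trans (hk2 _)
        · rw [hm, hw0e] at h'
          exact h'
    rw [h1]
    have h2 : w0.map f = w'.map (fun x : Fin (a' + 2) => x.val) := by
      rw [← hf w0, hw0e]
    constructor
    · intro h z hz
      apply h
      refine ⟨z, ?_⟩
      rw [h2]
      exact hz
    · rintro h ⟨z, hz⟩
      apply h z
      rw [h2] at hz
      exact hz

end Pool.Agent.H10.RQ
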