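import Mathlib

/-!
# RQ Pot: the lexicographic potential
-/

set_option autoImplicit false

namespace Pool.Agent.H10.RQ

open Finset

variable {P : Type}

theorem pot_le (Dg : Finset P) (lev : P → ℕ) (Δ : ℕ) (hlev : ∀ p ∈ Dg, lev p < Δ) (A : Finset P)
    (hA : A ⊆ Dg) : ∑ p ∈ A, (Dg.card + 1) ^ (Δ - 1 - lev p) < (Dg.card + 1) ^ Δ := by
  rcases Nat.eq_zero_or_pos Δ with h0 | h0
  · subst h0
    have : A = ∅ := by
      rw [Finset.eq_empty_iff_forall_notMem]
      intro p hp
      exact absurd (hlev p (hA hp)) (by omega)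
    rw [this]
    simp
  · have h1 : ∑ p ∈ A, (Dg.card + 1) ^ (Δ - 1 - lev p) ≤ ∑ _p ∈ A, (Dg.card + 1) ^ (Δ - 1) := by
      refine Finset.sum_le_sum fun p _ => Nat.pow_le_pow_right (by omega) (by omega)
    have h2 : ∑ _p ∈ A, (Dg.card + 1) ^ (Δ - 1) = A.card * (Dg.card + 1) ^ (Δ - 1) := by
      rw [Finset.sum_const, smul_eq_mul]
    have h3 : A.card ≤ Dg.card := Finset.card_le_card hA
    have h4 : (Dg.card + 1) ^ Δ = (Dg.card + 1) * (Dg.card + 1) ^ (Δ - 1) := by
      rw [← Nat.pow_succ']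
      congr 1
      omega
    rw [h4]
    have h5 : 0 < (Dg.card + 1) ^ (Δ - 1) := by positivity
    calc _ ≤ A.card * (Dg.card + 1) ^ (Δ - 1) := by rw [← h2]; exact h1
      _ ≤ Dg.card * (Dg.card + 1) ^ (Δ - 1) := Nat.mul_le_mul_right _ h3
      _ < (Dg.card + 1) * (Dg.card + 1) ^ (Δ - 1) := by
          exact Nat.mul_lt_mul_of_pos_right (by omega) h5

open Classical in
theorem pot_lt (Dg : Finset P) (lev : P → ℕ) (Δ : ℕ) (hlev : ∀ p ∈ Dg, lev p < Δ)
    (A A' : Finset P) (hA : A ⊆ Dg) (hA' : A' ⊆ Dg) (hne : A ≠ A')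
    (hmono : ∀ p ∈ A, (∀ p' ∈ Dg, lev p' < lev p → (p' ∈ A ↔ p' ∈ A')) → p ∈ A') :
    ∑ p ∈ A, (Dg.card + 1) ^ (Δ - 1 - lev p) < ∑ p ∈ A', (Dg.card + 1) ^ (Δ - 1 - lev p) := by
  classical
  -- the elements where the sets differ
  set B : Finset P := Dg.filter (fun p => ¬ (p ∈ A ↔ p ∈ A')) with hB
  have hBne : B.Nonempty := by
    by_contra h
    rw [Finset.not_nonempty_iff_eq_empty] at h
    apply hne
    ext p
    by_contra hp
    have hpD : p ∈ Dg := by
      by_cases h1 : p ∈ A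
      · exact hA h1
      · by_cases h2 : p ∈ A'
        · exact hA' h2
        · exact absurd (iff_of_false h1 h2) hp
    have : p ∈ B := by
      rw [hB, Finset.mem_filter]
      exact ⟨hpD, hp⟩
    rw [h] at this
    exact absurd this (Finset.notMem_empty p)
  obtain ⟨p0, hp0, hmin⟩ := Finset.exists_min_image B lev hBne
  have hlow : ∀ p' ∈ Dg, lev p' < lev p0 → (p' ∈ A ↔ p' ∈ A') := by
    intro p' hp' hl
    by_contra hcon
    have : p' ∈ B := by
      rw [hB, Finset.mem_filter]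
      exact ⟨hp', hcon⟩
    have := hmin p' this
    omega
  have hp0B := hp0
  rw [hB, Finset.mem_filter] at hp0B
  have hp0A' : p0 ∈ A' := by
    by_contra h
    have hp0A : p0 ∈ A := by
      by_contra h'
      exact hp0B.2 (iff_of_false h' h)
    exact h (hmono p0 hp0A hlow)
  have hp0A : p0 ∉ A := by
    intro h
    exact hp0B.2 (iff_of_true h hp0A')
  -- the elements of A \ A' have larger level
  have hbig : ∀ p ∈ A \ A', lev p0 < lev p := by
    intro p hp
    rw [Finset.mem_sdiff] at hp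
    have hpB : p ∈ B := by
      rw [hB, Finset.mem_filter]
      exact ⟨hA hp.1, fun h => hp.2 (h.mp hp.1)⟩
    have h1 := hmin p hpB
    rcases Nat.lt_or_ge (lev p0) (lev p) with h2 | h2
    · exact h2
    · exfalso
      have h3 : lev p = lev p0 := by omega
      exact hp.2 (hmono p hp.1 (by rw [h3]; exact hlow))
  have hp0lt : lev p0 < Δ := hlev p0 hp0B.1
  set w : P → ℕ := fun p => (Dg.card + 1) ^ (Δ - 1 - lev p) with hw
  have e1 : ∑ p ∈ A, w p = ∑ p ∈ A ∩ A', w p + ∑ p ∈ A \ A', w p := by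
    rw [← Finset.sum_union (Finset.disjoint_left.mpr fun p h1 h2 =>
      (Finset.mem_sdiff.mp h2).2 (Finset.mem_inter.mp h1).2)]
    congr 1
    ext p
    simp only [Finset.mem_union, Finset.mem_inter, Finset.mem_sdiff]
    tauto
  have e2 : ∑ p ∈ A', w p = ∑ p ∈ A ∩ A', w p + ∑ p ∈ A' \ A, w p := by
    rw [← Finset.sum_union (Finset.disjoint_left.mpr fun p h1 h2 =>
      (Finset.mem_sdiff.mp h2).2 (Finset.mem_inter.mp h1).1)]
    congr 1
    ext p
    simp only [Finset.mem_union, Finset.mem_inter, Finset.mem_sdiff]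
    tauto
  have e3 : w p0 ≤ ∑ p ∈ A' \ A, w p :=
    Finset.single_le_sum (f := w) (fun p _ => Nat.zero_le _)
      (Finset.mem_sdiff.mpr ⟨hp0A', hp0A⟩)
  have e4 : ∑ p ∈ A \ A', w p < w p0 := by
    rcases (A \ A').eq_empty_or_nonempty with h0 | ⟨p1, hp1⟩
    · rw [h0, Finset.sum_empty]
      exact Nat.pow_pos (by omega)
    · have h1 : lev p0 + 1 < Δ := by
        have := hbig p1 hp1
        have := hlev p1 (hA (Finset.mem_sdiff.mp hp1).1)
        omega
      have h2 : ∑ p ∈ A \ A', w p ≤ (A \ A').card * (Dg.card + 1) ^ (Δ - 1 - (lev p0 + 1)) := by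
        rw [← smul_eq_mul]
        refine Finset.sum_le_card_nsmul _ _ _ fun p hp => ?_
        have := hbig p hp
        exact Nat.pow_le_pow_right (by omega) (by omega)
      have h3 : (A \ A').card ≤ Dg.card :=
        Finset.card_le_card (Finset.sdiff_subset.trans hA)
      have h4 : w p0 = (Dg.card + 1) * (Dg.card + 1) ^ (Δ - 1 - (lev p0 + 1)) := by
        rw [hw]
        show (Dg.card + 1) ^ (Δ - 1 - lev p0) = _
        rw [← Nat.pow_succ']
        congr 1
        omega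
      have h5 : 0 < (Dg.card + 1) ^ (Δ - 1 - (lev p0 + 1)) := by positivity
      rw [h4]
      calc _ ≤ _ := h2
        _ ≤ Dg.card * (Dg.card + 1) ^ (Δ - 1 - (lev p0 + 1)) := Nat.mul_le_mul_right _ h3
        _ < _ := Nat.mul_lt_mul_of_pos_right (by omega) h5
  show ∑ p ∈ A, w p < ∑ p ∈ A', w p
  omega

end Pool.Agent.H10.RQ
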