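import Pool.Agent.H10.RQ.Build
import Pool.Agent.H10.RQ.Pot

/-!
# RQ StageL: the stage lemma

If the test words of one stage are added one after the other, the set of the accepted dangerous
computations increases lexicographically with respect to the levels, so some step changes nothing.
-/

set_option autoImplicit false

namespace Pool.Agent.H10.RQ

open Finset

/-- the level of a computation -/
def lev {P : Type} (S : Sys P) (N : ℕ) (p : P) : ℕ := Nat.log 2 (Nat.log N (S.T p))

theorem log_pos_of {N T : ℕ} (hN : 2 ≤ N) (h : N ≤ T) : 1 ≤ Nat.log N T :=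
  Nat.log_pos (by omega) h

theorem lev_lt_of {P : Type} (S : Sys P) {N K Δ : ℕ} {p : P} (hN : 2 ≤ N) (h1 : N ≤ S.T p)
    (h2 : S.T p ≤ K) (hK : K < N ^ 2 ^ Δ) : lev S N p < Δ := by
  unfold lev
  have h3 : Nat.log N (S.T p) < 2 ^ Δ := Nat.log_lt_of_lt_pow (by omega) (by omega)
  exact Nat.log_lt_of_lt_pow (by have := log_pos_of hN h1; omega) h3

theorem lev_lt_lev {P : Type} (S : Sys P) {N : ℕ} {p p' : P} (hN : 2 ≤ N) (h1 : N ≤ S.T p')
    (h2 : (S.T p' + 1) ^ 2 ≤ S.T p) : lev S N p' < lev S N p := by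
  unfold lev
  have h3 : 1 ≤ Nat.log N (S.T p') := log_pos_of hN h1
  have h4 : N ^ Nat.log N (S.T p') ≤ S.T p' := Nat.pow_log_le_self N (by omega)
  have h5 : N ^ (2 * Nat.log N (S.T p')) ≤ S.T p := by
    rw [mul_comm, pow_mul]
    calc (N ^ Nat.log N (S.T p')) ^ 2 ≤ (S.T p' + 1) ^ 2 :=
          Nat.pow_le_pow_left (by omega) 2
      _ ≤ _ := h2
  have h6 : 2 * Nat.log N (S.T p') ≤ Nat.log N (S.T p) :=
    Nat.le_log_of_pow_le (by omega) h5
  have h7 : Nat.log 2 (2 * Nat.log N (S.T p')) = Nat.log 2 (Nat.log N (S.T p')) + 1 := by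
    rw [mul_comm]
    exact Nat.log_mul_base (by omega) (by omega)
  have h8 := Nat.log_mono_right (b := 2) h6
  omega

theorem stage {P : Type} (S : Sys P) (X0 : Set W) (N K Δ V : ℕ) (τ : Fin V → W → W)
    (D : Fin V → Set W → Prop) (Dg : Finset P)
    (hτinj : ∀ i y i' y', y.length = N → y'.length = N → τ i y = τ i' y' → i = i' ∧ y = y')
    (hτlen : ∀ i y, y.length = N → N < (τ i y).length)
    (hD : ∀ i, HasUse (D i) K)
    (hN : 2 ≤ N)
    (hDg : ∀ p b, N ≤ S.T p → (S.cw p b).length ≤ K → p ∈ Dg)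
    (hDgT : ∀ p ∈ Dg, N ≤ S.T p ∧ S.T p ≤ K)
    (hK : K < N ^ 2 ^ Δ)
    (hV : (Dg.card + 1) ^ Δ ≤ V)
    (hfresh : (Dg.card + 1) * K < 2 ^ N) :
    ∃ U : Set W, (∀ x ∈ U, ∃ i y, y.length = N ∧ x = τ i y) ∧
      ∃ i, ¬ (D i (orc S (X0 ∪ U)) ↔ ∀ y, y.length = N → τ i y ∉ U) := by
  classical
  by_contra hcon
  have hall : ∀ U : Set W, (∀ x ∈ U, ∃ i y, y.length = N ∧ x = τ i y) →
      ∀ i, (D i (orc S (X0 ∪ U)) ↔ ∀ y, y.length = N → τ i y ∉ U) := by
    intro U hU i
    by_contra h
    exact hcon ⟨U, hU, i, h⟩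
  set AA : Set W → Finset P := fun U => Dg.filter (fun p => S.acc p (orc S (X0 ∪ U))) with hAA
  have hAAs : ∀ U, AA U ⊆ Dg := fun U => Finset.filter_subset _ _
  have hmemAA : ∀ U p, p ∈ Dg → (p ∈ AA U ↔ S.acc p (orc S (X0 ∪ U))) := by
    intro U p hp
    rw [hAA]
    simp only [Finset.mem_filter]
    exact ⟨fun h => h.2, fun h => ⟨hp, h⟩⟩
  have hlev : ∀ p ∈ Dg, lev S N p < Δ := fun p hp =>
    lev_lt_of S hN (hDgT p hp).1 (hDgT p hp).2 hK
  have key : ∀ m ≤ V, ∃ U : Set W,
      (∀ x ∈ U, ∃ (i : Fin V) (y : W), i.val < m ∧ y.length = N ∧ x = τ i y) ∧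
      m ≤ ∑ p ∈ AA U, (Dg.card + 1) ^ (Δ - 1 - lev S N p) := by
    intro m
    induction m with
    | zero => intro _; exact ⟨∅, by simp, Nat.zero_le _⟩
    | succ m ih =>
      intro hm
      obtain ⟨U, hU, hΨ⟩ := ih (by omega)
      have hUv : ∀ x ∈ U, ∃ i y, y.length = N ∧ x = τ i y := by
        intro x hx
        obtain ⟨i, y, -, h1, h2⟩ := hU x hx
        exact ⟨i, y, h1, h2⟩
      let i : Fin V := ⟨m, by omega⟩
      have hDi : D i (orc S (X0 ∪ U)) := by
        rw [hall U hUv i]
        intro y hy hyU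
        obtain ⟨i', y', h1, h2, h3⟩ := hU _ hyU
        have := (hτinj i y i' y' hy h2 h3).1
        rw [← this] at h1
        exact absurd h1 (lt_irrefl m)
      -- use sets
      obtain ⟨QD, hQD1, hQD2, hQD3⟩ := hD i _ hDi
      have hch : ∀ p : P, ∃ Q : Finset W, S.acc p (orc S (X0 ∪ U)) →
          Q.card ≤ S.T p ∧ (∀ x ∈ Q, x.length ≤ S.T p) ∧
          ∀ O' : Set W, (∀ x ∈ Q, (x ∈ orc S (X0 ∪ U) ↔ x ∈ O')) → S.acc p O' := by
        intro p
        by_cases h : S.acc p (orc S (X0 ∪ U))
        · obtain ⟨Q, h1, h2, h3⟩ := S.use p _ h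
          exact ⟨Q, fun _ => ⟨h1, h2, h3⟩⟩
        · exact ⟨∅, fun h' => absurd h' h⟩
      choose Qs hQs using hch
      set Q : Finset W := (AA U).biUnion Qs ∪ QD with hQ
      have hQcard : Q.card < 2 ^ N := by
        have h1 : ((AA U).biUnion Qs).card ≤ (AA U).card * K := by
          refine Finset.card_biUnion_le_card_mul _ _ _ fun p hp => ?_
          have hpD := hAAs U hp
          exact ((hQs p ((hmemAA U p hpD).mp hp)).1).trans (hDgT p hpD).2
        have h2 : (AA U).card ≤ Dg.card := Finset.card_le_card (hAAs U)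
        calc Q.card ≤ ((AA U).biUnion Qs).card + QD.card := Finset.card_union_le _ _
          _ ≤ (AA U).card * K + K := Nat.add_le_add h1 hQD1
          _ ≤ Dg.card * K + K := Nat.add_le_add_right (Nat.mul_le_mul_right _ h2) _
          _ = (Dg.card + 1) * K := by ring
          _ < 2 ^ N := hfresh
      obtain ⟨y, hyN, hyQ⟩ : ∃ y : W, y.length = N ∧ τ i y ∉ Q := by
        by_contra hno
        have hall' : ∀ y : W, y.length = N → τ i y ∈ Q := by
          intro y hy
          by_contra h
          exact hno ⟨y, hy, h⟩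
        have hsub : (Finset.univ : Finset (Fin N → Bool)).image
            (fun v => τ i (List.ofFn v)) ⊆ Q := by
          intro x hx
          rw [Finset.mem_image] at hx
          obtain ⟨v, -, rfl⟩ := hx
          exact hall' _ (by simp)
        have hinj : Function.Injective (fun v : Fin N → Bool => τ i (List.ofFn v)) := by
          intro v v' h
          have := (hτinj i _ i _ (by simp) (by simp) h).2
          exact List.ofFn_injective this
        have h1 := Finset.card_le_card hsub
        rw [Finset.card_image_of_injective _ hinj, Finset.card_univ, Fintype.card_fun,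
          Fintype.card_bool, Fintype.card_fin] at h1
        omega
      set U' : Set W := U ∪ {τ i y} with hU'
      have hU'v' : ∀ x ∈ U', ∃ (i : Fin V) (y : W), i.val < m + 1 ∧ y.length = N ∧ x = τ i y := by
        rintro x (hx | hx)
        · obtain ⟨i', y', h1, h2, h3⟩ := hU x hx
          exact ⟨i', y', by omega, h2, h3⟩
        · exact ⟨i, y, Nat.lt_succ_self m, hyN, hx⟩
      have hU'v : ∀ x ∈ U', ∃ i y, y.length = N ∧ x = τ i y := by
        intro x hx
        obtain ⟨i, y, -, h1, h2⟩ := hU'v' x hx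
        exact ⟨i, y, h1, h2⟩
      have hXX : ∀ x : W, x ≠ τ i y → (x ∈ X0 ∪ U ↔ x ∈ X0 ∪ U') := by
        intro x hx
        constructor
        · rintro (h | h)
          · exact Or.inl h
          · exact Or.inr (Or.inl h)
        · rintro (h | h | h)
          · exact Or.inl h
          · exact Or.inr h
          · exact absurd h hx
      have hlow : ∀ x : W, x.length < N + 1 →
          (x ∈ orc S (X0 ∪ U) ↔ x ∈ orc S (X0 ∪ U')) := by
        refine orc_congr S fun x hx => hXX x ?_
        intro h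
        have := hτlen i y hyN
        rw [← h] at this
        omega
      have hacclow : ∀ p, S.T p < N → (S.acc p (orc S (X0 ∪ U)) ↔ S.acc p (orc S (X0 ∪ U'))) :=
        fun p hp => (S.use p).congr fun x hx => hlow x (by omega)
      have hagree : ∀ x : W, x ≠ τ i y → x.length ≤ K →
          (∀ p ∈ Dg, ∀ b, x = S.cw p b → (p ∈ AA U ↔ p ∈ AA U')) →
          (x ∈ orc S (X0 ∪ U) ↔ x ∈ orc S (X0 ∪ U')) := by
        intro x hx hxK hp
        rw [mem_orc, mem_orc S (X0 ∪ U'), hXX x hx]
        have hacc : ∀ p b, x = S.cw p b →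
            (S.acc p (orc S (X0 ∪ U)) ↔ S.acc p (orc S (X0 ∪ U'))) := by
          intro p b hpb
          rcases Nat.lt_or_ge (S.T p) N with hT | hT
          · exact hacclow p hT
          · have hpD : p ∈ Dg := hDg p b hT (by rw [← hpb]; exact hxK)
            rw [← hmemAA U p hpD, ← hmemAA U' p hpD]
            exact hp p hpD b hpb
        constructor
        · rintro (h | ⟨p, b, h1, h2⟩)
          · exact Or.inl h
          · exact Or.inr ⟨p, b, h1, by rw [← hacc p b h1]; exact h2⟩
        · rintro (h | ⟨p, b, h1, h2⟩)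
          · exact Or.inl h
          · exact Or.inr ⟨p, b, h1, by rw [hacc p b h1]; exact h2⟩
      have hne : AA U ≠ AA U' := by
        intro heq
        have h1 : D i (orc S (X0 ∪ U')) := by
          refine hQD3 _ fun x hx => ?_
          refine hagree x ?_ (hQD2 x hx) fun p _ b _ => by rw [heq]
          intro h
          exact hyQ (by rw [← h, hQ]; exact Finset.mem_union_right _ hx)
        rw [hall U' hU'v i] at h1
        exact h1 y hyN (Or.inr rfl)
      have hmono : ∀ p ∈ AA U,
          (∀ p' ∈ Dg, lev S N p' < lev S N p → (p' ∈ AA U ↔ p' ∈ AA U')) → p ∈ AA U' := by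
        intro p hp hlow'
        have hpD := hAAs U hp
        have hacc := (hmemAA U p hpD).mp hp
        obtain ⟨h1, h2, h3⟩ := hQs p hacc
        rw [hmemAA U' p hpD]
        refine h3 _ fun x hx => ?_
        refine hagree x ?_ ((h2 x hx).trans (hDgT p hpD).2) fun p' hp' b hb => ?_
        · intro h
          exact hyQ (by
            rw [← h, hQ]
            exact Finset.mem_union_left _ (Finset.mem_biUnion.mpr ⟨p, hp, hx⟩))
        · refine hlow' p' hp' (lev_lt_lev S hN (hDgT p' hp').1 ?_)
          have h4 := S.sq_le p' b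
          have h5 := h2 x hx
          rw [hb] at h5
          omega
      have hlt := pot_lt Dg (lev S N) Δ hlev (AA U) (AA U') (hAAs U) (hAAs U') hne hmono
      exact ⟨U', hU'v', by omega⟩
  obtain ⟨U, -, hΨ⟩ := key V le_rfl
  have := pot_le Dg (lev S N) Δ hlev (AA U) (hAAs U)
  omega

end Pool.Agent.H10.RQ
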